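import Mathlib

/-!
# SplB/Defs: the truncated base of the W-scheme (`MP_92924b_an`, note 1939), univariate form

`ρ = r + 1`, `g = ⌈ρ / 3⌉`, `W = ρ - g`, `T = W + 1`.  A family `f c`, `c < 2 T`, of polynomials in `s` stands for `∑_c U ^ c f_c(s)` (chart `z = 1`).
`th N f d` is the graded piece of degree `d` in `(s, U)`, dehomogenised: `∑_{c < N, c ≤ d} (f c)_{d - c} X ^ c` (`X = U / s`, `1 + X = t / s`).
-/

set_option autoImplicit false

namespace Pool.Agent.SplB

open Polynomial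

section

variable {A : Type*} [CommRing A]

/-- the graded pieces -/
noncomputable def th (N : ℕ) (f : ℕ → A[X]) (d : ℕ) : A[X] :=
  ∑ c ∈ Finset.range N, if c ≤ d then C ((f c).coeff (d - c)) * X ^ c else 0

/-- the exponent of `t` in degree `d` -/
def n0 (g W ρ d : ℕ) : ℕ := min W (max g (2 * ρ - d))

/-- the condition at the line `A`, graded -/
def InA (g W ρ : ℕ) (f : ℕ → A[X]) : Prop :=
  ∀ d, ∃ α : A[X], (∀ j, d < j + n0 g W ρ d → α.coeff j = 0) ∧
    X ^ (2 * (W + 1)) ∣ th (2 * (W + 1)) f d - (1 + X) ^ n0 g W ρ d * α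

/-- the order at infinity -/
def be (W ρ c : ℕ) : ℕ := min (W + 1) (ρ - (c + W) / 3)

end

/-- the merged system with the nodes `A` at `0`, `e` at `1`, `B` and `w₃` at infinity and `12` at `x` (multiplied by `(s - x) ^ (2 T - 1 - ρ)`) -/
structure Sys {K : Type*} [Field K] (g W ρ : ℕ) (x : K) (f : ℕ → K[X]) : Prop where
  y : ∀ c < 2 * (W + 1), (X - C x) ^ (2 * W + 1 - ρ - (c - ρ)) ∣ f c
  e : ∀ c < 2 * (W + 1), W ≤ c → (X - 1) ^ (ρ - c / 2) ∣ f c
  b : ∀ c < 2 * (W + 1), ∀ i, ρ + 2 * W < c + i + be W ρ c → (f c).coeff i = 0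
  a : InA g W ρ f

end Pool.Agent.SplB
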