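import Pool.Agent.SplW.Defs

/-!
# SplB/Glue: gluing the forms on the two lines (note 1939, Step 1)

Coordinates: `X 0 = s`, `X 1 = z`, `X 2 = U`.  `Yl x = s - x z` (the node `12`), the lines `U₁ = X 2` and `U₂ = X 2 - ε Yl x`.
PAPER PROOF of `glue`.  `M₁ - M₂ = A + U₁ ^ T B + U₂ ^ T C` with `A ∈ (U₁, U₂) ^ ρ` (`T = W + 1`, `q = 2 W + 1 - ρ`).  As `ε Y = U₁ - U₂`: `Y ^ q A ∈ (U₁, U₂) ^ (2 W + 1)
= U₁ ^ T (U₁, U₂) ^ W + U₂ ^ T (U₁, U₂) ^ W`, so `Y ^ q A = U₁ ^ T B' + U₂ ^ T C'` with `B', C' ∈ (U₁, U₂) ^ W = (Y, U₁) ^ W`.  `G₁ := Y ^ q M₁ - U₁ ^ T (B' + Y ^ q B) = Y ^ q M₂ +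
U₂ ^ T (C' + Y ^ q C)` is in `(Y ^ q) + (Y, U₁) ^ (2 W + 1)`.  Its homogeneous component of degree `ρ + 2 W = (2 ρ - 1) + q` has the same properties (all ideals are homogeneous, `Y ^ q M_v` is
homogeneous of this degree).  Division by `U₁ ^ T` and then by `U₂ ^ T` (both monic in `X 2`): `G₂ = R₁ + U₁ ^ T Q₁`, `Q₁ = R₂ + U₂ ^ T Q₂`, `degreeOf 2 R_v ≤ W`, all homogeneous;
`G := R₁ + U₁ ^ T R₂ = G₂ - U₁ ^ T U₂ ^ T Q₂`, and `U₁ ^ T U₂ ^ T ∈ (Y, U₁) ^ (2 W + 2)`.
`rem`: division by the `n`-th power of `X 2 + l`, `l` a linear form in `X 0, X 1`: by the automorphism `X 2 ↦ X 2 - l` one may assume `l = 0`, where one splits the monomials of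
`f` according to `m 2 < n` or `n ≤ m 2`.
`ndvd`: `X 2 + l` is prime (image of `X 2` under an automorphism) and does not divide `Yl x`.
-/

set_option autoImplicit false

namespace Pool.Agent.SplB

open MvPolynomial

variable {L : Type*} [Field L]

/-- the linear form of the node `12` -/
noncomputable def Yl (x : L) : MvPolynomial (Fin 3) L := X 0 - C x * X 1

/-- the second line -/
noncomputable def U2 (x ε : L) : MvPolynomial (Fin 3) L := X 2 - C ε * Yl x

private noncomputable def sft (α β : L) : MvPolynomial (Fin 3) L →ₐ[L] MvPolynomial (Fin 3) L :=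
  aeval ![X 0, X 1, C α * X 0 + C β * X 1 + X 2]

private theorem sft_sft (α β : L) : (sft α β).comp (sft (-α) (-β)) = AlgHom.id L _ := by
  apply MvPolynomial.algHom_ext
  intro i
  fin_cases i
  · simp [sft]
  · simp [sft]
  · simp only [sft, AlgHom.comp_apply, aeval_X, Fin.reduceFinMk, Matrix.cons_val_zero,
      Matrix.cons_val_one, map_mul, map_add, map_neg, algHom_C, algebraMap_eq, AlgHom.id_apply,
      Matrix.cons_val]
    ring

private theorem sft_X2 (α β : L) : sft α β (X 2) = C α * X 0 + C β * X 1 + X 2 := by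
  simp [sft]

private theorem sft_homog (α β : L) {f : MvPolynomial (Fin 3) L} {k : ℕ} (hf : f.IsHomogeneous k) :
    (sft α β f).IsHomogeneous k := by
  have h := hf.aeval (n := 1) (g := (![X 0, X 1, C α * X 0 + C β * X 1 + X 2] :
    Fin 3 → MvPolynomial (Fin 3) L)) (by
      intro i
      fin_cases i
      · exact isHomogeneous_X _ _
      · exact isHomogeneous_X _ _
      · exact ((isHomogeneous_C_mul_X _ _).add (isHomogeneous_C_mul_X _ _)).add
          (isHomogeneous_X _ _))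
  rwa [one_mul] at h

private theorem sft_support (α β : L) (p : MvPolynomial (Fin 3) L) :
    ∀ m ∈ (sft α β p).support, ∃ m' ∈ p.support, m 2 ≤ m' 2 := by
  intro m hm
  have h1 : sft α β p = ∑ m' ∈ p.support, C (coeff m' p) *
      (X 0 ^ m' 0 * X 1 ^ m' 1 * (C α * X 0 + C β * X 1 + X 2) ^ m' 2) := by
    unfold sft
    rw [aeval_def, eval₂_eq']
    refine Finset.sum_congr rfl fun m' _ => ?_
    rw [Fin.prod_univ_three]
    rfl
  rw [h1] at hm
  obtain ⟨m', hm', h2⟩ := Finset.mem_biUnion.1 (support_sum hm)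
  refine ⟨m', hm', ?_⟩
  have h3 : m 2 ≤ degreeOf (2 : Fin 3) (C (coeff m' p) *
      (X 0 ^ m' 0 * X 1 ^ m' 1 * (C α * X 0 + C β * X 1 + X 2) ^ m' 2)) := by
    exact monomial_le_degreeOf _ h2
  refine h3.trans ((degreeOf_mul_le _ _ _).trans ?_)
  rw [degreeOf_C, zero_add]
  refine (degreeOf_mul_le _ _ _).trans ?_
  have h4 : degreeOf (2 : Fin 3) ((X 0 : MvPolynomial (Fin 3) L) ^ m' 0 * X 1 ^ m' 1) = 0 := by
    apply Nat.le_zero.1
    refine (degreeOf_mul_le _ _ _).trans ?_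
    refine (Nat.add_le_add (degreeOf_pow_le _ _ _) (degreeOf_pow_le _ _ _)).trans ?_
    rw [degreeOf_X, degreeOf_X, if_neg (by decide), if_neg (by decide)]
    simp
  rw [h4, zero_add]
  refine (degreeOf_pow_le _ _ _).trans ?_
  have h5 : degreeOf (2 : Fin 3) (C α * X 0 + C β * X 1 + X 2 : MvPolynomial (Fin 3) L) ≤ 1 := by
    refine (degreeOf_add_le _ _ _).trans (max_le ((degreeOf_add_le _ _ _).trans (max_le ?_ ?_)) ?_)
    · refine (degreeOf_mul_le _ _ _).trans ?_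
      rw [degreeOf_C, degreeOf_X, if_neg (by decide)]
      omega
    · refine (degreeOf_mul_le _ _ _).trans ?_
      rw [degreeOf_C, degreeOf_X, if_neg (by decide)]
      omega
    · rw [degreeOf_X, if_pos rfl]
  calc m' 2 * degreeOf (2 : Fin 3) (C α * X 0 + C β * X 1 + X 2 : MvPolynomial (Fin 3) L)
      ≤ m' 2 * 1 := Nat.mul_le_mul_left _ h5
    _ = m' 2 := mul_one _

theorem rem (α β : L) (n k : ℕ) {f : MvPolynomial (Fin 3) L} (hf : f.IsHomogeneous k) :
    ∃ r Q : MvPolynomial (Fin 3) L, f = r + (C α * X 0 + C β * X 1 + X 2) ^ n * Q ∧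
      r.IsHomogeneous k ∧ (Q = 0 ∨ (n ≤ k ∧ Q.IsHomogeneous (k - n))) ∧
      ∀ m ∈ r.support, m 2 < n := by
  set g := sft (-α) (-β) f with hg
  have hgh : g.IsHomogeneous k := sft_homog _ _ hf
  set s : Fin 3 →₀ ℕ := Finsupp.single 2 n with hs
  have hsw : ∀ m : Fin 3 →₀ ℕ, Finsupp.weight 1 (s + m) = n + Finsupp.weight (1 : Fin 3 → ℕ) m := by
    intro m
    rw [map_add, hs, Finsupp.weight_single]
    simp
  refine ⟨sft α β (g.modMonomial s), sft α β (g.divMonomial s), ?_, ?_, ?_, ?_⟩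
  · have h1 := divMonomial_add_modMonomial g s
    have h2 : sft α β g = f := by
      have := DFunLike.congr_fun (sft_sft α β) f
      simpa using this
    have h3 : monomial s (1 : L) = X 2 ^ n := by
      rw [hs, X_pow_eq_monomial]
    rw [← h2]
    conv_lhs => rw [← h1]
    rw [map_add, map_mul, h3, map_pow, sft_X2]
    ring
  · apply sft_homog
    intro m hm
    by_cases h : s ≤ m
    · rw [coeff_modMonomial_of_le _ h] at hm
      exact absurd rfl hm
    · rw [coeff_modMonomial_of_not_le _ h] at hm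
      exact hgh hm
  · by_cases h : g.divMonomial s = 0
    · left
      rw [h, map_zero]
    · right
      obtain ⟨m, hm⟩ := (ne_zero_iff.1 h)
      rw [coeff_divMonomial] at hm
      have h1 := hgh hm
      rw [hsw] at h1
      refine ⟨by omega, ?_⟩
      apply sft_homog
      intro m' hm'
      rw [coeff_divMonomial] at hm'
      have h2 := hgh hm'
      rw [hsw] at h2
      omega
  · intro m hm
    obtain ⟨m', hm', h1⟩ := sft_support _ _ _ m hm
    refine lt_of_le_of_lt h1 ?_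
    by_contra h2
    rw [mem_support_iff] at hm'
    apply hm'
    apply coeff_modMonomial_of_le
    rw [hs, Finsupp.single_le_iff]
    omega

private theorem lp_prime (α β : L) :
    Prime (C α * X 0 + C β * X 1 + X 2 : MvPolynomial (Fin 3) L) := by
  have h2 : (sft (-α) (-β)).comp (sft α β) = AlgHom.id L _ := by
    have := sft_sft (-α) (-β)
    rwa [neg_neg, neg_neg] at this
  have h3 := (MulEquiv.prime_iff (AlgEquiv.ofAlgHom (sft α β) (sft (-α) (-β)) (sft_sft α β) h2)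
    (p := (X 2 : MvPolynomial (Fin 3) L))).2 X_prime
  rwa [AlgEquiv.ofAlgHom_apply, sft_X2] at h3

theorem ndvd (α β x : L) (n q : ℕ) {f : MvPolynomial (Fin 3) L}
    (h : (C α * X 0 + C β * X 1 + X 2) ^ n ∣ Yl x ^ q * f) :
    (C α * X 0 + C β * X 1 + X 2) ^ n ∣ f := by
  refine (lp_prime α β).pow_dvd_of_dvd_mul_left n ?_ h
  intro h1
  obtain ⟨c, hc⟩ := (lp_prime α β).dvd_of_dvd_pow h1
  have h2 := congrArg (eval ![1, 0, -α]) hc
  simp [Yl] at h2

private theorem pow_span_le {R : Type*} [CommRing R] (a b : R) (δ : ℕ) :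
    (Ideal.span {a, b}) ^ δ ≤ Ideal.span {f | ∃ i j, i + j = δ ∧ f = a ^ i * b ^ j} := by
  induction δ with
  | zero =>
    rw [pow_zero, Ideal.one_eq_top, top_le_iff, Ideal.eq_top_iff_one]
    exact Ideal.subset_span ⟨0, 0, rfl, by simp⟩
  | succ n ih =>
    rw [pow_succ]
    refine (Ideal.mul_mono_left ih).trans ?_
    rw [Ideal.span_mul_span', Ideal.span_le]
    rintro _ ⟨_, ⟨i, j, hij, rfl⟩, g, hg, rfl⟩
    simp only [Set.mem_insert_iff, Set.mem_singleton_iff] at hg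
    rcases hg with rfl | rfl
    · exact Ideal.subset_span ⟨i + 1, j, by omega, by simp only; ring⟩
    · exact Ideal.subset_span ⟨i, j + 1, by omega, by simp only; ring⟩

private theorem pow_split {a b : MvPolynomial (Fin 3) L} (W : ℕ) :
    (Ideal.span {a, b}) ^ (2 * W + 1) ≤
      Ideal.span {a ^ (W + 1)} * (Ideal.span {a, b}) ^ W ⊔
        Ideal.span {b ^ (W + 1)} * (Ideal.span {a, b}) ^ W := by
  refine (pow_span_le a b _).trans ?_
  rw [Ideal.span_le]
  rintro _ ⟨i, j, hij, rfl⟩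
  rcases Nat.lt_or_ge W i with h | h
  · apply Ideal.mem_sup_left
    have h1 : a ^ i * b ^ j = a ^ (W + 1) * (a ^ (i - (W + 1)) * b ^ j) := by
      rw [← mul_assoc, ← pow_add]
      congr 2
      omega
    rw [h1]
    exact Ideal.mul_mem_mul (Ideal.subset_span rfl) (SplG.mem_pow_of (by omega))
  · apply Ideal.mem_sup_right
    have h1 : a ^ i * b ^ j = b ^ (W + 1) * (a ^ i * b ^ (j - (W + 1))) := by
      rw [mul_left_comm, ← pow_add]
      congr 2
      omega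
    rw [h1]
    exact Ideal.mul_mem_mul (Ideal.subset_span rfl) (SplG.mem_pow_of (by omega))

attribute [local instance] MvPolynomial.gradedAlgebra

private theorem hc_mem {I : Ideal (MvPolynomial (Fin 3) L)}
    (hI : I.IsHomogeneous (homogeneousSubmodule (Fin 3) L)) {f : MvPolynomial (Fin 3) L}
    (hf : f ∈ I) (k : ℕ) : homogeneousComponent k f ∈ I := by
  exact homogeneousComponent_mem_of_mem hI hf k

private theorem hom_pow {I : Ideal (MvPolynomial (Fin 3) L)}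
    (hI : I.IsHomogeneous (homogeneousSubmodule (Fin 3) L)) (n : ℕ) :
    (I ^ n).IsHomogeneous (homogeneousSubmodule (Fin 3) L) := by
  induction n with
  | zero =>
    rw [pow_zero, Ideal.one_eq_top]
    exact Ideal.IsHomogeneous.top _
  | succ n ih =>
    rw [pow_succ]
    exact ih.mul hI

private theorem Yl_hom (x : L) : (Yl x).IsHomogeneous 1 := by
  unfold Yl
  exact (isHomogeneous_X _ _).sub (isHomogeneous_C_mul_X _ _)

private theorem U2_hom (x ε : L) : (U2 x ε).IsHomogeneous 1 := by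
  unfold U2
  refine (isHomogeneous_X _ _).sub ?_
  have := (isHomogeneous_C (Fin 3) ε).mul (Yl_hom x)
  rwa [zero_add] at this

private theorem hom_dvd {a f : MvPolynomial (Fin 3) L} {d : ℕ} (ha : a.IsHomogeneous d)
    (h : a ∣ f) (k : ℕ) : a ∣ homogeneousComponent k f := by
  rw [← Ideal.mem_span_singleton] at h ⊢
  refine hc_mem (Ideal.homogeneous_span _ _ ?_) h k
  intro y hy
  rw [Set.mem_singleton_iff] at hy
  subst hy
  exact ⟨d, (mem_homogeneousSubmodule _ _).2 ha⟩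

theorem glue {ρ W : ℕ} (h1 : 1 ≤ ρ) (h2 : ρ ≤ 2 * W + 1) (x : L) {ε : L} (hε : ε ≠ 0)
    {M₁ M₂ : MvPolynomial (Fin 3) L} (hM₁ : M₁.IsHomogeneous (2 * ρ - 1))
    (hM₂ : M₂.IsHomogeneous (2 * ρ - 1))
    (h : M₁ - M₂ ∈ SplW.J ρ (W + 1) (W + 1) (X 2) (U2 x ε)) :
    ∃ G : MvPolynomial (Fin 3) L, G.IsHomogeneous (ρ + 2 * W) ∧
      (∀ m ∈ G.support, m 2 < 2 * (W + 1)) ∧
      X 2 ^ (W + 1) ∣ G - Yl x ^ (2 * W + 1 - ρ) * M₁ ∧
      U2 x ε ^ (W + 1) ∣ G - Yl x ^ (2 * W + 1 - ρ) * M₂ ∧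
      G ∈ Ideal.span {Yl x ^ (2 * W + 1 - ρ)} ⊔ Ideal.span {Yl x, X 2} ^ (2 * W + 1) := by
  set Y := Yl x with hY
  set U := U2 x ε with hU
  set q := 2 * W + 1 - ρ with hq
  have hUY : U = X 2 - C ε * Y := rfl
  have hC : (C ε⁻¹ : MvPolynomial (Fin 3) L) * C ε = 1 := by
    rw [← C_mul, inv_mul_cancel₀ hε, C_1]
  have hYU : Y = C ε⁻¹ * (X 2 - U) := by
    rw [hUY]
    linear_combination -Y * hC
  have hYmem : Y ∈ Ideal.span {X 2, U} := by
    rw [hYU]
    exact Ideal.mul_mem_left _ _ (Ideal.sub_mem _ (Ideal.subset_span (by simp))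
      (Ideal.subset_span (by simp)))
  have hle : Ideal.span {X 2, U} ≤ Ideal.span {Y, X 2} := by
    rw [Ideal.span_le]
    intro z hz
    simp only [Set.mem_insert_iff, Set.mem_singleton_iff] at hz
    rcases hz with rfl | rfl
    · exact Ideal.subset_span (by simp)
    · show U ∈ Ideal.span {Y, X 2}
      rw [hUY]
      exact Ideal.sub_mem _ (Ideal.subset_span (by simp))
        (Ideal.mul_mem_left _ _ (Ideal.subset_span (by simp)))
  unfold SplW.J at h
  obtain ⟨A, hA, BC, hBC, hsum⟩ := Submodule.mem_sup.1 h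
  obtain ⟨B₀, hB₀, C₀, hC₀, hsum2⟩ := Submodule.mem_sup.1 hBC
  obtain ⟨B, hB⟩ := Ideal.mem_span_singleton.1 hB₀
  obtain ⟨D, hD⟩ := Ideal.mem_span_singleton.1 hC₀
  have hYA : Y ^ q * A ∈ (Ideal.span {X 2, U}) ^ (2 * W + 1) := by
    have h3 : 2 * W + 1 = q + ρ := by omega
    rw [h3, pow_add]
    exact Ideal.mul_mem_mul (Ideal.pow_mem_pow hYmem _) hA
  obtain ⟨B₁, hB₁, C₁, hC₁, hsum3⟩ := Submodule.mem_sup.1 (pow_split W hYA)
  obtain ⟨B', hB', hB'e⟩ := Ideal.mem_span_singleton_mul.1 hB₁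
  obtain ⟨C', hC', hC'e⟩ := Ideal.mem_span_singleton_mul.1 hC₁
  set G₁ := Y ^ q * M₁ - X 2 ^ (W + 1) * (B' + Y ^ q * B) with hG₁
  have hG₁' : G₁ = Y ^ q * M₂ + U ^ (W + 1) * (C' + Y ^ q * D) := by
    rw [hG₁]
    rw [← hB'e, ← hC'e] at hsum3
    rw [← hsum2, hB, hD] at hsum
    linear_combination -hsum3 - Y ^ q * hsum
  have hI : (Ideal.span {Y ^ q} ⊔ Ideal.span {Y, X 2} ^ (2 * W + 1)).IsHomogeneous
      (homogeneousSubmodule (Fin 3) L) := by
    refine Ideal.IsHomogeneous.sup ?_ (hom_pow ?_ _)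
    · refine Ideal.homogeneous_span _ _ ?_
      intro y hy
      rw [Set.mem_singleton_iff] at hy
      subst hy
      exact ⟨1 * q, (mem_homogeneousSubmodule _ _).2 ((Yl_hom x).pow q)⟩
    · refine Ideal.homogeneous_span _ _ ?_
      intro y hy
      simp only [Set.mem_insert_iff, Set.mem_singleton_iff] at hy
      rcases hy with rfl | rfl
      · exact ⟨1, (mem_homogeneousSubmodule _ _).2 (Yl_hom x)⟩
      · exact ⟨1, (mem_homogeneousSubmodule _ _).2 (isHomogeneous_X _ _)⟩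
  have hG₁I : G₁ ∈ Ideal.span {Y ^ q} ⊔ Ideal.span {Y, X 2} ^ (2 * W + 1) := by
    have h3 : G₁ = Y ^ q * (M₁ - X 2 ^ (W + 1) * B) - X 2 ^ (W + 1) * B' := by
      rw [hG₁]
      ring
    rw [h3]
    refine Ideal.sub_mem _ (Ideal.mem_sup_left (Ideal.mul_mem_right _ _ (Ideal.subset_span rfl)))
      (Ideal.mem_sup_right ?_)
    have h4 : 2 * W + 1 = (W + 1) + W := by omega
    rw [h4, pow_add]
    exact Ideal.mul_mem_mul (Ideal.pow_mem_pow (Ideal.subset_span (by simp)) _)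
      (Ideal.pow_right_mono hle W hB')
  have hdeg : 1 * q + (2 * ρ - 1) = ρ + 2 * W := by omega
  have hYM₁ : (Y ^ q * M₁).IsHomogeneous (ρ + 2 * W) := by
    rw [← hdeg]
    exact ((Yl_hom x).pow q).mul hM₁
  have hYM₂ : (Y ^ q * M₂).IsHomogeneous (ρ + 2 * W) := by
    rw [← hdeg]
    exact ((Yl_hom x).pow q).mul hM₂
  set G₂ := homogeneousComponent (ρ + 2 * W) G₁ with hG₂
  have hXp : ((X 2 : MvPolynomial (Fin 3) L) ^ (W + 1)).IsHomogeneous (1 * (W + 1)) :=
    (isHomogeneous_X _ _).pow _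
  have hUp : (U ^ (W + 1)).IsHomogeneous (1 * (W + 1)) := (U2_hom x ε).pow _
  have hd1 : X 2 ^ (W + 1) ∣ G₂ - Y ^ q * M₁ := by
    have h3 : G₂ - Y ^ q * M₁ = homogeneousComponent (ρ + 2 * W) (G₁ - Y ^ q * M₁) := by
      rw [map_sub, homogeneousComponent_of_mem hYM₁, if_pos rfl]
    rw [h3]
    refine hom_dvd hXp ⟨-(B' + Y ^ q * B), ?_⟩ _
    rw [hG₁]
    ring
  have hd2 : U ^ (W + 1) ∣ G₂ - Y ^ q * M₂ := by
    have h3 : G₂ - Y ^ q * M₂ = homogeneousComponent (ρ + 2 * W) (G₁ - Y ^ q * M₂) := by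
      rw [map_sub, homogeneousComponent_of_mem hYM₂, if_pos rfl]
    rw [h3]
    refine hom_dvd hUp ⟨C' + Y ^ q * D, ?_⟩ _
    rw [hG₁']
    ring
  have hG₂I : G₂ ∈ Ideal.span {Y ^ q} ⊔ Ideal.span {Y, X 2} ^ (2 * W + 1) := hc_mem hI hG₁I _
  have hG₂h : G₂.IsHomogeneous (ρ + 2 * W) := homogeneousComponent_isHomogeneous _ _
  obtain ⟨R₁, Q₁, he1, hR₁, hQ₁, hs1⟩ := rem (0 : L) 0 (W + 1) (ρ + 2 * W) hG₂h
  have hQ₁h : Q₁.IsHomogeneous (ρ + 2 * W - (W + 1)) := by
    rcases hQ₁ with rfl | ⟨_, h3⟩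
    · exact isHomogeneous_zero _ _ _
    · exact h3
  obtain ⟨R₂, Q₂, he2, hR₂, hQ₂, hs2⟩ := rem (-ε) (ε * x) (W + 1) (ρ + 2 * W - (W + 1)) hQ₁h
  have hl1 : (C (0 : L) * X 0 + C 0 * X 1 + X 2 : MvPolynomial (Fin 3) L) = X 2 := by simp
  have hl2 : (C (-ε) * X 0 + C (ε * x) * X 1 + X 2 : MvPolynomial (Fin 3) L) = U := by
    rw [hUY, hY, Yl, C_neg, C_mul]
    ring
  rw [hl1] at he1
  rw [hl2] at he2
  have hG : R₁ + X 2 ^ (W + 1) * R₂ = G₂ - X 2 ^ (W + 1) * U ^ (W + 1) * Q₂ := by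
    rw [he1, he2]
    ring
  refine ⟨R₁ + X 2 ^ (W + 1) * R₂, ?_, ?_, ?_, ?_, ?_⟩
  · refine hR₁.add ?_
    have h3 := hXp.mul hR₂
    have h4 : 1 * (W + 1) + (ρ + 2 * W - (W + 1)) = ρ + 2 * W := by omega
    rwa [h4] at h3
  · intro m hm
    rcases Finset.mem_union.1 (support_add hm) with h3 | h3
    · have := hs1 m h3
      omega
    · rw [mem_support_iff, X_pow_eq_monomial, coeff_monomial_mul', ne_eq] at h3
      split_ifs at h3 with h4
      · rw [one_mul] at h3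
        have h5 := hs2 _ (mem_support_iff.2 h3)
        simp only [Finsupp.coe_tsub, Pi.sub_apply, Finsupp.single_eq_same] at h5
        omega
      · exact absurd rfl h3
  · rw [hG]
    have h3 : G₂ - X 2 ^ (W + 1) * U ^ (W + 1) * Q₂ - Y ^ q * M₁ =
        (G₂ - Y ^ q * M₁) - X 2 ^ (W + 1) * (U ^ (W + 1) * Q₂) := by ring
    rw [h3]
    exact dvd_sub hd1 (dvd_mul_right _ _)
  · rw [hG]
    have h3 : G₂ - X 2 ^ (W + 1) * U ^ (W + 1) * Q₂ - Y ^ q * M₂ =
        (G₂ - Y ^ q * M₂) - U ^ (W + 1) * (X 2 ^ (W + 1) * Q₂) := by ring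
    rw [h3]
    exact dvd_sub hd2 (dvd_mul_right _ _)
  · rw [hG]
    refine Ideal.sub_mem _ hG₂I (Ideal.mem_sup_right ?_)
    apply Ideal.mul_mem_right
    have h4 : 2 * W + 1 ≤ (W + 1) + (W + 1) := by omega
    refine Ideal.pow_le_pow_right h4 ?_
    rw [pow_add]
    refine Ideal.mul_mem_mul (Ideal.pow_mem_pow (Ideal.subset_span (by simp)) _)
      (Ideal.pow_mem_pow (hle (Ideal.subset_span (by simp))) _)

end Pool.Agent.SplB
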