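import Pool.Agent.SplB.Two
import Pool.Agent.SplB.Glue
import Pool.Agent.SplB.Defs

/-!
# SplB/Ch: the charts at the nodes (note 1939)

Ring homomorphisms `MvPolynomial (Fin 3) A → A[X][X]`, natural in the ring `A`; `p = C X` is the inner and `y = X` the outer variable.
PAPER PROOFS.  All are checked on monomials (`MvPolynomial.ringHom_ext`, `MvPolynomial.induction_on`): `X 0 ^ i X 1 ^ j X 2 ^ c` (`i + j + c = n`) goes to `p ^ i y ^ c` under `ch0`, to `(p + x) ^ i y ^ c`,
`(p + 1) ^ i y ^ c`, `p ^ j y ^ c` under `chY x`, `chE`, `chB`, and to `(p - y) ^ i y ^ c` under `chA`.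
-/

set_option linter.all false

namespace Pool.Agent.SplB

open Polynomial

variable {A : Type*} [CommRing A]

/-- the chart with the given images of `X 0, X 1, X 2` -/
noncomputable def ch (u v w : A[X][X]) : MvPolynomial (Fin 3) A →+* A[X][X] :=
  MvPolynomial.eval₂Hom ((C : A[X] →+* A[X][X]).comp (C : A →+* A[X])) ![u, v, w]

noncomputable def ch0 : MvPolynomial (Fin 3) A →+* A[X][X] := ch (C X) 1 X
noncomputable def chY (x : A) : MvPolynomial (Fin 3) A →+* A[X][X] := ch (C (X + C x)) 1 X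
noncomputable def chE : MvPolynomial (Fin 3) A →+* A[X][X] := ch (C (X + 1)) 1 X
noncomputable def chB : MvPolynomial (Fin 3) A →+* A[X][X] := ch 1 (C X) X
noncomputable def chA : MvPolynomial (Fin 3) A →+* A[X][X] := ch (C X - X) 1 X

theorem ch_eq (u v w : A[X][X]) (G : MvPolynomial (Fin 3) A) :
    ch u v w G = ∑ m ∈ G.support, C (C (G.coeff m)) * (u ^ (m 0) * v ^ (m 1) * w ^ (m 2)) := by
  unfold ch
  rw [MvPolynomial.coe_eval₂Hom, MvPolynomial.eval₂_eq']
  refine Finset.sum_congr rfl fun m _ => ?_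
  rw [Fin.prod_univ_three]
  rfl

theorem coeff_ch0_eq (G : MvPolynomial (Fin 3) A) (c : ℕ) :
    (ch0 G).coeff c = ∑ m ∈ G.support, if m 2 = c then C (G.coeff m) * X ^ (m 0) else 0 := by
  unfold ch0
  rw [ch_eq, Polynomial.finsetSum_coeff]
  refine Finset.sum_congr rfl fun m _ => ?_
  rw [one_pow, mul_one, ← C_pow, ← mul_assoc, ← C_mul, coeff_C_mul, coeff_X_pow]
  by_cases h : m 2 = c
  · rw [if_pos h.symm, if_pos h, mul_one]
  · rw [if_neg (fun h' => h h'.symm), if_neg h, mul_zero]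

theorem coeff_chB_eq (G : MvPolynomial (Fin 3) A) (c : ℕ) :
    (chB G).coeff c = ∑ m ∈ G.support, if m 2 = c then C (G.coeff m) * X ^ (m 1) else 0 := by
  unfold chB
  rw [ch_eq, Polynomial.finsetSum_coeff]
  refine Finset.sum_congr rfl fun m _ => ?_
  rw [one_pow, one_mul, ← C_pow, ← mul_assoc, ← C_mul, coeff_C_mul, coeff_X_pow]
  by_cases h : m 2 = c
  · rw [if_pos h.symm, if_pos h, mul_one]
  · rw [if_neg (fun h' => h h'.symm), if_neg h, mul_zero]

theorem coeff2_ch0 (G : MvPolynomial (Fin 3) A) (c i : ℕ) :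
    ((ch0 G).coeff c).coeff i = ∑ m ∈ G.support, if m 2 = c ∧ m 0 = i then G.coeff m else 0 := by
  rw [coeff_ch0_eq, Polynomial.finsetSum_coeff]
  refine Finset.sum_congr rfl fun m _ => ?_
  by_cases h : m 2 = c
  · rw [if_pos h, coeff_C_mul, coeff_X_pow]
    by_cases h' : m 0 = i
    · rw [if_pos h'.symm, if_pos ⟨h, h'⟩, mul_one]
    · rw [if_neg (fun q => h' q.symm), if_neg (fun q => h' q.2), mul_zero]
  · rw [if_neg h, if_neg (fun q => h q.1), coeff_zero]

theorem coeff2_chB (G : MvPolynomial (Fin 3) A) (c i : ℕ) :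
    ((chB G).coeff c).coeff i = ∑ m ∈ G.support, if m 2 = c ∧ m 1 = i then G.coeff m else 0 := by
  rw [coeff_chB_eq, Polynomial.finsetSum_coeff]
  refine Finset.sum_congr rfl fun m _ => ?_
  by_cases h : m 2 = c
  · rw [if_pos h, coeff_C_mul, coeff_X_pow]
    by_cases h' : m 1 = i
    · rw [if_pos h'.symm, if_pos ⟨h, h'⟩, mul_one]
    · rw [if_neg (fun q => h' q.symm), if_neg (fun q => h' q.2), mul_zero]
  · rw [if_neg h, if_neg (fun q => h q.1), coeff_zero]

theorem hom_deg {G : MvPolynomial (Fin 3) A} {n : ℕ} (hG : G.IsHomogeneous n) {m : Fin 3 →₀ ℕ}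
    (hm : G.coeff m ≠ 0) : m 0 + m 1 + m 2 = n := by
  have h := hG hm
  rw [Finsupp.weight_apply, Finsupp.sum_fintype _ _ (fun i => by simp)] at h
  rw [Fin.sum_univ_three] at h
  simpa using h

section

variable {B : Type*} [CommRing B] (φ : A →+* B)

theorem ch_map (u v w : A[X][X]) (G : MvPolynomial (Fin 3) A) :
    ch (mapRingHom (mapRingHom φ) u) (mapRingHom (mapRingHom φ) v) (mapRingHom (mapRingHom φ) w)
      (MvPolynomial.map φ G) = mapRingHom (mapRingHom φ) (ch u v w G) := by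
  induction G using MvPolynomial.induction_on with
  | C a => simp [ch]
  | add p q hp hq => rw [map_add, map_add, hp, hq, map_add, map_add]
  | mul_X p i hp =>
    rw [map_mul, map_mul, hp, map_mul, map_mul]
    congr 1
    rw [MvPolynomial.map_X]
    fin_cases i <;> simp [ch]

theorem ch0_map (G : MvPolynomial (Fin 3) A) :
    ch0 (MvPolynomial.map φ G) = mapRingHom (mapRingHom φ) (ch0 G) := by
  unfold ch0
  rw [← ch_map]
  simp

theorem chY_map (x : A) (G : MvPolynomial (Fin 3) A) :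
    chY (φ x) (MvPolynomial.map φ G) = mapRingHom (mapRingHom φ) (chY x G) := by
  unfold chY
  rw [← ch_map]
  simp

theorem chE_map (G : MvPolynomial (Fin 3) A) :
    chE (MvPolynomial.map φ G) = mapRingHom (mapRingHom φ) (chE G) := by
  unfold chE
  rw [← ch_map]
  simp

theorem chB_map (G : MvPolynomial (Fin 3) A) :
    chB (MvPolynomial.map φ G) = mapRingHom (mapRingHom φ) (chB G) := by
  unfold chB
  rw [← ch_map]
  simp

theorem chA_map (G : MvPolynomial (Fin 3) A) :
    chA (MvPolynomial.map φ G) = mapRingHom (mapRingHom φ) (chA G) := by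
  unfold chA
  rw [← ch_map]
  simp

end

theorem coeff_chY (x : A) (G : MvPolynomial (Fin 3) A) (c : ℕ) :
    (chY x G).coeff c = ((ch0 G).coeff c).comp (X + C x) := by
  have h : chY x G = (ch0 G).map (compRingHom (X + C x)) := by
    induction G using MvPolynomial.induction_on with
    | C a => simp [chY, ch0, ch]
    | add p q hp hq => rw [map_add, map_add, hp, hq, Polynomial.map_add]
    | mul_X p i hp =>
      rw [map_mul, map_mul, hp, Polynomial.map_mul]
      congr 1
      fin_cases i <;> simp [chY, ch0, ch]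
  rw [h, coeff_map]
  rfl

theorem coeff_chE (G : MvPolynomial (Fin 3) A) (c : ℕ) :
    (chE G).coeff c = ((ch0 G).coeff c).comp (X + 1) := by
  have h : chE G = chY 1 G := by
    unfold chE chY
    rw [C_1]
  rw [h, coeff_chY, C_1]

/-- homogeneity -/
theorem coeff_chB {G : MvPolynomial (Fin 3) A} {n : ℕ} (hG : G.IsHomogeneous n) {c i l : ℕ}
    (h : c + i + l = n) : ((chB G).coeff c).coeff l = ((ch0 G).coeff c).coeff i := by
  rw [coeff2_chB, coeff2_ch0]
  refine Finset.sum_congr rfl fun m hm => ?_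
  have h1 := hom_deg hG (MvPolynomial.mem_support_iff.1 hm)
  by_cases h2 : m 2 = c ∧ m 1 = l
  · rw [if_pos h2, if_pos ⟨h2.1, by omega⟩]
  · rw [if_neg h2, if_neg]
    rintro ⟨h3, h4⟩
    exact h2 ⟨h3, by omega⟩

theorem coeff_ch0_big {G : MvPolynomial (Fin 3) A} {n : ℕ} (hG : G.IsHomogeneous n) {c i : ℕ}
    (h : n < c + i) : ((ch0 G).coeff c).coeff i = 0 := by
  rw [coeff2_ch0]
  refine Finset.sum_eq_zero fun m hm => ?_
  have h1 := hom_deg hG (MvPolynomial.mem_support_iff.1 hm)
  rw [if_neg]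
  rintro ⟨h3, h4⟩
  omega

theorem chA_eq {G : MvPolynomial (Fin 3) A} {N : ℕ} (h : ∀ m ∈ G.support, m 2 < N) :
    chA G = ∑ c ∈ Finset.range N, X ^ c * ((ch0 G).coeff c).eval₂ (C.comp C) (C X - X) := by
  have h1 : ∀ c, ((ch0 G).coeff c).eval₂ ((C : A[X] →+* A[X][X]).comp (C : A →+* A[X]))
      (C X - X : A[X][X]) = ∑ m ∈ G.support, if m 2 = c then
        C (C (G.coeff m)) * (C X - X : A[X][X]) ^ (m 0) else 0 := by
    intro c
    rw [coeff_ch0_eq, eval₂_finset_sum]
    refine Finset.sum_congr rfl fun m _ => ?_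
    split_ifs
    · rw [eval₂_mul, eval₂_C, eval₂_X_pow]
      rfl
    · rw [eval₂_zero]
  unfold chA
  rw [ch_eq]
  simp_rw [h1, Finset.mul_sum]
  rw [Finset.sum_comm]
  refine Finset.sum_congr rfl fun m hm => ?_
  rw [Finset.sum_eq_single (m 2)]
  · rw [if_pos rfl, one_pow]
    ring
  · intro c _ hc
    rw [if_neg (fun q => hc q.symm), mul_zero]
  · intro hh
    exact absurd (Finset.mem_range.2 (h m hm)) hh

theorem degree_lt {u v : A[X]} {G : MvPolynomial (Fin 3) A} {N : ℕ} (h : ∀ m ∈ G.support, m 2 < N) :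
    (ch (C u) (C v) X G).degree < (N : ℕ) := by
  rw [degree_lt_iff_coeff_zero]
  intro k hk
  rw [ch_eq, Polynomial.finsetSum_coeff]
  refine Finset.sum_eq_zero fun m hm => ?_
  rw [← C_pow, ← C_pow, ← C_mul, ← mul_assoc, ← C_mul, coeff_C_mul, coeff_X_pow, if_neg, mul_zero]
  have := h m hm
  omega

theorem ch0_inj {G : MvPolynomial (Fin 3) A} {n : ℕ} (hG : G.IsHomogeneous n) (h : ch0 G = 0) :
    G = 0 := by
  ext m
  rw [MvPolynomial.coeff_zero]
  by_contra hm
  have h1 := hom_deg hG hm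
  have h2 : ((ch0 G).coeff (m 2)).coeff (m 0) = G.coeff m := by
    rw [coeff2_ch0, Finset.sum_eq_single m]
    · rw [if_pos ⟨rfl, rfl⟩]
    · intro m' hm' hne
      rw [if_neg]
      rintro ⟨h3, h4⟩
      have h5 := hom_deg hG (MvPolynomial.mem_support_iff.1 hm')
      apply hne
      ext i
      fin_cases i
      · exact h4
      · show m' 1 = m 1
        omega
      · exact h3
    · intro hh
      exact absurd (MvPolynomial.mem_support_iff.2 hm) hh
  rw [h] at h2
  simp at h2
  exact hm h2.symm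

end Pool.Agent.SplB
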