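import Pool.Agent.SplB.Ch

/-!
# SplB/LimA: the limit at the line `A` (see the header of `SplB/Lim`)
-/

set_option autoImplicit false

namespace Pool.Agent.SplB

open Polynomial

variable {K : Type*} [Field K]

theorem limA_mem {A : Type*} [CommRing A] {ρ T' T : ℕ} {f l l' : A[X][X]} (h : l ∣ l')
    (hf : f ∈ Ideal.span {l', C X} ^ ρ ⊔ (Ideal.span {l' ^ T} ⊔ Ideal.span {(C X) ^ T'})) :
    f ∈ nI ρ T' T l := by
  have h1 : Ideal.span {l', C X} ≤ Ideal.span {(C X : A[X][X]), l} := by
    rw [Ideal.span_le]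
    intro z hz
    simp only [Set.mem_insert_iff, Set.mem_singleton_iff] at hz
    rcases hz with rfl | rfl
    · exact Ideal.mem_of_dvd _ h (Ideal.subset_span (by simp))
    · exact Ideal.subset_span (by simp)
  have h2 : Ideal.span {l' ^ T} ≤ Ideal.span {l ^ T} :=
    Ideal.span_singleton_le_span_singleton.2 (pow_dvd_pow_of_dvd h T)
  have h3 : Ideal.span {l', C X} ^ ρ ⊔ (Ideal.span {l' ^ T} ⊔ Ideal.span {(C X) ^ T'})
      ≤ nI ρ T' T l := by
    unfold nI
    refine sup_le (le_sup_of_le_left (Ideal.pow_right_mono h1 ρ)) (sup_le ?_ ?_)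
    · exact le_sup_of_le_right (le_sup_of_le_right h2)
    · exact le_sup_of_le_right (le_sup_of_le_left le_rfl)
  exact h3 hf

theorem limA_J {A : Type*} [Field A] {ρ W : ℕ} {f u : MvPolynomial (Fin 3) A} {l : A[X][X]}
    (h : l ∣ chA u) (hf : f ∈ SplW.J ρ (W + 1) W u (MvPolynomial.X 2 + MvPolynomial.X 0)) :
    chA f ∈ nI ρ W (W + 1) l := by
  apply limA_mem h
  have h1 := Ideal.mem_map_of_mem chA hf
  have h2 : chA (MvPolynomial.X 2 + MvPolynomial.X 0 : MvPolynomial (Fin 3) A) = C X := by
    simp [chA, ch]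
  unfold SplW.J at h1
  rw [Ideal.map_sup, Ideal.map_sup, Ideal.map_pow, Ideal.map_span, Ideal.map_span, Ideal.map_span,
    Set.image_pair, Set.image_singleton, Set.image_singleton, map_pow, map_pow, h2] at h1
  exact h1

theorem limA_mO_lnA (a b : PowerSeries K) : mO K (lnA a b) = lnA (io K a) (io K b) := by
  simp [lnA]

/-- the substitution `p ↦ (1 + X) λ`, `y ↦ X λ` -/
noncomputable def limA_Psi (K : Type*) [Field K] : K[X][X] →+* K[X][X] :=
  eval₂RingHom (eval₂RingHom ((C : K[X] →+* K[X][X]).comp C) (C (1 + X) * X)) (C X * X)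

theorem limA_Psi_C (f : K[X]) : limA_Psi K (C f) =
    f.eval₂ ((C : K[X] →+* K[X][X]).comp C) (C (1 + X) * X) := by
  simp [limA_Psi]

theorem limA_Psi_X : limA_Psi K X = C X * X := by
  simp [limA_Psi]

theorem limA_Psi_sub : limA_Psi K (C X - X) = X := by
  rw [map_sub, limA_Psi_C, limA_Psi_X, eval₂_X, ← sub_mul, ← C_sub]
  simp

theorem limA_Psi_eval (f : K[X]) (u : K[X][X]) :
    limA_Psi K (f.eval₂ ((C : K[X] →+* K[X][X]).comp C) u) =
      f.eval₂ ((C : K[X] →+* K[X][X]).comp C) (limA_Psi K u) := by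
  rw [hom_eval₂]
  congr 1
  ext z
  simp [limA_Psi]

theorem limA_coeff_term (f : K[X]) (c d : ℕ) :
    (limA_Psi K (X ^ c * f.eval₂ ((C : K[X] →+* K[X][X]).comp C) (C X - X))).coeff d =
      if c ≤ d then C (f.coeff (d - c)) * X ^ c else 0 := by
  rw [map_mul, map_pow, limA_Psi_X, limA_Psi_eval, limA_Psi_sub, mul_pow, ← C_pow, mul_assoc,
    coeff_C_mul]
  have h1 : f.eval₂ ((C : K[X] →+* K[X][X]).comp C) X = f.map C := by
    rw [← eval₂_map, eval₂_C_X]
  rw [h1, coeff_X_pow_mul']
  split_ifs with h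
  · rw [coeff_map, mul_comm]
  · rw [mul_zero]

theorem limA_coeff_Psi (r : K[X][X]) (d : ℕ) : (limA_Psi K r).coeff d =
    ∑ c ∈ Finset.range (d + 1), C ((r.coeff c).coeff (d - c)) * (1 + X) ^ (d - c) * X ^ c := by
  have h0 : ∀ (l c : ℕ) (z : K), (limA_Psi K (C (C z * X ^ l) * X ^ c)).coeff d =
      if l + c = d then C z * (1 + X) ^ l * X ^ c else 0 := by
    intro l c z
    rw [map_mul, map_pow, limA_Psi_C, limA_Psi_X, eval₂_mul, eval₂_C, eval₂_pow, eval₂_X,
      mul_pow, mul_pow, ← C_pow, ← C_pow]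
    have h1 : (((C : K[X] →+* K[X][X]).comp C) z * (C ((1 + X) ^ l) * X ^ l)) *
        (C (X ^ c) * X ^ c) = C (C z * (1 + X) ^ l * X ^ c) * X ^ (l + c) := by
      simp only [RingHom.comp_apply, C_mul, pow_add]
      ring
    rw [h1, coeff_C_mul_X_pow]
    simp only [eq_comm]
  induction r using Polynomial.induction_on' with
  | add p q hp hq =>
    rw [map_add, coeff_add, hp, hq, ← Finset.sum_add_distrib]
    refine Finset.sum_congr rfl fun c _ => ?_
    rw [coeff_add, coeff_add, C_add]
    ring
  | monomial c u =>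
    induction u using Polynomial.induction_on' with
    | add p q hp hq =>
      rw [map_add, map_add, coeff_add, hp, hq, ← Finset.sum_add_distrib]
      refine Finset.sum_congr rfl fun c _ => ?_
      rw [coeff_add, coeff_add, C_add]
      ring
    | monomial l z =>
      rw [← C_mul_X_pow_eq_monomial, ← C_mul_X_pow_eq_monomial, h0]
      simp only [coeff_C_mul_X_pow]
      split_ifs with h
      · rw [Finset.sum_eq_single c]
        · rw [if_pos rfl, coeff_C_mul_X_pow, if_pos (by omega)]
          have : d - c = l := by omega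
          rw [this]
        · intro b _ hb
          rw [if_neg hb]
          simp
        · intro hc
          exact absurd (Finset.mem_range.2 (by omega)) hc
      · symm
        refine Finset.sum_eq_zero fun b hb => ?_
        rw [Finset.mem_range] at hb
        split_ifs with hbc
        · subst hbc
          rw [coeff_C_mul_X_pow, if_neg (by omega)]
          simp
        · simp

/-- (a): see `SplB/Lim`. -/
theorem lim_a {g W ρ : ℕ} (h1 : W + g = ρ) (h2 : ρ ≤ 3 * g) (h3 : 3 * g ≤ ρ + 2)
    (h4 : 2 ≤ ρ) {x : K} (hx0 : x ≠ 0) {Gh : MvPolynomial (Fin 3) (PowerSeries K)}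
    (hd : ∀ m ∈ Gh.support, m 2 < 2 * (W + 1))
    (hA1 : MvPolynomial.map (io K) Gh ∈ SplW.J ρ (W + 1) W (MvPolynomial.X 2)
      (MvPolynomial.X 2 + MvPolynomial.X 0))
    (hA2 : MvPolynomial.map (io K) Gh ∈ SplW.J ρ (W + 1) W
      (U2 (HahnSeries.C x) (HahnSeries.single 1 1)) (MvPolynomial.X 2 + MvPolynomial.X 0)) :
    InA g W ρ fun c => (ch0 (MvPolynomial.map PowerSeries.constantCoeff Gh)).coeff c := by
  classical
  set w : PowerSeries K := (1 + PowerSeries.X)⁻¹ with hw
  have hw1 : (1 + PowerSeries.X) * w = 1 := by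
    apply PowerSeries.mul_inv_cancel
    simp
  have hw0 : PowerSeries.constantCoeff w = 1 := by
    have := congrArg PowerSeries.constantCoeff hw1
    simpa using this
  set a : PowerSeries K := - PowerSeries.C x * w with ha
  set b : PowerSeries K := PowerSeries.X * w with hb
  have ioX : io K PowerSeries.X = HahnSeries.single 1 1 := by
    rw [LaurentSeries.coe_algebraMap, HahnSeries.ofPowerSeries_X]
  have ioC : io K (PowerSeries.C x) = HahnSeries.C x := by
    rw [LaurentSeries.coe_algebraMap, HahnSeries.ofPowerSeries_C]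
  have ha0 : PowerSeries.constantCoeff a ≠ 0 := by
    rw [ha, map_mul, map_neg, hw0]
    simpa using hx0
  -- the image of the second line
  have hU : chA (U2 (HahnSeries.C x) (HahnSeries.single 1 1)) =
      C (C (io K (1 + PowerSeries.X))) * lnA (io K (PowerSeries.X * a)) (io K b) := by
    have e1 : io K (1 + PowerSeries.X) * io K (PowerSeries.X * a) =
        - (HahnSeries.single 1 1 * HahnSeries.C x) := by
      rw [← map_mul, ← ioX, ← ioC, ← map_mul, ← map_neg]
      congr 1
      rw [ha]
      linear_combination (-(PowerSeries.X * PowerSeries.C x)) * hw1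
    have e2 : io K (1 + PowerSeries.X) * io K b = HahnSeries.single 1 1 := by
      rw [← map_mul, ← ioX]
      congr 1
      rw [hb]
      linear_combination PowerSeries.X * hw1
    have e3 : C (C (io K (1 + PowerSeries.X))) * lnA (io K (PowerSeries.X * a)) (io K b) =
        C (C (io K (1 + PowerSeries.X))) * X -
          C (C (io K (1 + PowerSeries.X) * io K (PowerSeries.X * a)) +
            C (io K (1 + PowerSeries.X) * io K b) * X) := by
      simp only [lnA, C_mul, C_add]
      ring
    rw [e3, e1, e2]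
    have e4 : io K (1 + PowerSeries.X) = 1 + HahnSeries.single 1 1 := by
      rw [map_add, map_one, ioX]
    rw [e4]
    simp only [chA, ch, U2, Yl, map_sub, map_mul, MvPolynomial.coe_eval₂Hom,
      MvPolynomial.eval₂_X, MvPolynomial.eval₂_C, RingHom.comp_apply, C_add, C_mul, C_neg, C_1]
    simp
    ring
  have hm1 : mO K (chA Gh) ∈ nI ρ W (W + 1) X := by
    rw [← chA_map]
    refine limA_J ?_ hA1
    simp [chA, ch]
  have hm2 : mO K (chA Gh) ∈ nI ρ W (W + 1) (lnA (io K (PowerSeries.X * a)) (io K b)) := by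
    rw [← chA_map]
    refine limA_J ?_ hA2
    rw [hU]
    exact dvd_mul_left _ _
  -- division
  set D : (PowerSeries K)[X][X] := X ^ (W + 1) * (lnA (PowerSeries.X * a) b) ^ (W + 1) with hD
  have hDm : D.Monic := (monic_X_pow (W + 1)).mul ((monic_X_sub_C _).pow (W + 1))
  have hDd : D.degree = ((2 * (W + 1) : ℕ) : WithBot ℕ) := by
    have hl : (lnA (PowerSeries.X * a) b).Monic := monic_X_sub_C _
    have hl1 : (lnA (PowerSeries.X * a) b).natDegree = 1 := natDegree_X_sub_C _
    rw [degree_eq_natDegree hDm.ne_zero, hD, Monic.natDegree_mul (monic_X_pow (W + 1))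
      (hl.pow (W + 1)), natDegree_X_pow, Monic.natDegree_pow hl, hl1]
    congr 1
    ring
  set q := chA Gh /ₘ D with hq
  set r := chA Gh %ₘ D with hr
  have hqr : chA Gh = r + D * q := (modByMonic_add_div (chA Gh) D).symm
  have hrd : r.degree < (2 * (W + 1) : ℕ) := by
    rw [← hDd]
    exact degree_modByMonic_lt _ hDm
  have hmD : mO K D = X ^ (W + 1) * (lnA (io K (PowerSeries.X * a)) (io K b)) ^ (W + 1) := by
    rw [hD, map_mul, map_pow, map_pow, limA_mO_lnA]
    simp
  have hmr : mO K r = mO K (chA Gh) - mO K D * mO K q := by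
    rw [hqr, map_add, map_mul]
    ring
  have hr1 : mO K r ∈ nI ρ W (W + 1) X := by
    rw [hmr]
    refine Ideal.sub_mem _ hm1 ?_
    refine Ideal.mem_sup_right (Ideal.mem_sup_right (Ideal.mem_span_singleton.2 ?_))
    rw [hmD, mul_assoc]
    exact dvd_mul_right _ _
  have hr2 : mO K r ∈ nI ρ W (W + 1) (lnA (io K (PowerSeries.X * a)) (io K b)) := by
    rw [hmr]
    refine Ideal.sub_mem _ hm2 ?_
    refine Ideal.mem_sup_right (Ideal.mem_sup_right (Ideal.mem_span_singleton.2 ?_))
    rw [hmD, mul_comm (X ^ (W + 1)), mul_assoc]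
    exact dvd_mul_right _ _
  have hz : ∀ l c, l < W → c < 2 * min (ρ - l) (W + 1) →
      PowerSeries.constantCoeff ((r.coeff c).coeff l) = 0 := fun l c hl hc =>
    two (W := 0) (by omega) ha0 hrd (Z := 0) (by simp)
      (by have := hr1; rwa [← sub_zero (mO K r)] at this)
      (by have := hr2; rwa [← sub_zero (mO K r)] at this) hl (Nat.zero_le _) hc
  -- reduction modulo ε
  set κ : (PowerSeries K)[X][X] →+* K[X][X] :=
    mapRingHom (mapRingHom (PowerSeries.constantCoeff (R := K))) with hκ
  have hκD : κ D = X ^ (2 * (W + 1)) := by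
    have : κ (lnA (PowerSeries.X * a) b) = X := by
      simp [hκ, lnA, hb]
    have hX : κ X = X := by simp [hκ]
    rw [hD, map_mul, map_pow, map_pow, this, hX, ← pow_add, ← two_mul]
  have hF : chA (MvPolynomial.map (PowerSeries.constantCoeff (R := K)) Gh) =
      κ r + X ^ (2 * (W + 1)) * κ q := by
    rw [chA_map, hqr, ← hκ, map_add, map_mul, hκD]
  have hdeg : ∀ m ∈ (MvPolynomial.map (PowerSeries.constantCoeff (R := K)) Gh).support,
      m 2 < 2 * (W + 1) := fun m hm => hd m (MvPolynomial.support_map_subset _ _ hm)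
  intro d
  have hth : (limA_Psi K (chA (MvPolynomial.map (PowerSeries.constantCoeff (R := K)) Gh))).coeff d
      = th (2 * (W + 1)) (fun c =>
        (ch0 (MvPolynomial.map PowerSeries.constantCoeff Gh)).coeff c) d := by
    rw [chA_eq hdeg, map_sum, finsetSum_coeff, th]
    exact Finset.sum_congr rfl fun c _ => limA_coeff_term _ c d
  have hr0 : ∀ c l, ((κ r).coeff c).coeff l = PowerSeries.constantCoeff ((r.coeff c).coeff l) := by
    intro c l
    simp [hκ]
  have hvan : ∀ c ≤ d, d - c < n0 g W ρ d → ((κ r).coeff c).coeff (d - c) = 0 := by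
    intro c hc hn
    rw [hr0]
    by_cases hcT : c < 2 * (W + 1)
    · apply hz
      · unfold n0 at hn
        omega
      · unfold n0 at hn
        omega
    · rw [coeff_eq_zero_of_degree_lt (lt_of_lt_of_le hrd (by exact_mod_cast not_lt.1 hcT))]
      simp
  refine ⟨∑ c ∈ Finset.range (d + 1), if n0 g W ρ d ≤ d - c then
    C (((κ r).coeff c).coeff (d - c)) * (1 + X) ^ (d - c - n0 g W ρ d) * X ^ c else 0, ?_, ?_⟩
  · intro j hj
    rw [finsetSum_coeff]
    refine Finset.sum_eq_zero fun c hc => ?_
    rw [Finset.mem_range] at hc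
    split_ifs with h
    · apply coeff_eq_zero_of_natDegree_lt
      have h5 : (1 + X : K[X]).natDegree ≤ 1 := by
        refine (natDegree_add_le _ _).trans ?_
        simp
      have h6 : (C (((κ r).coeff c).coeff (d - c)) * (1 + X) ^ (d - c - n0 g W ρ d)).natDegree
          ≤ d - c - n0 g W ρ d := by
        refine (natDegree_C_mul_le _ _).trans ?_
        refine natDegree_pow_le.trans ?_
        calc (d - c - n0 g W ρ d) * (1 + X : K[X]).natDegree
            ≤ (d - c - n0 g W ρ d) * 1 := Nat.mul_le_mul_left _ h5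
          _ = _ := mul_one _
      have h7 := natDegree_mul_le (p := C (((κ r).coeff c).coeff (d - c)) *
        (1 + X) ^ (d - c - n0 g W ρ d)) (q := (X ^ c : K[X]))
      rw [natDegree_X_pow] at h7
      omega
    · simp
  · have h8 : (limA_Psi K (κ r)).coeff d = (1 + X) ^ n0 g W ρ d *
        ∑ c ∈ Finset.range (d + 1), (if n0 g W ρ d ≤ d - c then
          C (((κ r).coeff c).coeff (d - c)) * (1 + X) ^ (d - c - n0 g W ρ d) * X ^ c else 0) := by
      rw [limA_coeff_Psi, Finset.mul_sum]
      refine Finset.sum_congr rfl fun c hc => ?_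
      rw [Finset.mem_range] at hc
      split_ifs with h
      · have : d - c = n0 g W ρ d + (d - c - n0 g W ρ d) := by omega
        conv_lhs => rw [show (1 + X : K[X]) ^ (d - c) =
          (1 + X) ^ n0 g W ρ d * (1 + X) ^ (d - c - n0 g W ρ d) by rw [← pow_add, ← this]]
        ring
      · rw [hvan c (by omega) (by omega)]
        simp
    rw [← h8, ← hth, hF, map_add, coeff_add, add_sub_cancel_left, map_mul, map_pow, limA_Psi_X,
      mul_pow, ← C_pow, mul_assoc, coeff_C_mul]
    exact dvd_mul_right _ _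

end Pool.Agent.SplB
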