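import Pool.Agent.SplB.Ch

/-!
# SplB/LimB: the limit at the node at infinity (see the header of `SplB/Lim`)
-/

set_option autoImplicit false

namespace Pool.Agent.SplB

open Polynomial

variable {K : Type*} [Field K]

theorem chB_X0 {A : Type*} [CommRing A] : (chB (MvPolynomial.X 0) : A[X][X]) = 1 := by
  simp [chB, ch]

theorem chB_X1 {A : Type*} [CommRing A] : (chB (MvPolynomial.X 1) : A[X][X]) = C X := by
  simp [chB, ch]

theorem chB_X2 {A : Type*} [CommRing A] : (chB (MvPolynomial.X 2) : A[X][X]) = X := by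
  simp [chB, ch]

theorem chB_C {A : Type*} [CommRing A] (a : A) :
    (chB (MvPolynomial.C a) : A[X][X]) = C (C a) := by
  simp [chB, ch]

theorem chB_deg {A : Type*} [CommRing A] {G : MvPolynomial (Fin 3) A} {N : ℕ}
    (h : ∀ m ∈ G.support, m 2 < N) : (chB G).degree < (N : ℕ) := by
  have h1 := degree_lt (u := 1) (v := X) h
  rw [C_1] at h1
  exact h1

theorem chB_J {L : Type*} [Field L] {ρ a b : ℕ} {x y F : MvPolynomial (Fin 3) L}
    (h : F ∈ SplW.J ρ a b x y) : chB F ∈ Ideal.span {chB x, chB y} ^ ρ ⊔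
      (Ideal.span {chB x ^ a} ⊔ Ideal.span {chB y ^ b}) := by
  have h1 := Ideal.mem_map_of_mem (chB : MvPolynomial (Fin 3) L →+* L[X][X]) h
  unfold SplW.J at h1
  rw [Ideal.map_sup, Ideal.map_sup, Ideal.map_pow, Ideal.map_span, Ideal.map_span, Ideal.map_span,
    Set.image_pair, Set.image_singleton, Set.image_singleton, map_pow, map_pow] at h1
  exact h1

theorem chB_J1 {L : Type*} [Field L] {ρ a b : ℕ} {y F : MvPolynomial (Fin 3) L}
    (h : F ∈ SplW.J ρ a b (MvPolynomial.X 1) y) : chB F ∈ nI ρ a b (chB y) := by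
  have h1 := chB_J h
  rw [chB_X1] at h1
  exact h1

theorem chB_J2 {L : Type*} [Field L] {ρ a b : ℕ} {y F : MvPolynomial (Fin 3) L}
    (h : F ∈ SplW.J ρ a b y (MvPolynomial.X 1)) : chB F ∈ nI ρ b a (chB y) := by
  have h1 := chB_J h
  rw [chB_X1] at h1
  unfold nI
  rw [Set.pair_comm, sup_comm (Ideal.span {(C X : L[X][X]) ^ b})]
  exact h1

/-- (b): see `SplB/Lim`. -/
theorem lim_b [CharZero K] {g W ρ : ℕ} (h1 : W + g = ρ) (h2 : ρ ≤ 3 * g) (h3 : 3 * g ≤ ρ + 2)
    (h4 : 2 ≤ ρ) {x : K} {Gh : MvPolynomial (Fin 3) (PowerSeries K)}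
    {Z3 : MvPolynomial (Fin 3) (LaurentSeries K)} (hh : Gh.IsHomogeneous (ρ + 2 * W))
    (hd : ∀ m ∈ Gh.support, m 2 < 2 * (W + 1)) (hZ3d : ∀ m ∈ Z3.support, m 2 < W)
    (hB1 : MvPolynomial.map (io K) Gh ∈ SplW.J ρ (W + 1) (W + 1) (MvPolynomial.X 2)
      (MvPolynomial.X 1))
    (hB2 : MvPolynomial.map (io K) Gh - Z3 ∈ SplW.J ρ (W + 1) (W + 1)
      (U2 (HahnSeries.C x) (HahnSeries.single 1 1)) (MvPolynomial.X 1))
    (hZ3 : Z3 ∈ SplW.J ρ (W + 1) W (MvPolynomial.X 1) (MvPolynomial.X 2 + MvPolynomial.X 0))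
    (c : ℕ) (hc : c < 2 * (W + 1)) (i : ℕ) (hi : ρ + 2 * W < c + i + be W ρ c) :
    ((ch0 (MvPolynomial.map PowerSeries.constantCoeff Gh)).coeff c).coeff i = 0 := by
  have hW0 : W < ρ := by omega
  have hW1 : W ≤ 2 * (ρ - W) := by omega
  have hX : (HahnSeries.single 1 1 : LaurentSeries K) = io K (PowerSeries.X * 1) := by
    rw [mul_one]
    change _ = algebraMap (PowerSeries K) (LaurentSeries K) PowerSeries.X
    rw [LaurentSeries.coe_algebraMap]
    exact HahnSeries.ofPowerSeries_X.symm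
  have hCx : (HahnSeries.C x : LaurentSeries K) = io K (PowerSeries.C x) := by
    change _ = algebraMap (PowerSeries K) (LaurentSeries K) (PowerSeries.C x)
    rw [LaurentSeries.coe_algebraMap]
    exact (HahnSeries.ofPowerSeries_C x).symm
  have hU : chB (U2 (HahnSeries.C x : LaurentSeries K) (HahnSeries.single 1 1)) =
      lnA (io K (PowerSeries.X * 1)) (io K (-(PowerSeries.X * 1) * PowerSeries.C x)) := by
    rw [← hX, map_mul, map_neg, ← hX, ← hCx]
    simp only [U2, Yl, lnA, map_sub, map_mul, chB_X0, chB_X1, chB_X2, chB_C, map_add, map_neg]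
    ring
  have hV : chB (MvPolynomial.X 2 + MvPolynomial.X 0 : MvPolynomial (Fin 3) (LaurentSeries K)) =
      lnA (-1) 0 := by
    simp only [lnA, map_add, chB_X0, chB_X2, map_neg, map_one, map_zero, zero_mul, add_zero]
    ring
  have hm : mO K (chB Gh) = chB (MvPolynomial.map (io K) Gh) := (chB_map (io K) Gh).symm
  have key := fun l' c' : ℕ => two_pade (K := K) (l := l') (c := c') (ρ := ρ) (W := W) hW0 hW1 (a := 1)
    (b := -(PowerSeries.X * 1) * PowerSeries.C x) (by rw [map_one]; exact one_ne_zero)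
    (f := chB Gh) (Z := chB Z3) (chB_deg hd) (chB_deg hZ3d)
    (by
      intro l hl
      have h5 := chB_J1 hZ3
      rw [hV] at h5
      have h6 := lv_mem h5 (l := l) (by omega)
      rw [map_neg, map_one, sub_neg_eq_add] at h6
      exact h6)
    (by
      rw [hm]
      have h5 := chB_J2 hB1
      rw [chB_X2] at h5
      exact h5)
    (by
      have h5 := chB_J2 hB2
      rw [hU, map_sub] at h5
      rw [hm]
      exact h5)
  have hh0 : (MvPolynomial.map PowerSeries.constantCoeff Gh :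
      MvPolynomial (Fin 3) K).IsHomogeneous (ρ + 2 * W) := hh.map _
  rcases Nat.lt_or_ge (ρ + 2 * W) (c + i) with hci | hci
  · exact coeff_ch0_big hh0 hci
  · have hbe : ρ + 2 * W - c - i < be W ρ c := by omega
    unfold be at hbe
    have hb1 : ρ + 2 * W - c - i < W + 1 := lt_of_lt_of_le hbe (min_le_left _ _)
    have hb2 : ρ + 2 * W - c - i < ρ - (c + W) / 3 := lt_of_lt_of_le hbe (min_le_right _ _)
    rw [← coeff_chB hh0 (c := c) (i := i) (l := ρ + 2 * W - c - i) (by omega)]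
    have h7 := key (ρ + 2 * W - c - i) c (by omega) hc (by omega)
    rw [chB_map]
    simp only [coe_mapRingHom, coeff_map]
    exact h7

end Pool.Agent.SplB
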