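import Mathlib

/-!
# SplB/Sc: scaling a finite family of Laurent series

PAPER PROOF.  Let `n` be the minimum of the orders of the non zero `v i`, `i ∈ s`; `l = single (-n) 1`; `w i` = the power series `l * v i`
(a Laurent series whose coefficients of negative index vanish comes from a power series, e.g. `LaurentSeries.powerSeriesPart`,
`HahnSeries.ofPowerSeries`), and the constant coefficient of `w i` is not zero for the `i` where the minimum is attained.
-/

set_option autoImplicit false

namespace Pool.Agent.SplB

theorem sc {K : Type*} [Field K] {ι : Type*} (s : Finset ι) (v : ι → LaurentSeries K)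
    (h : ∃ i ∈ s, v i ≠ 0) :
    ∃ (l : LaurentSeries K) (w : ι → PowerSeries K), l ≠ 0 ∧
      (∀ i ∈ s, algebraMap (PowerSeries K) (LaurentSeries K) (w i) = l * v i) ∧
      ∃ i ∈ s, PowerSeries.constantCoeff (w i) ≠ 0 := by
  classical
  obtain ⟨i1, hi1, hv1⟩ := h
  obtain ⟨i0, hi0, hmin⟩ := (s.filter fun i => v i ≠ 0).exists_min_image
    (fun i => (v i).order) ⟨i1, Finset.mem_filter.2 ⟨hi1, hv1⟩⟩
  obtain ⟨hi0s, hv0⟩ := Finset.mem_filter.1 hi0
  have hco : ∀ (i : ι) (m : ℤ), ((HahnSeries.single (-(v i0).order) (1 : K) : LaurentSeries K)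
      * v i).coeff m = (v i).coeff (m + (v i0).order) := by
    intro i m
    have h1 := HahnSeries.coeff_single_mul_add (r := (1 : K)) (x := v i)
      (a := m + (v i0).order) (b := -(v i0).order)
    rw [add_neg_cancel_right, one_mul] at h1
    exact h1
  refine ⟨HahnSeries.single (-(v i0).order) 1, fun i => PowerSeries.mk fun k =>
    ((HahnSeries.single (-(v i0).order) (1 : K) : LaurentSeries K) * v i).coeff (k : ℤ),
    ?_, ?_, i0, hi0s, ?_⟩
  · exact HahnSeries.single_ne_zero one_ne_zero
  · intro i hi
    ext m
    rw [LaurentSeries.coe_algebraMap]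
    have h1 := PowerSeries.coeff_coe (PowerSeries.mk fun k : ℕ =>
      ((HahnSeries.single (-(v i0).order) (1 : K) : LaurentSeries K) * v i).coeff (k : ℤ)) m
    rw [h1]
    split_ifs with hm
    · rw [hco]
      by_cases hvi : v i = 0
      · rw [hvi, HahnSeries.coeff_zero]
      · symm
        apply HahnSeries.coeff_eq_zero_of_lt_order
        have := hmin i (Finset.mem_filter.2 ⟨hi, hvi⟩)
        omega
    · rw [PowerSeries.coeff_mk]
      congr 1
      omega
  · rw [← PowerSeries.coeff_zero_eq_constantCoeff_apply, PowerSeries.coeff_mk, hco,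
      Nat.cast_zero, zero_add]
    exact fun h0 => hv0 (HahnSeries.coeff_order_eq_zero.1 h0)

end Pool.Agent.SplB
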