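import Pool.Agent.SplB.LimY
import Pool.Agent.SplB.LimB
import Pool.Agent.SplB.LimA
import Pool.Agent.SplB.Sc

/-!
# SplB/Lim: the limit `ε → 0` (note 1939, Steps 1 and 2)

`K` a field of characteristic `0`, `L = K((ε))`, `x ∈ K`, `x ≠ 0, 1`.  Coordinates `X 0 = s`, `X 1 = z`, `X 2 = U`; the line `A` is `X 2 + X 0`, the line of `e` is `X 0 - X 1`, the lines of
`B` and of `w₃` are `X 1`.  `T = W + 1`, `n = ρ + 2 W`.
PAPER PROOF.  Charts (ring homomorphisms `MvPolynomial (Fin 3) A → A[X][X]`, `p = C X` the inner, `y = X` the outer variable, natural in `A`):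
`ch0 : (p, 1, y)`, `chY : (p + x, 1, y)`, `chE : (p + 1, 1, y)`, `chB : (1, p, y)`, `chA : (p - y, 1, y)` (the images of `X 0, X 1, X 2`).
Scale: by `sc`, applied to the coefficients of `G`, we may assume that `G = map (io K) Gh`, `Gh ∈ MvPolynomial (Fin 3) K[[ε]]` and `G₀ := map constantCoeff Gh ≠ 0` (multiply `G`, `Z3`, `Ze` by the same
constant).  `G₀` is homogeneous of degree `n`, `m 2 < 2 T` on its support.  Put `f c := (ch0 G₀).coeff c ∈ K[X]`; not all `f c`, `c < 2 T`, vanish (`G₀` is homogeneous, so it is determined by `ch0 G₀`).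
(y) `chY`: the ideal `(Y ^ q) + (Y, X 2) ^ (2 W + 1)` goes to `(p ^ q) + (p, y) ^ (2 W + 1)`, so the coefficient of `p ^ l y ^ c` in `chY G`, hence in `chY Gh` and in `chY G₀`, vanishes for
`l < q`, `l + c < 2 W + 1`; `(chY G₀).coeff c = (f c).comp (X + C x)`, so `(X - C x) ^ (q - (c - ρ)) ∣ f c` (`q = 2 W + 1 - ρ`).
(e) `chE (U2 x ε) = y - ε (p + 1 - x)` = `lnA (ε (1 - x)) ε`; `two` with `T' = T`, `a = 1 - x`, `b = ε`, `Z = chE Ze` (degree `< W` in `y`) gives: the coefficient of `p ^ l y ^ c`, `l < T`,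
`W ≤ c < 2 min (ρ - l) T`, of `chE G₀` is `0`; `(chE G₀).coeff c = (f c).comp (X + 1)`; `l < ρ - c / 2` iff `c < 2 (ρ - l)`; `ρ - c / 2 ≤ T` for `c ≥ W`.
(b) `chB (U2 x ε) = y - ε (1 - x p)` = `lnA ε (- ε x)`, `chB (X 2 + X 0) = y + 1`; `chB Z3 ∈ nI ρ (W + 1) W (lnA (-1) 0)`, so `(X + 1) ^ min (ρ - l) W ∣ lv l (chB Z3)` for `l ≤ W` (`lv_mem`); `two_pade` with `a = 1`:
the coefficient of `p ^ l y ^ c` of `chB G₀` vanishes for `l ≤ W` and (`W < ρ - l` or `c < 3 (ρ - l) - W`); it is `(f c).coeff (n - c - l)` (homogeneity), and `l < be c` implies this condition.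
(a) `chA (U2 x ε) = (1 + ε) y - ε p + ε x = (1 + ε) (y - ε a - b p)`, `a = - x / (1 + ε)`, `b = ε / (1 + ε)`; `chA (X 2 + X 0) = p`.  Let `r` be the remainder of `chA Gh` modulo the monic polynomial
`y ^ T (y - ε a - b p) ^ T` over `K[[ε]][p]`.  `two` with `T' = W`, `W = 0`, `Z = 0` for `f = r`: `r₀ := r mod ε` has coefficient `0` at `p ^ l y ^ c` for `l < W`, `c < 2 min (ρ - l) T`, and for `c ≥ 2 T`;
`y ^ (2 T) ∣ chA G₀ - r₀`.  Apply the ring homomorphism `Ψ : K[p][y] → K[X][λ]`, `p ↦ (1 + X) λ`, `y ↦ X λ` (so `p - y ↦ λ`) and take the coefficient of `λ ^ d`: `Ψ (chA G₀) = ∑_c X ^ c λ ^ c f_c(λ)` gives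
`th (2 T) f d`; `r₀` gives `∑_{l + c = d} r₀(l, c) (1 + X) ^ l X ^ c`, where only `l ≥ n0 d` occur (`l ≥ ρ - W ≥ g`: for `l < g` one has `ρ - l ≥ T`; for `g ≤ l < W` `c ≥ 2 (ρ - l)` means `l ≥ 2 ρ - d`), so it is
`(1 + X) ^ n0 d * α`, `deg α ≤ d - n0 d`; the rest is divisible by `X ^ (2 T)`.
-/

set_option autoImplicit false

namespace Pool.Agent.SplB

open MvPolynomial

/-- scaling to integral coefficients -/
private theorem lim_scale {K : Type*} [Field K] {G : MvPolynomial (Fin 3) (LaurentSeries K)}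
    (hG : G ≠ 0) :
    ∃ (l : LaurentSeries K) (Gh : MvPolynomial (Fin 3) (PowerSeries K)), l ≠ 0 ∧
      MvPolynomial.map (io K) Gh = C l * G ∧ Gh.support ⊆ G.support ∧
      MvPolynomial.map PowerSeries.constantCoeff Gh ≠ 0 := by
  classical
  obtain ⟨m1, hm1⟩ := MvPolynomial.support_nonempty.2 hG
  obtain ⟨l, w, hl, hw, m0, hm0, hm0'⟩ := sc G.support (fun m => coeff m G)
    ⟨m1, hm1, MvPolynomial.mem_support_iff.1 hm1⟩
  have hc : ∀ m, coeff m (∑ m ∈ G.support, monomial m (w m)) =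
      if m ∈ G.support then w m else 0 := by
    intro m
    rw [coeff_sum]
    simp only [coeff_monomial]
    rw [Finset.sum_ite_eq']
  refine ⟨l, ∑ m ∈ G.support, monomial m (w m), hl, ?_, ?_, ?_⟩
  · ext1 m
    rw [coeff_map, hc, coeff_C_mul]
    by_cases hm : m ∈ G.support
    · rw [if_pos hm]
      exact hw m hm
    · rw [if_neg hm, map_zero, MvPolynomial.notMem_support_iff.1 hm, mul_zero]
  · intro m hm
    rw [MvPolynomial.mem_support_iff, hc] at hm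
    by_contra h
    exact hm (if_neg h)
  · intro h
    have h1 := congrArg (coeff m0) h
    rw [coeff_map, hc, if_pos hm0, coeff_zero] at h1
    exact hm0' h1

private theorem lim_hom {A B : Type*} [CommRing A] [CommRing B] {G : MvPolynomial (Fin 3) A}
    {H : MvPolynomial (Fin 3) B} {n : ℕ} (hG : G.IsHomogeneous n) (h : H.support ⊆ G.support) :
    H.IsHomogeneous n := by
  intro m hm
  exact hG (MvPolynomial.mem_support_iff.1 (h (MvPolynomial.mem_support_iff.2 hm)))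

private theorem lim_supp {A : Type*} [CommRing A] (l : A) (G : MvPolynomial (Fin 3) A) :
    (C l * G).support ⊆ G.support := by
  intro m hm
  rw [MvPolynomial.mem_support_iff, coeff_C_mul] at hm
  exact MvPolynomial.mem_support_iff.2 (right_ne_zero_of_mul hm)

private theorem lim_supp_map {A B : Type*} [CommRing A] [CommRing B] (φ : A →+* B)
    (G : MvPolynomial (Fin 3) A) : (MvPolynomial.map φ G).support ⊆ G.support := by
  intro m hm
  rw [MvPolynomial.mem_support_iff, coeff_map] at hm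
  rw [MvPolynomial.mem_support_iff]
  intro h
  rw [h, map_zero] at hm
  exact hm rfl

theorem lim {K : Type*} [Field K] [CharZero K] {g W ρ : ℕ} (h1 : W + g = ρ) (h2 : ρ ≤ 3 * g)
    (h3 : 3 * g ≤ ρ + 2) (h4 : 2 ≤ ρ) {x : K} (hx0 : x ≠ 0) (hx1 : x ≠ 1)
    {G Z3 Ze : MvPolynomial (Fin 3) (LaurentSeries K)} (hG : G ≠ 0)
    (hh : G.IsHomogeneous (ρ + 2 * W)) (hd : ∀ m ∈ G.support, m 2 < 2 * (W + 1))
    (hY : G ∈ Ideal.span {Yl (HahnSeries.C x) ^ (2 * W + 1 - ρ)} ⊔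
      Ideal.span {Yl (HahnSeries.C x), X 2} ^ (2 * W + 1))
    (hA1 : G ∈ SplW.J ρ (W + 1) W (X 2) (X 2 + X 0))
    (hA2 : G ∈ SplW.J ρ (W + 1) W (U2 (HahnSeries.C x) (HahnSeries.single 1 1)) (X 2 + X 0))
    (hB1 : G ∈ SplW.J ρ (W + 1) (W + 1) (X 2) (X 1))
    (hB2 : G - Z3 ∈ SplW.J ρ (W + 1) (W + 1) (U2 (HahnSeries.C x) (HahnSeries.single 1 1)) (X 1))
    (hZ3 : Z3 ∈ SplW.J ρ (W + 1) W (X 1) (X 2 + X 0)) (hZ3d : ∀ m ∈ Z3.support, m 2 < W)
    (hE1 : G - Ze ∈ SplW.J ρ (W + 1) (W + 1) (X 2) (X 0 - X 1))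
    (hE2 : G - Ze ∈ SplW.J ρ (W + 1) (W + 1) (U2 (HahnSeries.C x) (HahnSeries.single 1 1))
      (X 0 - X 1)) (hZed : ∀ m ∈ Ze.support, m 2 < W) :
    ∃ f : ℕ → Polynomial K, Sys g W ρ x f ∧ ∃ c < 2 * (W + 1), f c ≠ 0 := by
  obtain ⟨l, Gh, hl, hmap, hsub, hne⟩ := lim_scale hG
  have hh' : Gh.IsHomogeneous (ρ + 2 * W) := lim_hom hh hsub
  have hd' : ∀ m ∈ Gh.support, m 2 < 2 * (W + 1) := fun m hm => hd m (hsub hm)
  have hh0 : (MvPolynomial.map PowerSeries.constantCoeff Gh).IsHomogeneous (ρ + 2 * W) :=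
    lim_hom hh' (lim_supp_map _ Gh)
  have hd0 : ∀ m ∈ (MvPolynomial.map PowerSeries.constantCoeff Gh).support, m 2 < 2 * (W + 1) :=
    fun m hm => hd' m (lim_supp_map _ Gh hm)
  have hY' : MvPolynomial.map (io K) Gh ∈ Ideal.span {Yl (HahnSeries.C x) ^ (2 * W + 1 - ρ)} ⊔
      Ideal.span {Yl (HahnSeries.C x), X 2} ^ (2 * W + 1) := by
    rw [hmap]
    exact Ideal.mul_mem_left _ _ hY
  have hA1' : MvPolynomial.map (io K) Gh ∈ SplW.J ρ (W + 1) W (X 2) (X 2 + X 0) := by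
    rw [hmap]
    exact Ideal.mul_mem_left _ _ hA1
  have hA2' : MvPolynomial.map (io K) Gh ∈ SplW.J ρ (W + 1) W
      (U2 (HahnSeries.C x) (HahnSeries.single 1 1)) (X 2 + X 0) := by
    rw [hmap]
    exact Ideal.mul_mem_left _ _ hA2
  have hB1' : MvPolynomial.map (io K) Gh ∈ SplW.J ρ (W + 1) (W + 1) (X 2) (X 1) := by
    rw [hmap]
    exact Ideal.mul_mem_left _ _ hB1
  have hB2' : MvPolynomial.map (io K) Gh - C l * Z3 ∈ SplW.J ρ (W + 1) (W + 1)
      (U2 (HahnSeries.C x) (HahnSeries.single 1 1)) (X 1) := by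
    rw [hmap, ← mul_sub]
    exact Ideal.mul_mem_left _ _ hB2
  have hZ3' : C l * Z3 ∈ SplW.J ρ (W + 1) W (X 1) (X 2 + X 0) := Ideal.mul_mem_left _ _ hZ3
  have hE1' : MvPolynomial.map (io K) Gh - C l * Ze ∈ SplW.J ρ (W + 1) (W + 1) (X 2)
      (X 0 - X 1) := by
    rw [hmap, ← mul_sub]
    exact Ideal.mul_mem_left _ _ hE1
  have hE2' : MvPolynomial.map (io K) Gh - C l * Ze ∈ SplW.J ρ (W + 1) (W + 1)
      (U2 (HahnSeries.C x) (HahnSeries.single 1 1)) (X 0 - X 1) := by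
    rw [hmap, ← mul_sub]
    exact Ideal.mul_mem_left _ _ hE2
  have hZ3d' : ∀ m ∈ (C l * Z3).support, m 2 < W := fun m hm => hZ3d m (lim_supp l Z3 hm)
  have hZed' : ∀ m ∈ (C l * Ze).support, m 2 < W := fun m hm => hZed m (lim_supp l Ze hm)
  refine ⟨fun c => (ch0 (MvPolynomial.map PowerSeries.constantCoeff Gh)).coeff c, ?_, ?_⟩
  · refine ⟨?_, ?_, ?_, ?_⟩
    · intro c hc
      exact lim_y (by omega) hY' c hc
    · intro c hc hc'
      exact lim_e (by omega) (by omega) hx1 hd' hZed' hE1' hE2' c hc hc'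
    · intro c hc i hi
      exact lim_b h1 h2 h3 h4 hh' hd' hZ3d' hB1' hB2' hZ3' c hc i hi
    · exact lim_a h1 h2 h3 h4 hx0 hd' hA1' hA2'
  · by_contra hcon
    push Not at hcon
    apply hne
    apply ch0_inj hh0
    have hdeg : (ch0 (MvPolynomial.map PowerSeries.constantCoeff Gh)).degree <
        ((2 * (W + 1) : ℕ) : WithBot ℕ) := by
      have h := degree_lt (u := (Polynomial.X : Polynomial K)) (v := 1) hd0
      rw [Polynomial.C_1] at h
      exact h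
    ext1 c
    rw [Polynomial.coeff_zero]
    rcases Nat.lt_or_ge c (2 * (W + 1)) with hc | hc
    · exact hcon c hc
    · apply Polynomial.coeff_eq_zero_of_degree_lt
      exact lt_of_lt_of_le hdeg (by exact_mod_cast hc)

end Pool.Agent.SplB
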