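import Pool.Agent.SplB.Ch

/-!
# SplB/LimY: the limits at the nodes `12` and `e` (see the header of `SplB/Lim`)

`Gh` has coefficients in `K[[ε]]`, `G = map (io K) Gh`, `G₀ = map constantCoeff Gh`, `f c = (ch0 G₀).coeff c`.
-/

set_option autoImplicit false

namespace Pool.Agent.SplB

open Polynomial

variable {K : Type*} [Field K]

private theorem io_inj_limY : Function.Injective (io K) := by
  have h : (io K : PowerSeries K → LaurentSeries K) = HahnSeries.ofPowerSeries ℤ K := by
    rw [← LaurentSeries.coe_algebraMap]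
  rw [h]
  exact HahnSeries.ofPowerSeries_injective

private theorem io_C_limY (x : K) : io K (PowerSeries.C x) = HahnSeries.C x := by
  rw [← HahnSeries.ofPowerSeries_C (Γ := ℤ) x]
  rfl

private theorem io_X_limY : io K (PowerSeries.X) = HahnSeries.single 1 1 := by
  rw [← HahnSeries.ofPowerSeries_X (Γ := ℤ)]
  rfl

private theorem dvd_of_comp_limY {f : K[X]} {x : K} {N : ℕ}
    (h : ∀ l < N, (f.comp (X + C x)).coeff l = 0) : (X - C x) ^ N ∣ f := by
  have h1 : X ^ N ∣ f.comp (X + C x) := X_pow_dvd_iff.2 h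
  obtain ⟨g, hg⟩ := h1
  refine ⟨g.comp (X - C x), ?_⟩
  have h2 : (f.comp (X + C x)).comp (X - C x) = f := by
    rw [comp_assoc]
    simp
  rw [← h2, hg, mul_comp]
  simp

private theorem nI_of_J_limY {A : Type*} [Field A] {ρ a b : ℕ}
    (φ : MvPolynomial (Fin 3) A →+* A[X][X]) {x y f : MvPolynomial (Fin 3) A} {l : A[X][X]}
    (hx : φ x = l) (hy : φ y = C X) (hf : f ∈ SplW.J ρ a b x y) : φ f ∈ nI ρ b a l := by
  have h := Ideal.mem_map_of_mem φ hf
  unfold SplW.J at h
  rw [Ideal.map_sup, Ideal.map_sup, Ideal.map_pow, Ideal.map_span, Ideal.map_span, Ideal.map_span,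
    Set.image_pair, Set.image_singleton, Set.image_singleton, map_pow, map_pow, hx, hy] at h
  unfold nI
  rw [Set.pair_comm (C X) l, sup_comm (Ideal.span {(C X : A[X][X]) ^ b})]
  exact h

/-- (y): `chY (C x)` maps the ideal to `(p ^ q) + (p, y) ^ (2 W + 1)`: the coefficient of `p ^ l y ^ c` in `chY G`, hence in `chY Gh` (`io K` is injective) and in `chY G₀`, vanishes for
`l < q = 2 W + 1 - ρ`, `l + c < 2 W + 1` (`mem_nI` with `T = 2 W + 1`); `(chY G₀).coeff c = (f c).comp (X + C x)`. -/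
theorem lim_y {ρ W : ℕ} (h2 : ρ ≤ 2 * W + 1) {x : K} {Gh : MvPolynomial (Fin 3) (PowerSeries K)}
    (hY : MvPolynomial.map (io K) Gh ∈
      Ideal.span {Yl (HahnSeries.C x) ^ (2 * W + 1 - ρ)} ⊔
        Ideal.span {Yl (HahnSeries.C x), MvPolynomial.X 2} ^ (2 * W + 1)) (c : ℕ)
    (hc : c < 2 * (W + 1)) :
    (X - C x) ^ (2 * W + 1 - ρ - (c - ρ)) ∣
      (ch0 (MvPolynomial.map PowerSeries.constantCoeff Gh)).coeff c := by
  set q := 2 * W + 1 - ρ with hq
  have hYl : chY (HahnSeries.C x : LaurentSeries K) (Yl (HahnSeries.C x)) = C X := by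
    simp [chY, ch, Yl]
  have hX2 : chY (HahnSeries.C x : LaurentSeries K) (MvPolynomial.X 2) = X := by
    simp [chY, ch]
  have hmem : chY (HahnSeries.C x : LaurentSeries K) (MvPolynomial.map (io K) Gh) ∈
      nI (2 * W + 1) q (2 * W + 1) (X : (LaurentSeries K)[X][X]) := by
    have h := Ideal.mem_map_of_mem (chY (HahnSeries.C x : LaurentSeries K)) hY
    rw [Ideal.map_sup, Ideal.map_pow, Ideal.map_span, Ideal.map_span, Set.image_pair,
      Set.image_singleton, map_pow, hYl, hX2] at h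
    unfold nI
    have hle : Ideal.span {(C X : (LaurentSeries K)[X][X]) ^ q} ⊔
        Ideal.span {(C X : (LaurentSeries K)[X][X]), X} ^ (2 * W + 1) ≤
        Ideal.span {C X, X} ^ (2 * W + 1) ⊔
          (Ideal.span {(C X) ^ q} ⊔ Ideal.span {X ^ (2 * W + 1)}) :=
      sup_le (le_sup_of_le_right le_sup_left) le_sup_left
    exact hle h
  rw [mem_nI, ← io_C_limY, chY_map] at hmem
  apply dvd_of_comp_limY
  intro l hl
  have h0 : ((chY (PowerSeries.C x) Gh).coeff c).coeff l = 0 := by
    have := hmem c l (by omega) (by omega) (by omega)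
    rw [coe_mapRingHom, coeff_map, coe_mapRingHom, coeff_map] at this
    apply io_inj_limY
    rw [this, map_zero]
  have h1 := chY_map (PowerSeries.constantCoeff (R := K)) (PowerSeries.C x) Gh
  rw [PowerSeries.constantCoeff_C] at h1
  rw [← coeff_chY, h1, coe_mapRingHom, coeff_map, coe_mapRingHom, coeff_map, h0, map_zero]

/-- (e): see `SplB/Lim`. -/
theorem lim_e {ρ W : ℕ} (h1 : W < ρ) (h2 : 2 * ρ ≤ 3 * W + 2) {x : K} (hx1 : x ≠ 1)
    {Gh : MvPolynomial (Fin 3) (PowerSeries K)} {Ze : MvPolynomial (Fin 3) (LaurentSeries K)}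
    (hd : ∀ m ∈ Gh.support, m 2 < 2 * (W + 1)) (hZed : ∀ m ∈ Ze.support, m 2 < W)
    (hE1 : MvPolynomial.map (io K) Gh - Ze ∈ SplW.J ρ (W + 1) (W + 1) (MvPolynomial.X 2)
      (MvPolynomial.X 0 - MvPolynomial.X 1))
    (hE2 : MvPolynomial.map (io K) Gh - Ze ∈ SplW.J ρ (W + 1) (W + 1)
      (U2 (HahnSeries.C x) (HahnSeries.single 1 1)) (MvPolynomial.X 0 - MvPolynomial.X 1)) (c : ℕ)
    (hc : c < 2 * (W + 1)) (hc' : W ≤ c) :
    (X - 1) ^ (ρ - c / 2) ∣ (ch0 (MvPolynomial.map PowerSeries.constantCoeff Gh)).coeff c := by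
  have hX2 : (chE : MvPolynomial (Fin 3) (LaurentSeries K) →+* _) (MvPolynomial.X 2) = X := by
    simp [chE, ch]
  have hP : (chE : MvPolynomial (Fin 3) (LaurentSeries K) →+* _)
      (MvPolynomial.X 0 - MvPolynomial.X 1) = C X := by
    simp [chE, ch]
  have hU : (chE : MvPolynomial (Fin 3) (LaurentSeries K) →+* _)
      (U2 (HahnSeries.C x) (HahnSeries.single 1 1)) =
        lnA (io K (PowerSeries.X * (1 - PowerSeries.C x))) (io K PowerSeries.X) := by
    have e1 : io K (PowerSeries.X * (1 - PowerSeries.C x)) =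
        HahnSeries.single 1 1 * (1 - HahnSeries.C x) := by
      rw [RingHom.map_mul, RingHom.map_sub, RingHom.map_one, io_C_limY, io_X_limY]
    rw [e1, io_X_limY]
    generalize (HahnSeries.C x : LaurentSeries K) = u
    generalize (HahnSeries.single (1 : ℤ) (1 : K) : LaurentSeries K) = e
    simp only [chE, ch, U2, Yl, lnA, map_sub, map_mul, MvPolynomial.eval₂Hom_X',
      MvPolynomial.eval₂Hom_C, Matrix.cons_val, RingHom.comp_apply, map_add, map_one]
    ring
  have hdeg : (chE Gh).degree < ((2 * (W + 1) : ℕ) : WithBot ℕ) := by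
    have := degree_lt (u := (X + 1 : (PowerSeries K)[X])) (v := 1) hd
    rwa [map_one] at this
  have hdegZ : (chE Ze).degree < ((W : ℕ) : WithBot ℕ) := by
    have := degree_lt (u := (X + 1 : (LaurentSeries K)[X])) (v := 1) hZed
    rwa [map_one] at this
  have k1 := nI_of_J_limY chE hX2 hP hE1
  have k2 := nI_of_J_limY chE hU hP hE2
  rw [map_sub, chE_map] at k1 k2
  have ha : PowerSeries.constantCoeff (1 - PowerSeries.C x : PowerSeries K) ≠ 0 := by
    rw [map_sub, map_one, PowerSeries.constantCoeff_C]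
    exact sub_ne_zero.2 (Ne.symm hx1)
  rw [← map_one (C : K →+* K[X])]
  apply dvd_of_comp_limY
  intro l hl
  have h0 : PowerSeries.constantCoeff (((chE Gh).coeff c).coeff l) = 0 := by
    refine two (ρ := ρ) (T' := W + 1) (T := W + 1) (W := W) (by omega) ha hdeg hdegZ k1 k2
      (by omega) hc' ?_
    rcases le_total (ρ - l) (W + 1) with h | h
    · rw [min_eq_left h]
      omega
    · rw [min_eq_right h]
      omega
  have h3 := chE_map (PowerSeries.constantCoeff (R := K)) Gh
  have h4 := coeff_chE (MvPolynomial.map (PowerSeries.constantCoeff (R := K)) Gh) c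
  rw [map_one, ← h4, h3, coe_mapRingHom, coeff_map, coe_mapRingHom, coeff_map, h0]

end Pool.Agent.SplB
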