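import Pool.Agent.SplB.PStar
import Pool.Agent.SplB.Sc

/-!
# SplB/Lone: the limit `x → 1` (note 1939, Steps 3 and 4)

PAPER PROOF.  `L = ℝ((η))`, `x = 1 + η`, `O = ℝ[[η]]`, `q = 2 W + 1 - ρ`, `N = 2 (W + 1)`.

(1) `InA` in functional form, over any commutative ring: there is `iv ∈ ℤ[X]` with `X ^ N ∣ (1 + X) ^ n * iv - 1` (`1 + X` and `X ^ N` are coprime in `ℤ[X]`), and
`InA f ↔ ∀ d j, j < N → d < j + n0 d → (th N f d * iv_{n0 d}).coeff j = 0`.  So `InA` is compatible with ring homomorphisms `A → B`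
(`f ↦ fun c => (f c).map φ`) in both directions if `φ` is injective, and with multiplication of all `f c` by a constant.

(2) `X - C x` and `X - 1` are coprime (`x ≠ 1`), so `f c = (X - C x) ^ (q - (c - ρ)) * (X - 1) ^ E * h c` with `E = ρ - c / 2` for `c ≥ W`, `E = 0` for `c < W`.
If not all `h c` (`c < N`) are `0`, scale the finitely many coefficients of the `h c` by `sc`: `h c` comes from `O[X]` and `h⁰ c := (h c) mod η` are not all zero.
`f⁰ c := (X - 1) ^ (q - (c - ρ)) * (X - 1) ^ E * h⁰ c ∈ ℝ[X]` satisfies `InA` (by (1): `f` over `L`, so over `O`, so over `ℝ`), and the degree bounds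
`hb` pass to `h c` (degree of a product with a monic polynomial) and to `h⁰ c`, `f⁰ c`: `(f⁰ c).coeff i = 0` for `ρ + 2 W < c + i + be c`.

(3) For `c < N` one has `q ≤ (q - (c - ρ)) + E`, except if `ρ = 3 g` and `c = N - 1 = 2 W + 1`, `W = 2 g`: then the exponent is `g = q - 1`.
LEMMA: if `InA (fun c => (X - 1) * p c)` then `InA p`: `th N ((X - 1) p) d = th N p (d - 1) - th N p d` (for `d = 0`: `- th N p 0`); the solution spaces
`V_d = {θ : X ^ N ∣ θ - (1 + X) ^ n0 d * α, α of degree ≤ d - n0 d}` are increasing in `d` (`n0` is antitone, `(1 + X) ^ n0 (d-1) * α = (1 + X) ^ n0 d * (...)`), induction on `d`.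
Case `ρ < 3 g`: `f⁰ c = (X - 1) ^ q * p c`, `p c = (X - 1) ^ (ρ - c / 2 - (c - ρ)) * h⁰ c` for `c ≥ W` (`p c = h⁰ c` for `c < W`); `InA p`, `p` satisfies the hypotheses of
`pstar`, so `p = 0` and `h⁰ = 0`.
Case `ρ = 3 g`: `f⁰ c = (X - 1) ^ (q - 1) * P c` with `P c = (X - 1) * p c` for `c < N - 1` and `P (N - 1) = h⁰ (N - 1)`; `InA P`.  CLAIM: `(P (N-1)).eval 1 = 0`.  Proof: let
`D = 5 g`; `(P c).coeff i = 0` for `2 ρ < c + i + be c`, and `be c ≥ g`, so `c + i > 5 g` implies `(P c).coeff i = 0`; hence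
`∑_{d ≤ D} th N P d = ∑_{c < N} C ((P c).eval 1) X ^ c = C γ * X ^ (N - 1)`, `γ = (P (N-1)).eval 1`, and it lies in `V_D`, `n0 D = min (2 g) (max g g) = g`:
`X ^ N ∣ C γ X ^ (N-1) - (1 + X) ^ g * α`, `α` of degree `≤ 4 g = N - 2`: `X ^ (N-1) ∣ (1 + X) ^ g * α`, so `X ^ (N-1) ∣ α`, `α = 0`, `γ = 0`.
So `P c = (X - 1) * p c` for all `c < N`, and again `p = 0` by `pstar`.
-/

set_option autoImplicit false

namespace Pool.Agent.SplB

open Polynomial

section

variable {A B : Type*} [CommRing A] [CommRing B]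

theorem exists_iv (N n : ℕ) : ∃ v : ℤ[X], X ^ N ∣ (1 + X) ^ n * v - 1 := by
  have h : IsCoprime ((1 + X : ℤ[X]) ^ n) (X ^ N) := by
    apply IsCoprime.pow
    exact ⟨1, -1, by ring⟩
  obtain ⟨a, b, hab⟩ := h
  exact ⟨a, -b, by linear_combination hab⟩

/-- the inverse of `(1 + X) ^ n` modulo `X ^ N` -/
noncomputable def ivA (A : Type*) [CommRing A] (N n : ℕ) : A[X] :=
  (exists_iv N n).choose.map (Int.castRingHom A)

theorem ivA_spec (A : Type*) [CommRing A] (N n : ℕ) :
    (X : A[X]) ^ N ∣ (1 + X) ^ n * ivA A N n - 1 := by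
  have h := map_dvd (mapRingHom (Int.castRingHom A)) (exists_iv N n).choose_spec
  simpa [ivA] using h

theorem ivA_map (φ : A →+* B) (N n : ℕ) : (ivA A N n).map φ = ivA B N n := by
  unfold ivA
  rw [Polynomial.map_map]
  congr 1
  exact RingHom.ext_int _ _

/-- the condition of degree `d` -/
def InV (N d n : ℕ) (θ : A[X]) : Prop :=
  ∃ α : A[X], (∀ j, d < j + n → α.coeff j = 0) ∧ X ^ N ∣ θ - (1 + X) ^ n * α

theorem coeff_of_dvd {N : ℕ} {θ : A[X]} (h : X ^ N ∣ θ) {j : ℕ} (hj : j < N) : θ.coeff j = 0 :=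
  X_pow_dvd_iff.1 h j hj

theorem inV_iff (N d n : ℕ) (θ : A[X]) :
    InV N d n θ ↔ ∀ j < N, d < j + n → (θ * ivA A N n).coeff j = 0 := by
  obtain ⟨γ, hγ⟩ := ivA_spec A N n
  constructor
  · rintro ⟨α, hα, β, hβ⟩ j hj hd
    have e : θ * ivA A N n = α + X ^ N * (β * ivA A N n + α * γ) := by
      linear_combination (ivA A N n) * hβ + α * hγ
    rw [e, coeff_add, hα j hd, coeff_of_dvd (Dvd.intro _ rfl) hj, add_zero]
  · intro h
    refine ⟨∑ i ∈ Finset.range N, C ((θ * ivA A N n).coeff i) * X ^ i, ?_, ?_⟩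
    · intro j hd
      rw [finsetSum_coeff]
      apply Finset.sum_eq_zero
      intro i hi
      rw [coeff_C_mul_X_pow]
      split_ifs with hij
      · subst hij
        exact h j (Finset.mem_range.1 hi) hd
      · rfl
    · have h1 : X ^ N ∣ θ * ivA A N n -
          ∑ i ∈ Finset.range N, C ((θ * ivA A N n).coeff i) * X ^ i := by
        rw [X_pow_dvd_iff]
        intro j hj
        rw [coeff_sub, finsetSum_coeff]
        have e : ∑ b ∈ Finset.range N, (C ((θ * ivA A N n).coeff b) * X ^ b : A[X]).coeff j =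
            (θ * ivA A N n).coeff j := by
          rw [Finset.sum_eq_single_of_mem j (Finset.mem_range.2 hj)]
          · rw [coeff_C_mul_X_pow, if_pos rfl]
          · intro b _ hb
            rw [coeff_C_mul_X_pow, if_neg (Ne.symm hb)]
        rw [e, sub_self]
      obtain ⟨δ, hδ⟩ := h1
      refine ⟨-θ * γ + (1 + X) ^ n * δ, ?_⟩
      linear_combination (-θ) * hγ + (1 + X) ^ n * hδ

theorem inV_neg {N d n : ℕ} {θ : A[X]} (h : InV N d n θ) : InV N d n (-θ) := by
  obtain ⟨α, hα, β, hβ⟩ := h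
  refine ⟨-α, fun j hj => by rw [coeff_neg, hα j hj, neg_zero], -β, ?_⟩
  linear_combination -hβ

theorem inV_add {N d n : ℕ} {θ θ' : A[X]} (h : InV N d n θ) (h' : InV N d n θ') :
    InV N d n (θ + θ') := by
  obtain ⟨α, hα, β, hβ⟩ := h
  obtain ⟨α', hα', β', hβ'⟩ := h'
  refine ⟨α + α', fun j hj => by rw [coeff_add, hα j hj, hα' j hj, zero_add], β + β', ?_⟩
  linear_combination hβ + hβ'

theorem inV_zero (N d n : ℕ) : InV N d n (0 : A[X]) :=
  ⟨0, fun j _ => coeff_zero j, by simp⟩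

theorem inV_mul_C {N d n : ℕ} {θ : A[X]} (a : A) (h : InV N d n θ) : InV N d n (C a * θ) := by
  obtain ⟨α, hα, β, hβ⟩ := h
  refine ⟨C a * α, fun j hj => by rw [coeff_C_mul, hα j hj, mul_zero], C a * β, ?_⟩
  linear_combination C a * hβ

theorem inV_mono {N d n d' n' : ℕ} {θ : A[X]} (hd : d ≤ d') (hn : n' ≤ n) (h : InV N d n θ) :
    InV N d' n' θ := by
  obtain ⟨α, hα, β, hβ⟩ := h
  obtain ⟨m, rfl⟩ := Nat.exists_eq_add_of_le hn
  refine ⟨(1 + X) ^ m * α, ?_, β, ?_⟩
  · intro j hj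
    rw [coeff_mul]
    apply Finset.sum_eq_zero
    rintro ⟨a, b⟩ hab
    rw [Finset.HasAntidiagonal.mem_antidiagonal] at hab
    dsimp only at hab ⊢
    rcases Nat.lt_or_ge m a with h1 | h1
    · have h2 : ((1 + X : A[X]) ^ m).coeff a = 0 := by
        rw [add_comm, ← C_1, coeff_X_add_C_pow, Nat.choose_eq_zero_of_lt h1]
        simp
      rw [h2, zero_mul]
    · rw [hα b (by omega), mul_zero]
  · rw [← hβ]
    ring

theorem inA_def {g W ρ : ℕ} {f : ℕ → A[X]} :
    InA g W ρ f ↔ ∀ d, InV (2 * (W + 1)) d (n0 g W ρ d) (th (2 * (W + 1)) f d) := Iff.rfl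

theorem th_map (φ : A →+* B) (N : ℕ) (f : ℕ → A[X]) (d : ℕ) :
    th N (fun c => (f c).map φ) d = (th N f d).map φ := by
  unfold th
  rw [Polynomial.map_sum]
  refine Finset.sum_congr rfl fun c _ => ?_
  split_ifs
  · rw [Polynomial.map_mul, map_C, Polynomial.map_pow, map_X, coeff_map]
  · rw [Polynomial.map_zero]

theorem th_congr {N : ℕ} {f f' : ℕ → A[X]} (h : ∀ c < N, f c = f' c) (d : ℕ) :
    th N f d = th N f' d := by
  unfold th
  refine Finset.sum_congr rfl fun c hc => ?_
  rw [h c (Finset.mem_range.1 hc)]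

theorem inA_congr {g W ρ : ℕ} {f f' : ℕ → A[X]} (h : ∀ c < 2 * (W + 1), f c = f' c)
    (hf : InA g W ρ f) : InA g W ρ f' := by
  rw [inA_def] at hf ⊢
  intro d
  rw [← th_congr h]
  exact hf d

theorem inA_map {g W ρ : ℕ} {f : ℕ → A[X]} (φ : A →+* B) (hf : InA g W ρ f) :
    InA g W ρ (fun c => (f c).map φ) := by
  rw [inA_def] at hf ⊢
  intro d
  rw [inV_iff]
  intro j hj hd
  have h1 := (inV_iff _ _ _ _).1 (hf d) j hj hd
  rw [th_map, ← ivA_map φ, ← Polynomial.map_mul, coeff_map, h1, map_zero]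

theorem inA_of_map {g W ρ : ℕ} {f : ℕ → A[X]} {φ : A →+* B} (hφ : Function.Injective φ)
    (hf : InA g W ρ (fun c => (f c).map φ)) : InA g W ρ f := by
  rw [inA_def] at hf ⊢
  intro d
  rw [inV_iff]
  intro j hj hd
  have h1 := (inV_iff _ _ _ _).1 (hf d) j hj hd
  rw [th_map, ← ivA_map φ, ← Polynomial.map_mul, coeff_map] at h1
  exact hφ (by rw [h1, map_zero])

theorem inA_mul_C {g W ρ : ℕ} {f : ℕ → A[X]} (a : A) (hf : InA g W ρ f) :
    InA g W ρ (fun c => C a * f c) := by
  rw [inA_def] at hf ⊢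
  intro d
  have e : th (2 * (W + 1)) (fun c => C a * f c) d = C a * th (2 * (W + 1)) f d := by
    unfold th
    rw [Finset.mul_sum]
    refine Finset.sum_congr rfl fun c _ => ?_
    split_ifs
    · rw [coeff_C_mul, C_mul, mul_assoc]
    · rw [mul_zero]
  rw [e]
  exact inV_mul_C a (hf d)

theorem th_X_sub_one_zero (N : ℕ) (p : ℕ → A[X]) :
    th N (fun c => (X - 1) * p c) 0 = - th N p 0 := by
  unfold th
  rw [← Finset.sum_neg_distrib]
  refine Finset.sum_congr rfl fun c _ => ?_
  split_ifs with h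
  · have hc : c = 0 := Nat.le_zero.1 h
    subst hc
    have e : ((X - 1) * p 0).coeff (0 - 0) = - (p 0).coeff (0 - 0) := by
      rw [Nat.sub_zero, sub_mul, one_mul, coeff_sub, coeff_X_mul_zero, zero_sub]
    rw [e, C_neg, neg_mul]
  · rw [neg_zero]

theorem th_X_sub_one_succ (N : ℕ) (p : ℕ → A[X]) (d : ℕ) :
    th N (fun c => (X - 1) * p c) (d + 1) = th N p d - th N p (d + 1) := by
  unfold th
  rw [← Finset.sum_sub_distrib]
  refine Finset.sum_congr rfl fun c _ => ?_
  rcases Nat.lt_trichotomy c (d + 1) with h | h | h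
  · rw [if_pos (by omega), if_pos (by omega), if_pos (by omega)]
    have e1 : d + 1 - c = (d - c) + 1 := by omega
    show C (((X - 1) * p c).coeff (d + 1 - c)) * X ^ c = _
    rw [e1, sub_mul, one_mul, coeff_sub, coeff_X_mul, C_sub, sub_mul]
  · subst h
    rw [if_pos (by omega), if_neg (by omega), if_pos (by omega)]
    show C (((X - 1) * p (d + 1)).coeff (d + 1 - (d + 1))) * X ^ (d + 1) = _
    rw [Nat.sub_self, sub_mul, one_mul, coeff_sub, coeff_X_mul_zero, zero_sub, C_neg, neg_mul,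
      zero_sub]
  · rw [if_neg (by omega), if_neg (by omega), if_neg (by omega), sub_zero]

theorem n0_anti (g W ρ : ℕ) {d d' : ℕ} (h : d ≤ d') : n0 g W ρ d' ≤ n0 g W ρ d := by
  unfold n0
  omega

theorem inA_of_mul {g W ρ : ℕ} {p : ℕ → A[X]} (h : InA g W ρ (fun c => (X - 1) * p c)) :
    InA g W ρ p := by
  rw [inA_def] at h ⊢
  intro d
  induction d with
  | zero =>
    have h1 := h 0
    rw [th_X_sub_one_zero] at h1
    have h2 := inV_neg h1
    rwa [neg_neg] at h2
  | succ d ih =>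
    have h1 := h (d + 1)
    rw [th_X_sub_one_succ] at h1
    have h2 := inV_add (inV_mono (Nat.le_succ d) (n0_anti g W ρ (Nat.le_succ d)) ih) (inV_neg h1)
    have e : th (2 * (W + 1)) p (d + 1) = th (2 * (W + 1)) p d +
        -(th (2 * (W + 1)) p d - th (2 * (W + 1)) p (d + 1)) := by ring
    rw [e]
    exact h2

theorem inA_of_pow_mul {g W ρ : ℕ} (k : ℕ) : ∀ {p : ℕ → A[X]},
    InA g W ρ (fun c => (X - 1) ^ k * p c) → InA g W ρ p := by
  induction k with
  | zero =>
    intro p h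
    exact inA_congr (fun c _ => by rw [pow_zero, one_mul]) h
  | succ k ih =>
    intro p h
    refine ih (inA_of_mul (inA_congr (fun c _ => ?_) h))
    rw [pow_succ']
    ring

theorem bound_of_mul {P h : A[X]} (hP : P.Monic) (M t : ℕ)
    (hb : ∀ i, M < i + t → (P * h).coeff i = 0) (i : ℕ) (hi : M < i + t + P.natDegree) :
    h.coeff i = 0 := by
  by_contra hne
  have h0 : h ≠ 0 := fun e => hne (by rw [e, coeff_zero])
  have h1 : i ≤ h.natDegree := le_natDegree_of_ne_zero hne
  have h2 := coeff_mul_degree_add_degree P h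
  rw [hP.leadingCoeff, one_mul, hb _ (by omega)] at h2
  exact h0 (leadingCoeff_eq_zero.1 h2.symm)

end

theorem sum_th (N D : ℕ) (P : ℕ → ℝ[X]) (hP : ∀ c < N, ∀ i, D < c + i → (P c).coeff i = 0) :
    ∑ d ∈ Finset.range (D + 1), th N P d = ∑ c ∈ Finset.range N, C ((P c).eval 1) * X ^ c := by
  unfold th
  rw [Finset.sum_comm]
  refine Finset.sum_congr rfl fun c hc => ?_
  have hc' := Finset.mem_range.1 hc
  rcases Nat.lt_or_ge D c with h | h
  · have h0 : P c = 0 := by
      ext i
      rw [hP c hc' i (by omega), coeff_zero]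
    rw [h0, eval_zero, C_0, zero_mul]
    apply Finset.sum_eq_zero
    intro d hd
    rw [if_neg (by have := Finset.mem_range.1 hd; omega)]
  · have e1 : (P c).eval 1 = ∑ i ∈ Finset.range (D + 1 - c), (P c).coeff i := by
      rw [eval_eq_sum_range' (n := D + 1 - c)]
      · exact Finset.sum_congr rfl fun i _ => by rw [one_pow, mul_one]
      · rw [Nat.lt_iff_add_one_le, Nat.add_one_le_iff]
        by_contra hcon
        have h2 : (P c).natDegree ≠ 0 ∨ True := Or.inr trivial
        have h3 : D < c + (P c).natDegree := by omega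
        have h4 := hP c hc' _ h3
        have h5 : P c = 0 := leadingCoeff_eq_zero.1 h4
        rw [h5, natDegree_zero] at h3
        omega
    rw [e1, map_sum, Finset.sum_mul]
    have e2 : D + 1 = c + (D + 1 - c) := by omega
    rw [e2, Finset.sum_range_add]
    have e3 : ∑ x ∈ Finset.range c, (if c ≤ x then C ((P c).coeff (x - c)) * X ^ c else 0) =
        (0 : ℝ[X]) := by
      apply Finset.sum_eq_zero
      intro d hd
      rw [if_neg (by have := Finset.mem_range.1 hd; omega)]
    rw [e3, zero_add]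
    have e4 : c + (D + 1 - c) - c = D + 1 - c := by omega
    rw [e4]
    refine Finset.sum_congr rfl fun i _ => ?_
    rw [if_pos (Nat.le_add_right c i), Nat.add_sub_cancel_left]

/-- specialisation: a finite family of polynomials over the field of Laurent series, not all zero,
comes after scaling from polynomials over the power series, not all zero modulo the maximal ideal -/
theorem lone_spec (N : ℕ) (h : ℕ → (LaurentSeries ℝ)[X]) (hne : ∃ c < N, h c ≠ 0) :
    ∃ (l : LaurentSeries ℝ) (k : ℕ → (PowerSeries ℝ)[X]), l ≠ 0 ∧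
      (∀ c < N, (k c).map (algebraMap (PowerSeries ℝ) (LaurentSeries ℝ)) = C l * h c) ∧
      ∃ c < N, (k c).map PowerSeries.constantCoeff ≠ 0 := by
  classical
  obtain ⟨c₀, hc₀, hh₀⟩ := hne
  let D : ℕ := (Finset.range N).sup (fun c => (h c).natDegree)
  have hD : ∀ c < N, (h c).natDegree ≤ D := fun c hc =>
    Finset.le_sup (f := fun c => (h c).natDegree) (Finset.mem_range.2 hc)
  obtain ⟨l, w, hl, hw, ⟨c₁, i₁⟩, hm, hi⟩ := sc (Finset.range N ×ˢ Finset.range (D + 1))
    (fun q : ℕ × ℕ => (h q.1).coeff q.2)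
    ⟨(c₀, (h c₀).natDegree), Finset.mem_product.2 ⟨Finset.mem_range.2 hc₀,
      Finset.mem_range.2 (Nat.lt_succ_of_le (hD c₀ hc₀))⟩, leadingCoeff_ne_zero.2 hh₀⟩
  refine ⟨l, fun c => ∑ i ∈ Finset.range (D + 1), C (w (c, i)) * X ^ i, hl, ?_, c₁, ?_, ?_⟩
  · intro c hc
    rw [Polynomial.map_sum]
    rw [as_sum_range' (h c) (D + 1) (Nat.lt_succ_of_le (hD c hc)), Finset.mul_sum]
    refine Finset.sum_congr rfl fun i hi' => ?_
    rw [Polynomial.map_mul, map_C, Polynomial.map_pow, map_X,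
      hw (c, i) (Finset.mem_product.2 ⟨Finset.mem_range.2 hc, hi'⟩), ← C_mul_X_pow_eq_monomial,
      C_mul, mul_assoc]
  · exact Finset.mem_range.1 (Finset.mem_product.1 hm).1
  · intro e
    apply hi
    have h1 := congrArg (fun q : ℝ[X] => q.coeff i₁) e
    simp only [coeff_map, finsetSum_coeff, coeff_C_mul_X_pow, coeff_zero] at h1
    rw [Finset.sum_eq_single_of_mem i₁ (Finset.mem_product.1 hm).2] at h1
    · simpa using h1
    · intro b _ hb
      rw [if_neg (Ne.symm hb)]

/-- the claim of Step 4: the value at `1` of the last polynomial vanishes -/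
theorem eval_last {g : ℕ} (P : ℕ → ℝ[X])
    (hb : ∀ c < 2 * (2 * g + 1), ∀ i, 6 * g < c + i + be (2 * g) (3 * g) c → (P c).coeff i = 0)
    (h1 : ∀ c < 4 * g + 1, (P c).eval 1 = 0) (hA : InA g (2 * g) (3 * g) P) :
    (P (4 * g + 1)).eval 1 = 0 := by
  have hbe : ∀ c < 2 * (2 * g + 1), g ≤ be (2 * g) (3 * g) c := by
    intro c hc
    unfold be
    omega
  have hP : ∀ c < 2 * (2 * g + 1), ∀ i, 5 * g < c + i → (P c).coeff i = 0 := by
    intro c hc i hi
    have := hbe c hc
    exact hb c hc i (by omega)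
  have h2 := sum_th (2 * (2 * g + 1)) (5 * g) P hP
  have h3 : ∀ m : ℕ, m ≤ 5 * g + 1 →
      InV (2 * (2 * g + 1)) (5 * g) g (∑ d ∈ Finset.range m, th (2 * (2 * g + 1)) P d) := by
    intro m
    induction m with
    | zero =>
      intro _
      rw [Finset.sum_range_zero]
      exact inV_zero _ _ _
    | succ m ih =>
      intro hm
      rw [Finset.sum_range_succ]
      refine inV_add (ih (by omega)) ?_
      refine inV_mono (n := n0 g (2 * g) (3 * g) m) (by omega) ?_ (inA_def.1 hA m)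
      unfold n0
      omega
  have h4 := h3 (5 * g + 1) le_rfl
  rw [h2] at h4
  have e : ∑ c ∈ Finset.range (2 * (2 * g + 1)), (C ((P c).eval 1) * X ^ c : ℝ[X]) =
      C ((P (4 * g + 1)).eval 1) * X ^ (4 * g + 1) := by
    have e1 : 2 * (2 * g + 1) = (4 * g + 1) + 1 := by ring
    rw [e1, Finset.sum_range_succ, Finset.sum_eq_zero, zero_add]
    intro c hc
    rw [h1 c (Finset.mem_range.1 hc), C_0, zero_mul]
  rw [e] at h4
  obtain ⟨α, hα, hdvd⟩ := h4
  have h5 : X ^ (4 * g + 1) ∣ (1 + X) ^ g * α := by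
    have h6 : (X : ℝ[X]) ^ (4 * g + 1) ∣
        C ((P (4 * g + 1)).eval 1) * X ^ (4 * g + 1) - (1 + X) ^ g * α :=
      dvd_trans (pow_dvd_pow X (by omega)) hdvd
    have h7 := dvd_sub (Dvd.intro_left (C ((P (4 * g + 1)).eval 1)) rfl) h6
    have e2 : C ((P (4 * g + 1)).eval 1) * X ^ (4 * g + 1) -
        (C ((P (4 * g + 1)).eval 1) * X ^ (4 * g + 1) - (1 + X) ^ g * α) = (1 + X) ^ g * α := by
      ring
    rwa [e2] at h7
  have hcop : IsCoprime ((X : ℝ[X]) ^ (4 * g + 1)) ((1 + X) ^ g) := by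
    apply IsCoprime.pow
    exact ⟨-1, 1, by ring⟩
  have h8 := hcop.dvd_of_dvd_mul_left h5
  have h9 : α = 0 := by
    ext j
    rw [coeff_zero]
    rcases Nat.lt_or_ge j (4 * g + 1) with hj | hj
    · exact coeff_of_dvd h8 hj
    · exact hα j (by omega)
  rw [h9, mul_zero, sub_zero] at hdvd
  have h10 := coeff_of_dvd hdvd (show 4 * g + 1 < 2 * (2 * g + 1) by omega)
  rwa [coeff_C_mul_X_pow, if_pos rfl] at h10

theorem algX : algebraMap (PowerSeries ℝ) (LaurentSeries ℝ) (1 + PowerSeries.X) =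
    1 + HahnSeries.single 1 1 := by
  rw [map_add, map_one, LaurentSeries.coe_algebraMap, HahnSeries.ofPowerSeries_X]

theorem alg_inj : Function.Injective (algebraMap (PowerSeries ℝ) (LaurentSeries ℝ)) :=
  HahnSeries.ofPowerSeries_injective

theorem lone {g W ρ : ℕ} (h1 : W + g = ρ) (h2 : ρ ≤ 3 * g) (h3 : 3 * g ≤ ρ + 2) (h4 : 2 ≤ ρ)
    (f : ℕ → (LaurentSeries ℝ)[X]) (hf : Sys g W ρ (1 + HahnSeries.single 1 1) f) :
    ∀ c < 2 * (W + 1), f c = 0 := by
  by_contra hcon
  push Not at hcon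
  obtain ⟨c₀, hc₀, hf₀⟩ := hcon
  -- the factorisation
  set q := 2 * W + 1 - ρ with hq
  let a : ℕ → ℕ := fun c => q - (c - ρ)
  let E : ℕ → ℕ := fun c => if W ≤ c then ρ - c / 2 else 0
  have hx1 : (1 + HahnSeries.single 1 1 : LaurentSeries ℝ) ≠ 1 := by
    intro e
    rw [add_eq_left] at e
    exact (HahnSeries.single_ne_zero (one_ne_zero)) e
  have hfac : ∀ c, ∃ h, c < 2 * (W + 1) →
      f c = (X - C (1 + HahnSeries.single 1 1)) ^ a c * (X - 1) ^ E c * h := by
    intro c
    by_cases hc : c < 2 * (W + 1)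
    · have hy := hf.y c hc
      have he : (X - 1) ^ E c ∣ f c := by
        show (X - 1) ^ (if W ≤ c then ρ - c / 2 else 0) ∣ f c
        split_ifs with hWc
        · exact hf.e c hc hWc
        · rw [pow_zero]
          exact one_dvd _
      have hcop : IsCoprime ((X - C (1 + HahnSeries.single 1 1) : (LaurentSeries ℝ)[X]) ^ a c)
          ((X - 1) ^ E c) := by
        apply IsCoprime.pow
        rw [← C_1]
        exact isCoprime_X_sub_C_of_isUnit_sub (isUnit_iff_ne_zero.2 (sub_ne_zero.2 hx1))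
      obtain ⟨h, hh⟩ := hcop.mul_dvd hy he
      exact ⟨h, fun _ => hh⟩
    · exact ⟨0, fun h => absurd h hc⟩
  choose h hh using hfac
  obtain ⟨l, k, hl, hk, c₁, hc₁, hk₁⟩ := lone_spec (2 * (W + 1)) h
    ⟨c₀, hc₀, fun e => hf₀ (by rw [hh c₀ hc₀, e, mul_zero])⟩
  -- the polynomials over the power series and over the reals
  let fO : ℕ → (PowerSeries ℝ)[X] := fun c =>
    (X - C (1 + PowerSeries.X)) ^ a c * (X - 1) ^ E c * k c
  have hfO : ∀ c < 2 * (W + 1),
      (fO c).map (algebraMap (PowerSeries ℝ) (LaurentSeries ℝ)) = C l * f c := by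
    intro c hc
    show ((X - C (1 + PowerSeries.X)) ^ a c * (X - 1) ^ E c * k c).map _ = C l * f c
    rw [Polynomial.map_mul, Polynomial.map_mul, Polynomial.map_pow, Polynomial.map_pow,
      Polynomial.map_sub, Polynomial.map_sub, map_X, map_C, algX, Polynomial.map_one, hk c hc,
      hh c hc]
    ring
  have hInAO : InA g W ρ fO := by
    refine inA_of_map alg_inj ?_
    exact inA_congr (fun c hc => (hfO c hc).symm) (inA_mul_C l hf.a)
  let k0 : ℕ → ℝ[X] := fun c => (k c).map PowerSeries.constantCoeff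
  let f0 : ℕ → ℝ[X] := fun c => (fO c).map PowerSeries.constantCoeff
  have hf0 : ∀ c, f0 c = (X - 1) ^ (a c + E c) * k0 c := by
    intro c
    show ((X - C (1 + PowerSeries.X)) ^ a c * (X - 1) ^ E c * k c).map _ = _
    rw [Polynomial.map_mul, Polynomial.map_mul, Polynomial.map_pow, Polynomial.map_pow,
      Polynomial.map_sub, Polynomial.map_sub, map_X, map_C, Polynomial.map_one, map_add, map_one,
      PowerSeries.constantCoeff_X, add_zero, C_1, pow_add]
  have hInA0 : InA g W ρ f0 := inA_map _ hInAO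
  have hb0 : ∀ c < 2 * (W + 1), ∀ i, ρ + 2 * W < c + i + be W ρ c → (f0 c).coeff i = 0 := by
    intro c hc i hi
    have h5 := hf.b c hc i hi
    have h6 : (fO c).coeff i = 0 := by
      apply alg_inj
      rw [← coeff_map, hfO c hc, coeff_C_mul, h5, mul_zero, map_zero]
    show ((fO c).map PowerSeries.constantCoeff).coeff i = 0
    rw [coeff_map, h6, map_zero]
  have hmon : ∀ n : ℕ, ((X - 1 : ℝ[X]) ^ n).Monic := by
    intro n
    rw [← C_1]
    exact (monic_X_sub_C 1).pow n
  have hdeg : ∀ n : ℕ, ((X - 1 : ℝ[X]) ^ n).natDegree = n := by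
    intro n
    rw [← C_1, natDegree_pow, natDegree_X_sub_C, mul_one]
  rcases Nat.lt_or_ge ρ (3 * g) with hlt | hge
  · -- `ρ < 3 g`
    have hexp : ∀ c < 2 * (W + 1), q + (a c + E c - q) = a c + E c := by
      intro c hc
      have : q ≤ a c + E c := by
        show q ≤ q - (c - ρ) + (if W ≤ c then ρ - c / 2 else 0)
        split_ifs <;> omega
      omega
    let p : ℕ → ℝ[X] := fun c => (X - 1) ^ (a c + E c - q) * k0 c
    have hp : ∀ c < 2 * (W + 1), f0 c = (X - 1) ^ q * p c := by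
      intro c hc
      rw [hf0]
      show _ = (X - 1) ^ q * ((X - 1) ^ (a c + E c - q) * k0 c)
      rw [← mul_assoc, ← pow_add, hexp c hc]
    have hpA : InA g W ρ p := inA_of_pow_mul q (inA_congr hp hInA0)
    have hz := pstar h1 h2 h3 h4 p ?_ ?_ hpA
    · have h5 := hz c₁ hc₁
      have h6 : (X - 1) ^ (a c₁ + E c₁ - q) * k0 c₁ = 0 := h5
      rcases mul_eq_zero.1 h6 with h7 | h7
      · exact (hmon _).ne_zero h7
      · exact hk₁ h7
    · intro c hc i hi
      refine bound_of_mul (hmon q) (ρ + 2 * W) (be W ρ c + c) ?_ i ?_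
      · intro j hj
        rw [← hp c hc]
        exact hb0 c hc j (by omega)
      · rw [hdeg]
        omega
    · intro c hc hWc
      show (X - 1) ^ (ρ - c / 2 - (c - ρ)) ∣ (X - 1) ^ (a c + E c - q) * k0 c
      refine Dvd.dvd.mul_right (pow_dvd_pow _ ?_) _
      show ρ - c / 2 - (c - ρ) ≤ q - (c - ρ) + (if W ≤ c then ρ - c / 2 else 0) - q
      rw [if_pos hWc]
      omega
  · -- `ρ = 3 g`
    have hρ : ρ = 3 * g := by omega
    have hW : W = 2 * g := by omega
    subst hρ
    subst hW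
    have hqg : q = g + 1 := by omega
    have hexp : ∀ c < 2 * (2 * g + 1), (q - 1) + (a c + E c - (q - 1)) = a c + E c := by
      intro c hc
      have : q - 1 ≤ a c + E c := by
        show q - 1 ≤ q - (c - 3 * g) + (if 2 * g ≤ c then 3 * g - c / 2 else 0)
        split_ifs <;> omega
      omega
    let P : ℕ → ℝ[X] := fun c => (X - 1) ^ (a c + E c - (q - 1)) * k0 c
    have hP : ∀ c < 2 * (2 * g + 1), f0 c = (X - 1) ^ (q - 1) * P c := by
      intro c hc
      rw [hf0]
      show _ = (X - 1) ^ (q - 1) * ((X - 1) ^ (a c + E c - (q - 1)) * k0 c)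
      rw [← mul_assoc, ← pow_add, hexp c hc]
    have hPA : InA g (2 * g) (3 * g) P := inA_of_pow_mul (q - 1) (inA_congr hP hInA0)
    have hPb : ∀ c < 2 * (2 * g + 1), ∀ i, 6 * g < c + i + be (2 * g) (3 * g) c →
        (P c).coeff i = 0 := by
      intro c hc i hi
      refine bound_of_mul (hmon (q - 1)) (3 * g + 2 * (2 * g)) (be (2 * g) (3 * g) c + c) ?_ i ?_
      · intro j hj
        rw [← hP c hc]
        exact hb0 c hc j (by omega)
      · rw [hdeg]
        omega
    have hlt1 : ∀ c < 4 * g + 1, (q - 1) + 1 ≤ a c + E c := by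
      intro c hc
      show (q - 1) + 1 ≤ q - (c - 3 * g) + (if 2 * g ≤ c then 3 * g - c / 2 else 0)
      split_ifs <;> omega
    have hPd : ∀ c < 4 * g + 1, (X - 1) ∣ P c := by
      intro c hc
      show (X - 1) ∣ (X - 1) ^ (a c + E c - (q - 1)) * k0 c
      refine Dvd.dvd.mul_right (dvd_pow_self _ ?_) _
      have := hlt1 c hc
      omega
    have hev : (P (4 * g + 1)).eval 1 = 0 := by
      refine eval_last P hPb ?_ hPA
      intro c hc
      obtain ⟨r, hr⟩ := hPd c hc
      rw [hr]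
      simp
    have hPd' : (X - 1) ∣ P (4 * g + 1) := by
      rw [← C_1]
      exact dvd_iff_isRoot.2 hev
    have hex : ∀ c, ∃ p : ℝ[X], c < 2 * (2 * g + 1) → P c = (X - 1) * p := by
      intro c
      by_cases hc : c < 2 * (2 * g + 1)
      · rcases Nat.lt_or_ge c (4 * g + 1) with h5 | h5
        · obtain ⟨r, hr⟩ := hPd c h5
          exact ⟨r, fun _ => hr⟩
        · have h6 : c = 4 * g + 1 := by omega
          subst h6
          obtain ⟨r, hr⟩ := hPd'
          exact ⟨r, fun _ => hr⟩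
      · exact ⟨0, fun h => absurd h hc⟩
    choose p hp using hex
    have hpA : InA g (2 * g) (3 * g) p := inA_of_mul (inA_congr hp hPA)
    have hz := pstar (W := 2 * g) h1 h2 h3 h4 p ?_ ?_ hpA
    · have h5 := hz c₁ hc₁
      have h6 := hp c₁ hc₁
      rw [h5, mul_zero] at h6
      have h6' : (X - 1) ^ (a c₁ + E c₁ - (q - 1)) * k0 c₁ = 0 := h6
      rcases mul_eq_zero.1 h6' with h7 | h7
      · exact (hmon _).ne_zero h7
      · exact hk₁ h7
    · intro c hc i hi
      have hm1 : (X - 1 : ℝ[X]).Monic := by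
        have := hmon 1
        rwa [pow_one] at this
      have hd1 : (X - 1 : ℝ[X]).natDegree = 1 := by
        have := hdeg 1
        rwa [pow_one] at this
      refine bound_of_mul hm1 (6 * g) (be (2 * g) (3 * g) c + c) ?_ i ?_
      · intro j hj
        rw [← hp c hc]
        exact hPb c hc j (by omega)
      · rw [hd1]
        omega
    · intro c hc hWc
      rcases Nat.lt_or_ge c (4 * g + 1) with h5 | h5
      · have h6 := hp c hc
        have h7 : P c = (X - 1) * ((X - 1) ^ (a c + E c - (q - 1) - 1) * k0 c) := by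
          show (X - 1) ^ (a c + E c - (q - 1)) * k0 c = _
          rw [← mul_assoc, ← pow_succ']
          have := hlt1 c h5
          congr 2
          omega
        have h8 : p c = (X - 1) ^ (a c + E c - (q - 1) - 1) * k0 c := by
          have hne : (X - 1 : ℝ[X]) ≠ 0 := by
            rw [← C_1]
            exact X_sub_C_ne_zero 1
          exact mul_left_cancel₀ hne (by rw [← h6, h7])
        rw [h8]
        refine Dvd.dvd.mul_right (pow_dvd_pow _ ?_) _
        show 3 * g - c / 2 - (c - 3 * g) ≤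
          q - (c - 3 * g) + (if 2 * g ≤ c then 3 * g - c / 2 else 0) - (q - 1) - 1
        rw [if_pos hWc]
        omega
      · have h6 : 3 * g - c / 2 - (c - 3 * g) = 0 := by omega
        rw [h6, pow_zero]
        exact one_dvd _

end Pool.Agent.SplB
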