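import Pool.Agent.SplB.Lim
import Pool.Agent.SplB.Lone

/-!
# SplB/Main: the truncated base of the W-scheme

PAPER PROOF.  `F = K'((ε))`, `K' = ℝ((η))`, `x = 1 + η`, `ε = single 1 1`, `d₁ = (-1, 0)`, `d₂ = (-1 - ε, ε x)`, `b = c = (0, 1)`, `e = (1, -1)`.  The automorphism `X 2 ↦ X 2 + X 0` maps `ln d₁` to `X 2`, `ln d₂` to
`U2 x ε`, `X 2` to `X 2 + X 0` and fixes `vt b = X 1`, `vt e = X 0 - X 1`.  A solution of the pair problem gives `G` by `glue`; if `G ≠ 0` then `lim` (with `Z3 = Y ^ q Zc`, `Ze := Y ^ q Ze`) and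
`lone` give a contradiction; if `G = 0` then `X 2 ^ T ∣ Y ^ q M₁`, `U2 ^ T ∣ Y ^ q M₂`, and `ndvd` gives the claim.
-/

set_option autoImplicit false

namespace Pool.Agent.SplB

open SplW

section

open MvPolynomial

variable {L : Type*} [Field L]

/-- the automorphism `X 2 ↦ X 2 + X 0` -/
private noncomputable def MainPhi : MvPolynomial (Fin 3) L →ₐ[L] MvPolynomial (Fin 3) L :=
  aeval ![X 0, X 1, X 2 + X 0]

/-- its inverse -/
private noncomputable def MainPsi : MvPolynomial (Fin 3) L →ₐ[L] MvPolynomial (Fin 3) L :=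
  aeval ![X 0, X 1, X 2 - X 0]

private theorem MainPhi0 : (MainPhi (X 0 : MvPolynomial (Fin 3) L)) = X 0 := by
  simp [MainPhi]

private theorem MainPhi1 : (MainPhi (X 1 : MvPolynomial (Fin 3) L)) = X 1 := by
  simp [MainPhi]

private theorem MainPhi2 : (MainPhi (X 2 : MvPolynomial (Fin 3) L)) = X 2 + X 0 := by
  simp [MainPhi]

private theorem MainPsi0 : (MainPsi (X 0 : MvPolynomial (Fin 3) L)) = X 0 := by
  simp [MainPsi]

private theorem MainPsi1 : (MainPsi (X 1 : MvPolynomial (Fin 3) L)) = X 1 := by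
  simp [MainPsi]

private theorem MainPsi2 : (MainPsi (X 2 : MvPolynomial (Fin 3) L)) = X 2 - X 0 := by
  simp [MainPsi]

private theorem MainPsiPhi (f : MvPolynomial (Fin 3) L) : MainPsi (MainPhi f) = f := by
  have h : (MainPsi.comp MainPhi : MvPolynomial (Fin 3) L →ₐ[L] MvPolynomial (Fin 3) L) =
      AlgHom.id L _ := by
    refine MvPolynomial.algHom_ext fun i => ?_
    fin_cases i
    · change MainPsi (MainPhi (X 0)) = X 0
      rw [MainPhi0, MainPsi0]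
    · change MainPsi (MainPhi (X 1)) = X 1
      rw [MainPhi1, MainPsi1]
    · change MainPsi (MainPhi (X 2)) = X 2
      rw [MainPhi2, map_add, MainPsi2, MainPsi0]
      ring
  exact DFunLike.congr_fun h f

private theorem MainPhi_hom {f : MvPolynomial (Fin 3) L} {n : ℕ} (h : f.IsHomogeneous n) :
    (MainPhi f).IsHomogeneous n := by
  have h2 := h.aeval (![X 0, X 1, X 2 + X 0] : Fin 3 → MvPolynomial (Fin 3) L) (n := 1) (by
    intro i
    fin_cases i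
    · exact isHomogeneous_X _ _
    · exact isHomogeneous_X _ _
    · exact (isHomogeneous_X _ _).add (isHomogeneous_X _ _))
  rw [one_mul] at h2
  exact h2

private theorem MainPhi_deg (f : MvPolynomial (Fin 3) L) :
    degreeOf 2 (MainPhi f) ≤ degreeOf 2 f := by
  have e : MainPhi f = ∑ m ∈ f.support, MainPhi (monomial m (f.coeff m)) := by
    conv_lhs => rw [f.as_sum]
    rw [map_sum]
  rw [e]
  refine (degreeOf_sum_le _ _ _).trans (Finset.sup_le fun m hm => ?_)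
  have e2 : MainPhi (monomial m (f.coeff m)) =
      C (f.coeff m) * (X 0 ^ m 0 * X 1 ^ m 1 * (X 2 + X 0) ^ m 2) := by
    unfold MainPhi
    rw [aeval_monomial, algebraMap_eq]
    congr 1
    rw [Finsupp.prod_fintype _ _ (fun i => pow_zero _), Fin.prod_univ_three]
    rfl
  have h0 : degreeOf 2 (X 0 : MvPolynomial (Fin 3) L) = 0 := by
    rw [degreeOf_X]
    rfl
  have h1 : degreeOf 2 (X 1 : MvPolynomial (Fin 3) L) = 0 := by
    rw [degreeOf_X]
    rfl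
  have h2 : degreeOf 2 (X 2 : MvPolynomial (Fin 3) L) = 1 := by
    rw [degreeOf_X]
    rfl
  have h3 : degreeOf 2 (X 2 + X 0 : MvPolynomial (Fin 3) L) ≤ 1 := by
    refine (degreeOf_add_le _ _ _).trans ?_
    rw [h0, h2]
    exact (max_le le_rfl (Nat.zero_le _))
  rw [e2]
  refine (degreeOf_C_mul_le _ _ _).trans ?_
  refine (degreeOf_mul_le _ _ _).trans ?_
  have h4 : degreeOf 2 (X 0 ^ m 0 * X 1 ^ m 1 : MvPolynomial (Fin 3) L) ≤ 0 := by
    refine (degreeOf_mul_le _ _ _).trans ?_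
    refine (add_le_add (degreeOf_pow_le _ _ _) (degreeOf_pow_le _ _ _)).trans ?_
    rw [h0, h1]
    simp
  have h5 : degreeOf 2 ((X 2 + X 0) ^ m 2 : MvPolynomial (Fin 3) L) ≤ m 2 := by
    refine (degreeOf_pow_le _ _ _).trans ?_
    calc m 2 * degreeOf 2 (X 2 + X 0 : MvPolynomial (Fin 3) L) ≤ m 2 * 1 :=
          Nat.mul_le_mul_left _ h3
      _ = m 2 := mul_one _
  have h6 : m 2 ≤ degreeOf 2 f := monomial_le_degreeOf 2 hm
  omega

private theorem MainPhi_J {ρ a b : ℕ} {x y f : MvPolynomial (Fin 3) L} (h : f ∈ J ρ a b x y) :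
    MainPhi f ∈ J ρ a b (MainPhi x) (MainPhi y) := by
  have h1 := Ideal.mem_map_of_mem (MainPhi : MvPolynomial (Fin 3) L →ₐ[L] _) h
  have e : Ideal.map (MainPhi : MvPolynomial (Fin 3) L →ₐ[L] _) (J ρ a b x y) =
      J ρ a b (MainPhi x) (MainPhi y) := by
    unfold J
    rw [Ideal.map_sup, Ideal.map_sup, Ideal.map_pow, Ideal.map_span, Ideal.map_span,
      Ideal.map_span, Set.image_singleton, Set.image_singleton, Set.image_pair, map_pow, map_pow]
  rw [e] at h1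
  exact h1

private theorem MainJ_left {ρ a b : ℕ} {x y f g c : MvPolynomial (Fin 3) L}
    (h : f ∈ J ρ a b x y) (hd : x ^ a ∣ g - c * f) : g ∈ J ρ a b x y := by
  obtain ⟨k, hk⟩ := hd
  have e : g = c * f + k * x ^ a := by rw [← sub_eq_iff_eq_add', hk, mul_comm]
  rw [e]
  refine Ideal.add_mem _ (Ideal.mul_mem_left _ _ h) (Ideal.mul_mem_left _ _ ?_)
  exact Ideal.mem_sup_right (Ideal.mem_sup_left (Ideal.mem_span_singleton_self _))

private theorem MainJ_left' {ρ a b : ℕ} {x y f f' g c : MvPolynomial (Fin 3) L}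
    (h : f - f' ∈ J ρ a b x y) (hd : x ^ a ∣ g - c * f) : g - c * f' ∈ J ρ a b x y := by
  refine MainJ_left h (c := c) ?_
  have e : g - c * f' - c * (f - f') = g - c * f := by ring
  rw [e]
  exact hd

private theorem MainYl_deg (x : L) (q : ℕ) : degreeOf 2 (Yl x ^ q) = 0 := by
  have h0 : degreeOf 2 (X 0 : MvPolynomial (Fin 3) L) = 0 := by
    rw [degreeOf_X]
    rfl
  have h1 : degreeOf 2 (X 1 : MvPolynomial (Fin 3) L) = 0 := by
    rw [degreeOf_X]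
    rfl
  have h2 : degreeOf 2 (Yl x) = 0 := by
    refine Nat.le_zero.1 ?_
    unfold Yl
    refine (degreeOf_sub_le _ _ _).trans ?_
    refine max_le h0.le ?_
    exact (degreeOf_C_mul_le _ _ _).trans h1.le
  refine Nat.le_zero.1 ?_
  refine (degreeOf_pow_le _ _ _).trans ?_
  rw [h2, mul_zero]

private theorem MainDeg {x : L} {q W : ℕ} {f : MvPolynomial (Fin 3) L} (h : degreeOf 2 f < W) :
    ∀ m ∈ (Yl x ^ q * MainPhi f).support, m 2 < W := by
  intro m hm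
  have h1 := monomial_le_degreeOf 2 hm
  have h2 := degreeOf_mul_le 2 (Yl x ^ q) (MainPhi f)
  rw [MainYl_deg, zero_add] at h2
  have h3 := MainPhi_deg f
  omega

private theorem MainPair {ρ W : ℕ} (hρ : 1 ≤ ρ) (h5 : ρ ≤ 2 * W + 1) (x : L) {ε : L} (hε : ε ≠ 0)
    (key : ∀ G Z3 Ze : MvPolynomial (Fin 3) L, G ≠ 0 → G.IsHomogeneous (ρ + 2 * W) →
      (∀ m ∈ G.support, m 2 < 2 * (W + 1)) →
      G ∈ Ideal.span {Yl x ^ (2 * W + 1 - ρ)} ⊔ Ideal.span {Yl x, X 2} ^ (2 * W + 1) →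
      G ∈ J ρ (W + 1) W (X 2) (X 2 + X 0) →
      G ∈ J ρ (W + 1) W (U2 x ε) (X 2 + X 0) →
      G ∈ J ρ (W + 1) (W + 1) (X 2) (X 1) →
      G - Z3 ∈ J ρ (W + 1) (W + 1) (U2 x ε) (X 1) →
      Z3 ∈ J ρ (W + 1) W (X 1) (X 2 + X 0) → (∀ m ∈ Z3.support, m 2 < W) →
      G - Ze ∈ J ρ (W + 1) (W + 1) (X 2) (X 0 - X 1) →
      G - Ze ∈ J ρ (W + 1) (W + 1) (U2 x ε) (X 0 - X 1) → (∀ m ∈ Ze.support, m 2 < W) → False) :
    Pair ρ W ![-1, 0] ![-1 - ε, ε * x] ![0, 1] ![0, 1] ![1, -1] := by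
  intro M₁ M₂ Zc Ze hM₁ hM₂ _ _ hZc hZe a1 a2 a3 a4 a5 a6 a7 a8
  have f1 : MainPhi (ln (![-1, 0] : Fin 2 → L)) = X 2 := by
    unfold ln vt
    simp [MainPhi0, MainPhi2]
  have f2 : MainPhi (ln (![-1 - ε, ε * x] : Fin 2 → L)) = U2 x ε := by
    unfold ln vt U2 Yl
    simp only [map_add, map_mul, MainPhi0, MainPhi1, MainPhi2, Matrix.cons_val_zero,
      Matrix.cons_val_one, algHom_C, algebraMap_eq, map_sub, map_neg, map_one]
    ring
  have f3 : MainPhi (vt (![0, 1] : Fin 2 → L)) = X 1 := by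
    unfold vt
    simp [MainPhi1]
  have f4 : MainPhi (vt (![1, -1] : Fin 2 → L)) = X 0 - X 1 := by
    unfold vt
    simp [MainPhi0, MainPhi1]
    ring
  have b1 := MainPhi_J a1
  have b2 := MainPhi_J a2
  have b3 := MainPhi_J a3
  have b4 := MainPhi_J a4
  have b5 := MainPhi_J a5
  have b6 := MainPhi_J a6
  have b7 := MainPhi_J a7
  have b8 := MainPhi_J a8
  rw [map_sub] at b5 b6 b7 b8
  rw [f1] at b1 b4 b5 b7
  rw [f2] at b2 b5 b6 b8
  rw [f3] at b3 b4 b6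
  rw [f4] at b7 b8
  rw [MainPhi2] at b1 b2 b3
  obtain ⟨G, g1, g2, g3, g4, g5⟩ := glue hρ h5 x hε (MainPhi_hom hM₁) (MainPhi_hom hM₂) b5
  by_cases hG : G = 0
  · rw [hG, zero_sub, dvd_neg] at g3 g4
    have e1 : (X 2 : MvPolynomial (Fin 3) L) = C 0 * X 0 + C 0 * X 1 + X 2 := by simp
    have e2 : U2 x ε = C (-ε) * X 0 + C (ε * x) * X 1 + X 2 := by
      unfold U2 Yl
      simp only [map_neg, map_mul]
      ring
    have c1 : X 2 ^ (W + 1) ∣ MainPhi M₁ := by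
      have c := ndvd 0 0 x (W + 1) (2 * W + 1 - ρ) (f := MainPhi M₁)
      rw [← e1] at c
      exact c g3
    have c2 : U2 x ε ^ (W + 1) ∣ MainPhi M₂ := by
      have c := ndvd (-ε) (ε * x) x (W + 1) (2 * W + 1 - ρ) (f := MainPhi M₂)
      rw [← e2] at c
      exact c g4
    rw [← f1, ← map_pow] at c1
    rw [← f2, ← map_pow] at c2
    have c3 := map_dvd (MainPsi (L := L)) c1
    have c4 := map_dvd (MainPsi (L := L)) c2
    rw [MainPsiPhi, MainPsiPhi] at c3 c4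
    exact ⟨c3, c4⟩
  · exfalso
    exact key G (Yl x ^ (2 * W + 1 - ρ) * MainPhi Zc) (Yl x ^ (2 * W + 1 - ρ) * MainPhi Ze)
      hG g1 g2 g5 (MainJ_left b1 g3) (MainJ_left b2 g4) (MainJ_left b4 g3) (MainJ_left' b6 g4)
      (Ideal.mul_mem_left _ _ b3) (MainDeg hZc) (MainJ_left' b7 g3) (MainJ_left' b8 g4)
      (MainDeg hZe)

private theorem MainDt {x ε : L} (h1 : ε ≠ 0) (h2 : x ≠ 0) (h3 : -1 - ε ≠ 0)
    (h4 : 1 + ε - ε * x ≠ 0) (h5 : x ≠ 1) :
    dt (![-1, 0] : Fin 2 → L) ![-1 - ε, ε * x] ≠ 0 ∧ dt (![-1, 0] : Fin 2 → L) ![0, 1] ≠ 0 ∧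
      dt (![-1, 0] : Fin 2 → L) ![1, -1] ≠ 0 ∧ dt (![-1 - ε, ε * x] : Fin 2 → L) ![0, 1] ≠ 0 ∧
      dt (![-1 - ε, ε * x] : Fin 2 → L) ![1, -1] ≠ 0 ∧
      dt (![-1, 0] : Fin 2 → L) ![1, -1] ≠ dt (![-1 - ε, ε * x] : Fin 2 → L) ![1, -1] := by
  refine ⟨?_, ?_, ?_, ?_, ?_, ?_⟩
  · have e : dt (![-1, 0] : Fin 2 → L) ![-1 - ε, ε * x] = -(ε * x) := by
      simp [dt]
    rw [e]
    exact neg_ne_zero.2 (mul_ne_zero h1 h2)
  · simp [dt]
  · simp [dt]
  · have e : dt (![-1 - ε, ε * x] : Fin 2 → L) ![0, 1] = -1 - ε := by simp [dt]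
    rw [e]
    exact h3
  · have e : dt (![-1 - ε, ε * x] : Fin 2 → L) ![1, -1] = 1 + ε - ε * x := by
      simp [dt]
      ring
    rw [e]
    exact h4
  · have e : dt (![-1 - ε, ε * x] : Fin 2 → L) ![1, -1] = 1 + ε - ε * x := by
      simp [dt]
      ring
    have e' : dt (![-1, 0] : Fin 2 → L) ![1, -1] = 1 := by simp [dt]
    rw [e, e']
    intro h
    have h6 : ε * (1 - x) = 0 := by linear_combination -h
    rcases mul_eq_zero.1 h6 with h7 | h7
    · exact h1 h7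
    · exact h5 (sub_eq_zero.1 h7).symm

private theorem MainCZ (K : Type*) [Field K] [CharZero K] : CharZero (LaurentSeries K) :=
  charZero_of_injective_ringHom (f := (HahnSeries.C : K →+* LaurentSeries K))
    (RingHom.injective _)

private theorem MainNe (K : Type*) [Field K] (x : K) :
    (-1 - HahnSeries.single 1 1 : LaurentSeries K) ≠ 0 ∧
    (1 + HahnSeries.single 1 1 - HahnSeries.single 1 1 * HahnSeries.C x : LaurentSeries K) ≠ 0 := by
  constructor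
  · intro h
    have h6 := congrArg (fun s : LaurentSeries K => s.coeff 0) h
    simp at h6
  · rw [HahnSeries.C_apply, HahnSeries.single_mul_single, add_zero, one_mul]
    intro h
    have h6 := congrArg (fun s : LaurentSeries K => s.coeff 0) h
    simp at h6

private theorem MainEx (K : Type) [Field K] [CharZero K] {x : K} (hx0 : x ≠ 0) (hx1 : x ≠ 1)
    {ρ W : ℕ}
    (hρ : 1 ≤ ρ) (h5 : ρ ≤ 2 * W + 1)
    (key : ∀ G Z3 Ze : MvPolynomial (Fin 3) (LaurentSeries K), G ≠ 0 →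
      G.IsHomogeneous (ρ + 2 * W) →
      (∀ m ∈ G.support, m 2 < 2 * (W + 1)) →
      G ∈ Ideal.span {Yl (HahnSeries.C x) ^ (2 * W + 1 - ρ)} ⊔
        Ideal.span {Yl (HahnSeries.C x), X 2} ^ (2 * W + 1) →
      G ∈ J ρ (W + 1) W (X 2) (X 2 + X 0) →
      G ∈ J ρ (W + 1) W (U2 (HahnSeries.C x) (HahnSeries.single 1 1)) (X 2 + X 0) →
      G ∈ J ρ (W + 1) (W + 1) (X 2) (X 1) →
      G - Z3 ∈ J ρ (W + 1) (W + 1) (U2 (HahnSeries.C x) (HahnSeries.single 1 1)) (X 1) →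
      Z3 ∈ J ρ (W + 1) W (X 1) (X 2 + X 0) → (∀ m ∈ Z3.support, m 2 < W) →
      G - Ze ∈ J ρ (W + 1) (W + 1) (X 2) (X 0 - X 1) →
      G - Ze ∈ J ρ (W + 1) (W + 1) (U2 (HahnSeries.C x) (HahnSeries.single 1 1)) (X 0 - X 1) →
      (∀ m ∈ Ze.support, m 2 < W) → False) :
    ∃ (F : Type) (_ : Field F) (_ : CharZero F) (d₁ d₂ b c e : Fin 2 → F),
      dt d₁ d₂ ≠ 0 ∧ dt d₁ b ≠ 0 ∧ dt d₁ e ≠ 0 ∧ dt d₂ c ≠ 0 ∧ dt d₂ e ≠ 0 ∧
      dt d₁ e ≠ dt d₂ e ∧ Pair ρ W d₁ d₂ b c e := by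
  have hε0 : (HahnSeries.single 1 1 : LaurentSeries K) ≠ 0 :=
    HahnSeries.single_ne_zero one_ne_zero
  have hξ0 : (HahnSeries.C x : LaurentSeries K) ≠ 0 :=
    (map_ne_zero (HahnSeries.C : K →+* LaurentSeries K)).2 hx0
  have hξ1 : (HahnSeries.C x : LaurentSeries K) ≠ 1 := by
    intro h
    rw [← map_one (HahnSeries.C : K →+* LaurentSeries K)] at h
    exact hx1 (RingHom.injective _ h)
  obtain ⟨n1, n2⟩ := MainNe K x
  obtain ⟨d1, d2, d3, d4, d5, d6⟩ := MainDt hε0 hξ0 n1 n2 hξ1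
  exact ⟨LaurentSeries K, inferInstance, MainCZ K, _, _, _, _, _, d1, d2, d3, d4, d5, d6,
    MainPair hρ h5 _ hε0 key⟩

end

/-- **the special position** -/
theorem special {ρ : ℕ} (hρ : 2 ≤ ρ) (W : ℕ) (hW : W = ρ - (ρ + 2) / 3) : Special ρ W := by
  obtain ⟨g, hg⟩ : ∃ g, g = (ρ + 2) / 3 := ⟨_, rfl⟩
  have h1 : W + g = ρ := by omega
  have h2 : ρ ≤ 3 * g := by omega
  have h3 : 3 * g ≤ ρ + 2 := by omega
  have h5 : ρ ≤ 2 * W + 1 := by omega
  have hx0 : (1 + HahnSeries.single 1 1 : LaurentSeries ℝ) ≠ 0 := by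
    intro h
    have h6 := congrArg (fun s : LaurentSeries ℝ => s.coeff 0) h
    simp at h6
  have hx1 : (1 + HahnSeries.single 1 1 : LaurentSeries ℝ) ≠ 1 := by
    intro h
    have h6 := congrArg (fun s : LaurentSeries ℝ => s.coeff 1) h
    simp at h6
  have : CharZero (LaurentSeries ℝ) := MainCZ ℝ
  refine MainEx (LaurentSeries ℝ) hx0 hx1 (by omega) h5 ?_
  intro G Z3 Ze hG g1 g2 g5 c1 c2 c3 c4 c5 c6 c7 c8 c9
  obtain ⟨f, hf, c, hc, hfc⟩ := lim h1 h2 h3 hρ hx0 hx1 hG g1 g2 g5 c1 c2 c3 c4 c5 c6 c7 c8 c9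
  exact hfc (lone h1 h2 h3 hρ f hf c hc)

end Pool.Agent.SplB
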