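import Mathlib

/-!
# SplB/Node: the node lemma (note 1939, Step 2)

`A[X][X]`: the inner variable is the parameter `p = C X`, the outer variable is `y = X`.  `lnA a b = y - a - b p`, `nI ρ T' T l = (p, l)^ρ + (p^T') + (l^T)`,
`lv l f ∈ A[X]` is the coefficient of `p ^ l`, a polynomial in `y`.
PAPER PROOFS.  `mem_nI`: for `l = y` the ideal is monomial (`Ideal.span {p, y} ^ ρ` is spanned by the `p ^ i y ^ j`, `i + j = ρ`; compare coefficients, both inclusions).
The automorphism `y ↦ y + a + b p` (`Polynomial.eval₂RingHom`/`comp`, inverse `y ↦ y - a - b p`) maps `lnA a b` to `y` and fixes `p`.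
`colon`: by the automorphism we may assume `lnA a b = y`, then it is clear from `mem_nI`.
`lv_mem` (`b = 0`): the automorphism `y ↦ y + a` acts on every level separately; `mem_nI` gives `(X - C a) ^ min (ρ - l) T ∣ lv l f`.
`node`: induction on `T'`, all `ρ`, `f`, `P`.  Level `0`: reduce modulo `p` (`lv 0` is the ring homomorphism `map (evalRingHom 0)`): `lv 0 f - lv 0 (P v) ∈
((y - a_v) ^ min ρ T)`.  If `T ≤ ρ` then both `(y - a₁) ^ T` and `(y - a₂) ^ T` divide `lv 0 f - lv 0 (P v)`, of degree `< 2 T`, so it is `0`.  If `ρ < T` then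
`lv 0 f - lv 0 (P v) = (y - a_v) ^ ρ h` and, as `y - a_v = lnA a_v b_v + b_v p`, its image in `A[X][X]` is in `(p, lnA a_v b_v) ^ ρ`.  In both cases
`f - P v - (lv 0 f - lv 0 (P v)).map C ∈ nI`, and it is `p` times `f' - P' v` where `lv l f' = lv (l+1) f` and `lv l (P' v) = lv (l+1) (P v)`.  `colon` and induction
with `ρ - 1`, `T' - 1` (`ρ = 0` or `T' = 0`: nothing to prove).
-/

set_option autoImplicit false

namespace Pool.Agent.SplB

open Polynomial

section

variable {A : Type*} [CommRing A]

/-- `y - a - b p` -/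
noncomputable def lnA (a b : A) : A[X][X] := X - C (C a + C b * X)

/-- `(p, l)^ρ + (p^T') + (l^T)` -/
noncomputable def nI (ρ T' T : ℕ) (l : A[X][X]) : Ideal A[X][X] :=
  Ideal.span {C X, l} ^ ρ ⊔ (Ideal.span {(C X) ^ T'} ⊔ Ideal.span {l ^ T})

/-- the coefficient of `p ^ l` as a polynomial in `y` -/
noncomputable def lv (l : ℕ) (f : A[X][X]) : A[X] := ∑ c ∈ f.support, monomial c ((f.coeff c).coeff l)

theorem coeff_lv (l c : ℕ) (f : A[X][X]) : (lv l f).coeff c = (f.coeff c).coeff l := by
  unfold lv
  rw [finsetSum_coeff]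
  simp only [coeff_monomial]
  rw [Finset.sum_ite_eq']
  split_ifs with h
  · rfl
  · rw [notMem_support_iff.1 h, coeff_zero]

/-- the set of the coefficients which vanish -/
private def vI (S : ℕ → ℕ → Prop) (hS : ∀ c l c' l', S c l → c' ≤ c → l' ≤ l → S c' l') :
    Ideal A[X][X] where
  carrier := {f | ∀ c l, S c l → (f.coeff c).coeff l = 0}
  zero_mem' := by
    intro c l _
    simp
  add_mem' := by
    intro f g hf hg c l h
    rw [coeff_add, coeff_add, hf c l h, hg c l h, add_zero]
  smul_mem' := by
    intro g f hf c l h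
    rw [smul_eq_mul, coeff_mul, finsetSum_coeff]
    refine Finset.sum_eq_zero fun x hx => ?_
    rw [coeff_mul]
    refine Finset.sum_eq_zero fun z hz => ?_
    have h1 := Finset.HasAntidiagonal.mem_antidiagonal.1 hx
    have h2 := Finset.HasAntidiagonal.mem_antidiagonal.1 hz
    rw [hf x.2 z.2 (hS c l x.2 z.2 h (by omega) (by omega)), mul_zero]

private theorem mem_vI {S : ℕ → ℕ → Prop} {hS : ∀ c l c' l', S c l → c' ≤ c → l' ≤ l → S c' l'}
    {f : A[X][X]} : f ∈ vI S hS ↔ ∀ c l, S c l → (f.coeff c).coeff l = 0 := Iff.rfl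

private theorem span_pow_le (ρ : ℕ) : (Ideal.span {C X, X} : Ideal A[X][X]) ^ ρ ≤
    vI (fun c l => c + l < ρ) (fun c l c' l' h h1 h2 => by omega) := by
  induction ρ with
  | zero =>
    intro f _
    rw [mem_vI]
    intro c l h
    omega
  | succ ρ ih =>
    have hps : (Ideal.span {C X, X} : Ideal A[X][X]) ^ (ρ + 1) =
        Ideal.span {C X, X} ^ ρ * Ideal.span {C X, X} := Submodule.pow_succ _
    rw [hps]
    refine Ideal.mul_le.2 fun f hf g hg => ?_
    rw [Ideal.mem_span_pair] at hg
    obtain ⟨u, v, rfl⟩ := hg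
    have hf' := ih hf
    rw [mul_add]
    refine add_mem ?_ ?_
    · have : f * (u * C X) = u * (f * C X) := by ring
      rw [this]
      refine Ideal.mul_mem_left _ _ ?_
      rw [mem_vI] at hf' ⊢
      intro c l h
      rw [coeff_mul_C]
      rcases l with _ | l
      · simp
      · rw [coeff_mul_X]
        exact hf' c l (by omega)
    · have : f * (v * X) = v * (f * X) := by ring
      rw [this]
      refine Ideal.mul_mem_left _ _ ?_
      rw [mem_vI] at hf' ⊢
      intro c l h
      rcases c with _ | c
      · simp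
      · rw [coeff_mul_X]
        exact hf' c l (by omega)

theorem mem_nI {ρ T' T : ℕ} {f : A[X][X]} : f ∈ nI ρ T' T X ↔
    ∀ c l, c + l < ρ → l < T' → c < T → (f.coeff c).coeff l = 0 := by
  constructor
  · intro h
    have key : nI ρ T' T (X : A[X][X]) ≤ vI (fun c l => c + l < ρ ∧ l < T' ∧ c < T)
        (fun c l c' l' h h1 h2 => by omega) := by
      unfold nI
      refine sup_le ?_ (sup_le ?_ ?_)
      · intro g hg
        have := span_pow_le ρ hg
        rw [mem_vI] at this ⊢
        exact fun c l h => this c l h.1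
      · rw [Ideal.span_singleton_le_iff_mem, mem_vI]
        intro c l h
        rw [← C_pow, coeff_C]
        split_ifs with h1
        · rw [coeff_X_pow, if_neg (by omega)]
        · rw [coeff_zero]
      · rw [Ideal.span_singleton_le_iff_mem, mem_vI]
        intro c l h
        rw [coeff_X_pow, if_neg (by omega), coeff_zero]
    have := key h
    rw [mem_vI] at this
    exact fun c l h1 h2 h3 => this c l ⟨h1, h2, h3⟩
  · intro h
    rw [f.as_sum_support_C_mul_X_pow]
    refine sum_mem fun c _ => ?_
    rw [(f.coeff c).as_sum_support_C_mul_X_pow]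
    rw [map_sum, Finset.sum_mul]
    refine sum_mem fun l _ => ?_
    rw [map_mul, map_pow, mul_assoc]
    by_cases h1 : c + l < ρ
    · by_cases h2 : l < T'
      · by_cases h3 : c < T
        · rw [h c l h1 h2 h3]
          simp
        · refine Ideal.mul_mem_left _ _ ?_
          refine Ideal.mul_mem_left _ _ ?_
          refine Ideal.mem_sup_right (Ideal.mem_sup_right ?_)
          exact Ideal.mem_span_singleton.2 (pow_dvd_pow _ (by omega))
      · refine Ideal.mul_mem_left _ _ ?_
        refine Ideal.mul_mem_right _ _ ?_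
        refine Ideal.mem_sup_right (Ideal.mem_sup_left ?_)
        exact Ideal.mem_span_singleton.2 (pow_dvd_pow _ (by omega))
    · refine Ideal.mul_mem_left _ _ ?_
      refine Ideal.mem_sup_left ?_
      have h4 : (C X : A[X][X]) ^ l * X ^ c ∈ (Ideal.span {C X, X} : Ideal A[X][X]) ^ (l + c) := by
        have hpa : (Ideal.span {C X, X} : Ideal A[X][X]) ^ (l + c) =
            Ideal.span {C X, X} ^ l * Ideal.span {C X, X} ^ c :=
          pow_add (Ideal.span {C X, X} : Ideal A[X][X]) l c
        rw [hpa]
        exact Ideal.mul_mem_mul (Ideal.pow_mem_pow (Ideal.subset_span (by simp)) _)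
          (Ideal.pow_mem_pow (Ideal.subset_span (by simp)) _)
      exact Ideal.pow_le_pow_right (by omega) h4

private theorem map_nI {φ : A[X][X] →+* A[X][X]} (h1 : φ (C X) = C X) {ρ T' T : ℕ} {l l' : A[X][X]}
    (h2 : φ l = l') {f : A[X][X]} (hf : f ∈ nI ρ T' T l) : φ f ∈ nI ρ T' T l' := by
  have := Ideal.mem_map_of_mem φ hf
  unfold nI at this ⊢
  rw [Ideal.map_sup, Ideal.map_sup, Ideal.map_pow, Ideal.map_span, Ideal.map_span, Ideal.map_span,
    Set.image_pair, Set.image_singleton, Set.image_singleton, map_pow, map_pow, h1, h2] at this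
  exact this

private theorem shift_mem {ρ T' T : ℕ} {a b : A} {f : A[X][X]} (hf : f ∈ nI ρ T' T (lnA a b)) :
    f.comp (X + C (C a + C b * X)) ∈ nI ρ T' T X := by
  have := map_nI (φ := compRingHom (X + C (C a + C b * X))) (l' := X) (by simp)
    (by rw [coe_compRingHom_apply]; unfold lnA; rw [sub_comp, X_comp, C_comp]; ring) hf
  rwa [coe_compRingHom_apply] at this

private theorem mem_of_shift {ρ T' T : ℕ} {a b : A} {f : A[X][X]}
    (hf : f.comp (X + C (C a + C b * X)) ∈ nI ρ T' T X) : f ∈ nI ρ T' T (lnA a b) := by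
  have := map_nI (φ := compRingHom (X - C (C a + C b * X))) (l' := lnA a b) (by simp)
    (by rw [coe_compRingHom_apply]; unfold lnA; rw [X_comp]) hf
  rw [coe_compRingHom_apply, comp_assoc, add_comp, X_comp, C_comp, sub_add_cancel, comp_X] at this
  exact this

private theorem lv_C_mul_map (l : ℕ) (z : A[X]) (h : A[X]) :
    lv l (C z * h.map C) = C (z.coeff l) * h := by
  ext c
  rw [coeff_lv, coeff_C_mul, coeff_map, coeff_C_mul, coeff_mul_C]

private theorem lv_add (l : ℕ) (f g : A[X][X]) : lv l (f + g) = lv l f + lv l g := by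
  ext c
  rw [coeff_lv, coeff_add, coeff_add, coeff_add, coeff_lv, coeff_lv]

private theorem lv_sub (l : ℕ) (f g : A[X][X]) : lv l (f - g) = lv l f - lv l g := by
  ext c
  rw [coeff_lv, coeff_sub, coeff_sub, coeff_sub, coeff_lv, coeff_lv]

private theorem lv_comp (l : ℕ) (a : A) (f : A[X][X]) :
    lv l (f.comp (X + C (C a))) = (lv l f).comp (X + C a) := by
  induction f using Polynomial.induction_on' with
  | add p q hp hq => rw [add_comp, lv_add, hp, hq, lv_add, add_comp]
  | monomial c z =>
    have h1 : (X + C (C a) : A[X][X]) = (X + C a : A[X]).map C := by simp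
    have h2 : (monomial c z : A[X][X]) = C z * (X ^ c : A[X]).map C := by
      rw [Polynomial.map_pow, map_X, C_mul_X_pow_eq_monomial]
    have h3 : (monomial c z : A[X][X]).comp (X + C (C a)) = C z * ((X + C a) ^ c : A[X]).map C := by
      rw [monomial_comp, h1, Polynomial.map_pow]
    rw [h3, lv_C_mul_map, h2, lv_C_mul_map, mul_comp, C_comp, pow_comp, X_comp]

theorem lv_mem {ρ T' T : ℕ} {a : A} {f : A[X][X]} (h : f ∈ nI ρ T' T (lnA a 0)) {l : ℕ}
    (hl : l < T') : (X - C a) ^ min (ρ - l) T ∣ lv l f := by
  have h1 := shift_mem h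
  rw [C_0, zero_mul, add_zero, mem_nI] at h1
  have h2 : X ^ min (ρ - l) T ∣ (lv l f).comp (X + C a) := by
    rw [X_pow_dvd_iff]
    intro c hc
    rw [← lv_comp, coeff_lv]
    exact h1 c l (by omega) hl (by omega)
  obtain ⟨q, hq⟩ := h2
  refine ⟨q.comp (X - C a), ?_⟩
  have h3 : ((lv l f).comp (X + C a)).comp (X - C a) = (X ^ min (ρ - l) T * q).comp (X - C a) := by
    rw [hq]
  rw [comp_assoc, add_comp, X_comp, C_comp, sub_add_cancel, comp_X, mul_comp, pow_comp, X_comp] at h3
  exact h3

theorem colon {ρ T' T : ℕ} {a b : A} {f : A[X][X]}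
    (h : C X * f ∈ nI (ρ + 1) (T' + 1) T (lnA a b)) : f ∈ nI ρ T' T (lnA a b) := by
  have h1 := shift_mem h
  rw [mul_comp, C_comp, mem_nI] at h1
  refine mem_of_shift (mem_nI.2 fun c l hcl hl hc => ?_)
  have h2 := h1 c (l + 1) (by omega) (by omega) hc
  rw [coeff_C_mul, coeff_X_mul] at h2
  exact h2

/-- division by `p` -/
private noncomputable def dv (f : A[X][X]) : A[X][X] :=
  ∑ c ∈ f.support, monomial c ((f.coeff c).divX)

private theorem coeff_dv (c : ℕ) (f : A[X][X]) : (dv f).coeff c = (f.coeff c).divX := by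
  unfold dv
  rw [finsetSum_coeff]
  simp only [coeff_monomial]
  rw [Finset.sum_ite_eq']
  split_ifs with h
  · rfl
  · rw [notMem_support_iff.1 h, divX_zero]

private theorem lv_dv (l : ℕ) (f : A[X][X]) : lv l (dv f) = lv (l + 1) f := by
  ext c
  rw [coeff_lv, coeff_dv, coeff_lv, coeff_divX]

private theorem dv_eq (f : A[X][X]) : C X * dv f + (lv 0 f).map C = f := by
  ext1 c
  rw [coeff_add, coeff_C_mul, coeff_dv, coeff_map, coeff_lv, mul_comm, divX_mul_X_add]

/-- level `0` -/
private theorem lv_zero_mem {ρ T' T : ℕ} {a b : A} {f : A[X][X]}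
    (h : f ∈ nI ρ (T' + 1) T (lnA a b)) : (X - C a) ^ min ρ T ∣ lv 0 f := by
  have h0 : lv 0 f = mapRingHom (constantCoeff (R := A)) f := by
    ext c
    rw [coeff_lv, coe_mapRingHom, coeff_map, constantCoeff_apply]
  rw [h0, ← Ideal.mem_span_singleton]
  have h1 := Ideal.mem_map_of_mem (mapRingHom (constantCoeff (R := A))) h
  have hX : mapRingHom (constantCoeff (R := A)) (C X) = 0 := by simp
  have hl : mapRingHom (constantCoeff (R := A)) (lnA a b) = X - C a := by
    unfold lnA
    simp
  unfold nI at h1
  rw [Ideal.map_sup, Ideal.map_sup, Ideal.map_pow, Ideal.map_span, Ideal.map_span, Ideal.map_span,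
    Set.image_pair, Set.image_singleton, Set.image_singleton, map_pow, map_pow, hX, hl] at h1
  have key : (Ideal.span {0, X - C a} : Ideal A[X]) ^ ρ ⊔
      (Ideal.span {0 ^ (T' + 1)} ⊔ Ideal.span {(X - C a) ^ T}) ≤
      Ideal.span {(X - C a) ^ min ρ T} := by
   refine (sup_le ?_ (sup_le ?_ ?_))
   · have : (Ideal.span {0, X - C a} : Ideal A[X]) = Ideal.span {X - C a} := by
       rw [Ideal.span_insert]
       simp
     rw [this, Ideal.span_singleton_pow, Ideal.span_singleton_le_span_singleton]
     exact pow_dvd_pow _ (min_le_left _ _)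
   · rw [Ideal.span_singleton_le_iff_mem, zero_pow (by omega)]
     exact zero_mem _
   · rw [Ideal.span_singleton_le_span_singleton]
     exact pow_dvd_pow _ (min_le_right _ _)
  exact key h1

end

/-- **the node lemma** -/
theorem node {L : Type*} [Field L] {ρ T' T : ℕ} {a b : Fin 2 → L} (hab : a 0 ≠ a 1)
    {f : L[X][X]} (hf : f.degree < (2 * T : ℕ)) {P : Fin 2 → L[X][X]}
    (hP : ∀ v, f - P v ∈ nI ρ T' T (lnA (a v) (b v)))
    (hP' : ∀ l < T', T ≤ ρ - l → lv l (P 0) = lv l (P 1) ∧ (lv l (P 0)).degree < (2 * T : ℕ)) :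
    ∀ v, ∀ l < T', (X - C (a v)) ^ min (ρ - l) T ∣ lv l f - lv l (P v) := by
  induction T' generalizing ρ f P with
  | zero =>
    intro v l hl
    omega
  | succ T' ih =>
    rcases ρ with _ | ρ
    · intro v l _
      simp
    · -- level zero
      have hlev : ∀ v, (X - C (a v)) ^ min (ρ + 1) T ∣ lv 0 f - lv 0 (P v) := by
        intro v
        rw [← lv_sub]
        exact lv_zero_mem (hP v)
      have hmem : ∀ v, (lv 0 f - lv 0 (P v)).map C ∈ nI (ρ + 1) (T' + 1) T (lnA (a v) (b v)) := by
        intro v
        by_cases hT : T ≤ ρ + 1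
        · obtain ⟨e1, e2⟩ := hP' 0 (by omega) (by omega)
          have h0 := hlev 0
          have h1 := hlev 1
          rw [min_eq_right hT] at h0 h1
          rw [← e1] at h1
          have hcop : IsCoprime ((X - C (a 0)) ^ T) ((X - C (a 1)) ^ T : L[X]) :=
            (pairwise_coprime_X_sub_C (s := ![a 0, a 1]) (by
              intro i j hij
              fin_cases i <;> fin_cases j <;> simp_all) (i := 0) (j := 1) (by simp)).pow
          have hdvd := hcop.mul_dvd h0 h1
          have hzero : lv 0 f - lv 0 (P 0) = 0 := by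
            refine eq_zero_of_dvd_of_degree_lt hdvd ?_
            have hd : ((X - C (a 0)) ^ T * (X - C (a 1)) ^ T : L[X]).degree = (2 * T : ℕ) := by
              rw [degree_mul, degree_pow, degree_pow, degree_X_sub_C, degree_X_sub_C]
              simp only [nsmul_eq_mul, mul_one]
              push_cast
              ring
            rw [hd]
            refine lt_of_le_of_lt (degree_sub_le _ _) (max_lt ?_ e2)
            rw [degree_lt_iff_coeff_zero] at hf ⊢
            intro c hc
            rw [coeff_lv, hf c hc, coeff_zero]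
          have hv : lv 0 f - lv 0 (P v) = 0 := by
            fin_cases v
            · exact hzero
            · show lv 0 f - lv 0 (P 1) = 0
              rw [← e1]
              exact hzero
          rw [hv, Polynomial.map_zero]
          exact zero_mem _
        · obtain ⟨q, hq⟩ := hlev v
          rw [min_eq_left (by omega)] at hq
          rw [hq, Polynomial.map_mul, Polynomial.map_pow]
          refine Ideal.mul_mem_right _ _ (Ideal.mem_sup_left (Ideal.pow_mem_pow ?_ _))
          rw [Ideal.mem_span_pair]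
          refine ⟨C (C (b v)), 1, ?_⟩
          unfold lnA
          simp only [Polynomial.map_sub, map_X, map_C, map_add, map_mul]
          ring
      have hcol : ∀ v, dv f - dv (P v) ∈ nI ρ T' T (lnA (a v) (b v)) := by
        intro v
        refine colon ?_
        have h1 := sub_mem (hP v) (hmem v)
        have h2 : f - P v - (lv 0 f - lv 0 (P v)).map C = C X * (dv f - dv (P v)) := by
          have e1 := dv_eq f
          have e2 := dv_eq (P v)
          rw [Polynomial.map_sub]
          linear_combination -e1 + e2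
        rwa [h2] at h1
      have hdeg : (dv f).degree < (2 * T : ℕ) := by
        rw [degree_lt_iff_coeff_zero] at hf ⊢
        intro c hc
        rw [coeff_dv, hf c hc, divX_zero]
      have hP'' : ∀ l < T', T ≤ ρ - l → lv l (dv (P 0)) = lv l (dv (P 1)) ∧
          (lv l (dv (P 0))).degree < (2 * T : ℕ) := by
        intro l hl hT
        rw [lv_dv, lv_dv]
        exact hP' (l + 1) (by omega) (by omega)
      intro v l hl
      rcases l with _ | l
      · rw [Nat.sub_zero]
        exact hlev v
      · have := ih (P := fun v => dv (P v)) hdeg hcol hP'' v l (by omega)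
        simp only [lv_dv] at this
        rw [Nat.add_sub_add_right]
        exact this

end Pool.Agent.SplB
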