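import Pool.Agent.SplU.Pi

/-!
# SplB/PiA: the statement `(Pi)` with the shift `a`

PAPER PROOF (note 1939, Step 7).  Points `(j, N)`: `N = 2 g + a + 1 + m - 2 j`, `j + m ≤ g - 2`, and the extra point `(0, 2 g + a)`.  Put `k = g - j`, `ν = N - a + 1`,
`d = g - 1`: all the points lie in the triangle `{(1 + α + β, 3 + 2 α + 3 β) : α + β ≤ d}` of theorem `U` (`α = k - 1 - β`, `β = ν - 2 k - 1`; for `j + m ≤ g - 2`:
`ν = 2 g + 2 + m - 2 j = 2 k + 2 + m`, so `β = m + 1`, `α = g - j - m - 2`; the extra point: `β = 0`, `α = g - 1`).  The conditions for `2 i ≤ v ≤ 2 d - 2 i` say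
that the functional kills `j ^ i N (N-1) ... (N - 2 i + 1) p(N)`, `deg p ≤ 2 d - 4 i`, `i ≤ d / 2`, and `N (N-1) ... (N - 2 i + 1) = ∏_{l < 2 i} (ν - (l + 1 - a))`:
theorem `U` with the roots `e_l = l - a` (`l = 1, 2, ...`; `e_{2i-1}, e_{2i} < 2 i + 1`), which is `SplU.unisolv` with the factors `nu - l + (a - 1)` instead of
`nu - l` (in `levels` use `level_div` with `M = a + 1` and `M = a` instead of `2`, `1`: `e = 2 (I + 1) - M`).  The system of `U` is square, so `U` gives
functions with prescribed values (as in `SplU.surjU`), and the functional is zero.  The case `a = 1` uses `SplU.surjU` directly.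
-/

set_option autoImplicit false

namespace Pool.Agent.SplB

open Finset Polynomial

/-- surjective form of `SplU.thmUs` -/
theorem surjUs (κ : ℝ) (σ d : ℕ) (v : ℕ → ℕ → ℝ) : ∃ p : ℕ → ℝ[X],
    (∀ j ≤ d / 2, (p j).natDegree + 4 * j ≤ 2 * d) ∧
    ∀ a b : ℕ, a + b ≤ d → ∑ j ∈ range (d / 2 + 1), (κ + (a : ℝ) + b) ^ j *
      (∏ l ∈ range (2 * j), (3 + 2 * (a : ℝ) + 3 * b + σ - 1 - l)) *
        (p j).eval (3 + 2 * (a : ℝ) + 3 * b) = v a b := by
  classical
  let I := (Σ j : Fin (d / 2 + 1), Fin (2 * d - 4 * (j : ℕ) + 1))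
  let T := (Σ n : Fin (d + 1), Fin ((n : ℕ) + 1))
  let ka : T → ℝ := fun t => κ + (((t.1 : ℕ) - (t.2 : ℕ) : ℕ) : ℝ) + ((t.2 : ℕ) : ℝ)
  let nn : T → ℝ := fun t => 3 + 2 * (((t.1 : ℕ) - (t.2 : ℕ) : ℕ) : ℝ) + 3 * ((t.2 : ℕ) : ℝ)
  let M : Matrix T I ℝ := fun t js =>
    ka t ^ (js.1 : ℕ) * (∏ l ∈ range (2 * (js.1 : ℕ)), (nn t + σ - 1 - l)) * nn t ^ (js.2 : ℕ)
  let pol : (I → ℝ) → ℕ → ℝ[X] := fun c j =>
    if h : j < d / 2 + 1 then
      ∑ s : Fin (2 * d - 4 * j + 1), C (c ⟨⟨j, h⟩, s⟩) * X ^ (s : ℕ) else 0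
  have hpol : ∀ c (t : T), (Matrix.mulVecLin M c) t
      = ∑ j ∈ range (d / 2 + 1), ka t ^ j * (∏ l ∈ range (2 * j), (nn t + σ - 1 - l)) *
        (pol c j).eval (nn t) := by
    intro c t
    rw [Matrix.mulVecLin_apply, Matrix.mulVec, dotProduct, Fintype.sum_sigma,
      ← Fin.sum_univ_eq_sum_range (fun j => ka t ^ j * (∏ l ∈ range (2 * j), (nn t + σ - 1 - l)) *
        (pol c j).eval (nn t))]
    refine Finset.sum_congr rfl (fun j _ => ?_)
    simp only [pol, dif_pos j.2, eval_finsetSum, eval_mul, eval_C, eval_pow, eval_X,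
      Finset.mul_sum]
    refine Finset.sum_congr rfl (fun s _ => ?_)
    simp only [M]
    ring
  have hdeg : ∀ c, ∀ j ≤ d / 2, (pol c j).natDegree + 4 * j ≤ 2 * d := by
    intro c j hj
    have h1 : (pol c j).natDegree ≤ 2 * d - 4 * j := by
      simp only [pol, dif_pos (Nat.lt_succ_of_le hj)]
      apply natDegree_sum_le_of_forall_le
      intro s _
      refine (natDegree_C_mul_X_pow_le _ _).trans ?_
      have := s.2
      omega
    omega
  have hinj : Function.Injective (Matrix.mulVecLin M) := by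
    rw [← LinearMap.ker_eq_bot, LinearMap.ker_eq_bot']
    intro c hc
    have h0 := SplU.thmUs κ σ d (pol c) (hdeg c) (by
      intro a b hab
      have h1 := hpol c ⟨⟨a + b, by omega⟩, ⟨b, by simp only; omega⟩⟩
      rw [hc] at h1
      simp only [ka, nn, Nat.add_sub_cancel] at h1
      rw [← h1]; rfl)
    funext js
    obtain ⟨j, s⟩ := js
    have h1 := h0 j (by have := j.2; omega)
    have h2 : (pol c j).coeff s = c ⟨j, s⟩ := by
      simp only [pol, dif_pos j.2, finsetSum_coeff, coeff_C_mul, coeff_X_pow]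
      rw [Finset.sum_eq_single s]
      · simp
      · intro b _ hb
        rw [if_neg (fun h => hb (Fin.ext h.symm)), mul_zero]
      · intro h; exact absurd (Finset.mem_univ _) h
    rw [← h2, h1, coeff_zero]; rfl
  have hcard : Fintype.card I = Fintype.card T := by
    rw [Fintype.card_sigma, Fintype.card_sigma]
    simp only [Fintype.card_fin]
    rw [Fin.sum_univ_eq_sum_range (fun j => 2 * d - 4 * j + 1),
      Fin.sum_univ_eq_sum_range (fun n => n + 1), SplU.card_aux]
  have hsurj : Function.Surjective (Matrix.mulVecLin M) := by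
    rw [← LinearMap.injective_iff_surjective_of_finrank_eq_finrank]
    · exact hinj
    · rw [Module.finrank_fintype_fun_eq_card, Module.finrank_fintype_fun_eq_card, hcard]
  obtain ⟨c, hc⟩ := hsurj (fun t => v ((t.1 : ℕ) - (t.2 : ℕ)) t.2)
  refine ⟨pol c, hdeg c, fun a b hab => ?_⟩
  have h1 := hpol c ⟨⟨a + b, by omega⟩, ⟨b, by simp only; omega⟩⟩
  rw [hc] at h1
  simp only [ka, nn, Nat.add_sub_cancel] at h1
  exact h1.symm

theorem thmPiA (a g : ℕ) (ha : a ≤ 2) (hg : 1 ≤ g) (x : ℕ → ℕ → ℝ) (x0 : ℝ)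
    (h : ∀ i v : ℕ, 2 * i ≤ v → v + 2 * i + 2 ≤ 2 * g →
      (if i = 0 then x0 * ∏ t ∈ range v, (2 * (g : ℝ) + a - t) else 0) +
        ∑ jm ∈ (range g ×ˢ range g).filter (fun jm => jm.1 + jm.2 + 2 ≤ g),
          x jm.1 jm.2 * ((∏ t ∈ range i, ((jm.1 : ℝ) - t)) *
            ∏ t ∈ range v, ((2 * (g : ℝ) + a + 1 + jm.2 - 2 * jm.1) - t)) = 0) :
    x0 = 0 ∧ ∀ j m, j + m + 2 ≤ g → x j m = 0 := by
  classical
  have _ := ha
  set S := (range g ×ˢ range g).filter (fun jm => jm.1 + jm.2 + 2 ≤ g) with hS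
  let s : Finset (Option (ℕ × ℕ)) := insertNone S
  let y : Option (ℕ × ℕ) → ℝ := fun o => o.elim x0 (fun jm => x jm.1 jm.2)
  let J : Option (ℕ × ℕ) → ℝ := fun o => o.elim 0 (fun jm => (jm.1 : ℝ))
  let NN : Option (ℕ × ℕ) → ℝ := fun o =>
    o.elim (2 * (g : ℝ) + a) (fun jm => 2 * (g : ℝ) + a + 1 + jm.2 - 2 * jm.1)
  have hsum : ∀ f : ℝ → ℝ → ℝ, ∑ o ∈ s, y o * f (J o) (NN o)
      = x0 * f 0 (2 * (g : ℝ) + a) + ∑ jm ∈ S, x jm.1 jm.2 * f (jm.1 : ℝ)
          (2 * (g : ℝ) + a + 1 + jm.2 - 2 * jm.1) := by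
    intro f
    simp only [s, Finset.sum_insertNone, y, J, NN, Option.elim]
  have h1 : ∀ i v : ℕ, 2 * i ≤ v → v + 2 * i + 2 ≤ 2 * g →
      ∑ o ∈ s, y o * ((∏ t ∈ range i, (J o - t)) * ∏ t ∈ range v, (NN o - t)) = 0 := by
    intro i v hiv hvg
    rw [hsum (fun a b => (∏ t ∈ range i, (a - t)) * ∏ t ∈ range v, (b - t))]
    refine Eq.trans ?_ (h i v hiv hvg)
    congr 1
    rcases Nat.eq_zero_or_pos i with rfl | hi
    · simp
    · rw [if_neg (by omega)]
      have : ∏ t ∈ range i, ((0 : ℝ) - t) = 0 :=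
        Finset.prod_eq_zero (Finset.mem_range.2 hi) (by simp)
      rw [this, zero_mul, mul_zero]
  have h2 : ∀ i v : ℕ, 2 * i ≤ v → v + 2 * i + 2 ≤ 2 * g →
      ∑ o ∈ s, y o * (J o ^ i * ∏ t ∈ range v, (NN o - t)) = 0 := by
    intro i v hiv hvg
    have h3 := SplU.fall_span s (fun o => y o * ∏ t ∈ range v, (NN o - t)) J i i 0 (by omega)
      (by
        intro w _ hw
        have := h1 w v (by omega) (by omega)
        refine Eq.trans ?_ this
        refine Finset.sum_congr rfl (fun o _ => by ring))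
    refine Eq.trans ?_ h3
    refine Finset.sum_congr rfl (fun o _ => ?_)
    rw [Finset.range_zero, Finset.prod_empty]; ring
  have h3 : ∀ i (q : ℝ[X]), q.natDegree + 4 * i + 2 ≤ 2 * g →
      ∑ o ∈ s, y o * (J o ^ i * ((∏ t ∈ range (2 * i), (NN o - t)) * q.eval (NN o))) = 0 := by
    intro i q hq
    have := SplU.fall_span_poly s (fun o => y o * J o ^ i) NN (2 * g - 2 - 2 * i) (2 * i) q
      (by omega)
      (by
        intro w hw hw'
        have := h2 i w hw (by omega)
        refine Eq.trans ?_ this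
        refine Finset.sum_congr rfl (fun o _ => by ring))
    refine Eq.trans ?_ this
    refine Finset.sum_congr rfl (fun o _ => by ring)
  obtain ⟨d, rfl⟩ : ∃ d, g = d + 1 := ⟨g - 1, by omega⟩
  -- functions with prescribed values
  have key : ∀ v : ℕ → ℕ → ℝ, x0 * v d 0 + ∑ jm ∈ S, x jm.1 jm.2 *
      v (d - 1 - jm.1 - jm.2) (jm.2 + 1) = 0 := by
    intro v
    obtain ⟨p, hp, hpe⟩ := surjUs (- (d : ℝ)) a d v
    have h4 : ∀ j ∈ range (d / 2 + 1), ∑ o ∈ s, y o *
        (J o ^ j * ((∏ t ∈ range (2 * j), (NN o - t)) *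
          ((p j).comp (X + C (1 - (a : ℝ)))).eval (NN o))) = 0 := by
      intro j hj
      rw [Finset.mem_range] at hj
      have := hp j (by omega)
      refine h3 j _ ?_
      have e : ((p j).comp (X + C (1 - (a : ℝ)))).natDegree = (p j).natDegree := by
        rw [natDegree_comp, natDegree_X_add_C, mul_one]
      rw [e]; omega
    have h4' : ∑ j ∈ range (d / 2 + 1), (-1 : ℝ) ^ j * ∑ o ∈ s, y o *
        (J o ^ j * ((∏ t ∈ range (2 * j), (NN o - t)) *
          ((p j).comp (X + C (1 - (a : ℝ)))).eval (NN o))) = 0 :=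
      Finset.sum_eq_zero (fun j hj => by rw [h4 j hj, mul_zero])
    have h5 : ∑ o ∈ s, y o * (∑ j ∈ range (d / 2 + 1), (- J o) ^ j *
        (∏ t ∈ range (2 * j), (NN o - t)) *
          ((p j).comp (X + C (1 - (a : ℝ)))).eval (NN o)) = 0 := by
      refine Eq.trans ?_ h4'
      simp_rw [Finset.mul_sum]
      rw [Finset.sum_comm]
      refine Finset.sum_congr rfl (fun j _ => Finset.sum_congr rfl (fun o _ => ?_))
      rw [neg_pow (J o)]; ring
    rw [hsum (fun k b => ∑ j ∈ range (d / 2 + 1), (- k) ^ j *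
        (∏ t ∈ range (2 * j), (b - t)) * ((p j).comp (X + C (1 - (a : ℝ)))).eval b)] at h5
    refine Eq.trans ?_ h5
    congr 1
    · congr 1
      rw [← hpe d 0 (by omega)]
      refine Finset.sum_congr rfl (fun t _ => ?_)
      rw [eval_comp, eval_add, eval_X, eval_C]
      congr 1
      · congr 1
        · congr 1; push_cast; ring
        · refine Finset.prod_congr rfl (fun l _ => ?_)
          push_cast; ring
      · congr 1; push_cast; ring
    · refine Finset.sum_congr rfl (fun jm hjm => ?_)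
      rw [hS, Finset.mem_filter] at hjm
      obtain ⟨_, hjm⟩ := hjm
      obtain ⟨j, m⟩ := jm
      simp only at hjm ⊢
      congr 1
      rw [← hpe (d - 1 - j - m) (m + 1) (by omega)]
      have e1 : ((d - 1 - j - m : ℕ) : ℝ) = (d : ℝ) - 1 - j - m := by
        rw [Nat.cast_sub (by omega), Nat.cast_sub (by omega), Nat.cast_sub (by omega)]
        simp
      rw [e1]
      refine Finset.sum_congr rfl (fun t _ => ?_)
      rw [eval_comp, eval_add, eval_X, eval_C]
      congr 1
      · congr 1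
        · congr 1; push_cast; ring
        · refine Finset.prod_congr rfl (fun l _ => ?_)
          push_cast; ring
      · congr 1; push_cast; ring
  have hx : x0 = 0 := by
    have h4 := key (fun a b => if b = 0 then 1 else 0)
    rw [Finset.sum_eq_zero, add_zero] at h4
    · simpa using h4
    · intro jm _
      rw [if_neg (by omega), mul_zero]
  refine ⟨hx, ?_⟩
  intro j m hjm
  have hmem : (j, m) ∈ S := by
    rw [hS, Finset.mem_filter, Finset.mem_product, Finset.mem_range, Finset.mem_range]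
    simp only
    omega
  have h4 := key (fun a b => if a = d - 1 - j - m ∧ b = m + 1 then 1 else 0)
  rw [hx, zero_mul, zero_add, Finset.sum_eq_single (j, m)] at h4
  · simpa using h4
  · intro jm hjm' hne
    rw [hS, Finset.mem_filter] at hjm'
    split_ifs with hcond
    · exfalso
      apply hne
      obtain ⟨c1, c2⟩ := hcond
      have c3 : jm.2 = m := by omega
      have : jm.1 = j := by omega
      exact Prod.ext this c3
    · rw [mul_zero]
  · intro h; exact absurd hmem h

end Pool.Agent.SplB
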