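import Pool.Agent.SplB.Defs
import Pool.Agent.SplB.PiA

/-!
# SplB/PStar: the problem `P*` has only the zero solution (note 1939, Steps 5-7)
-/

set_option autoImplicit false

namespace Pool.Agent.SplB

open Polynomial

/-! ### generalities -/

theorem coeff_th {A : Type*} [CommRing A] (N : ℕ) (f : ℕ → A[X]) (d c : ℕ) :
    (th N f d).coeff c = if c < N ∧ c ≤ d then (f c).coeff (d - c) else 0 := by
  unfold th
  rw [finsetSum_coeff]
  by_cases hc : c < N
  · rw [Finset.sum_eq_single c]
    · by_cases hd : c ≤ d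
      · rw [if_pos hd, if_pos ⟨hc, hd⟩, coeff_C_mul_X_pow, if_pos rfl]
      · rw [if_neg hd, if_neg (fun h => hd h.2), coeff_zero]
    · intro b _ hb
      split_ifs
      · rw [coeff_C_mul_X_pow, if_neg (Ne.symm hb)]
      · rw [coeff_zero]
    · intro h
      exact absurd (Finset.mem_range.2 hc) h
  · rw [if_neg (fun h => hc h.1)]
    refine Finset.sum_eq_zero fun b hb => ?_
    rw [Finset.mem_range] at hb
    split_ifs
    · rw [coeff_C_mul_X_pow, if_neg (by omega)]
    · rw [coeff_zero]

/-- the coefficients of `f c` from the graded pieces -/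
theorem coeff_of_th {A : Type*} [CommRing A] {N : ℕ} (f : ℕ → A[X]) {c : ℕ} (hc : c < N) (u : ℕ) :
    (f c).coeff u = (th N f (c + u)).coeff c := by
  rw [coeff_th, if_pos ⟨hc, by omega⟩, Nat.add_sub_cancel_left]

private theorem X_pow_dvd_of {n A : ℕ} {p : ℝ[X]} (h : X ^ n ∣ (1 + X) ^ A * p) : X ^ n ∣ p := by
  have h1 : IsCoprime (X : ℝ[X]) (1 + X) := ⟨-1, 1, by ring⟩
  exact (h1.pow (m := n) (n := A)).dvd_of_dvd_mul_left h

private theorem sum_choose_coeff {f : ℝ[X]} {E l : ℕ} (h : (X - 1) ^ E ∣ f) (hl : l < E) (M : ℕ)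
    (hM : ∀ u, M ≤ u → f.coeff u = 0) : ∑ u ∈ Finset.range M, (u.choose l : ℝ) * f.coeff u = 0 := by
  have h1 : (taylor 1 f).coeff l = 0 := by
    obtain ⟨q, rfl⟩ := h
    have h2 : taylor 1 ((X - 1) ^ E * q) = X ^ E * taylor 1 q := by
      rw [taylor_apply, taylor_apply, mul_comp, pow_comp, sub_comp, X_comp, one_comp, C_1,
        add_sub_cancel_right]
    rw [h2, coeff_X_pow_mul', if_neg (by omega)]
  rw [taylor_coeff, hasseDeriv_apply, sum_def, eval_finsetSum] at h1
  rw [← h1]
  symm
  have h2 : f.support ⊆ Finset.range M := by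
    intro u hu
    rw [Finset.mem_range]
    by_contra h3
    exact (mem_support_iff.1 hu) (hM u (by omega))
  rw [← Finset.sum_subset h2]
  · refine Finset.sum_congr rfl fun u _ => ?_
    rw [eval_monomial, one_pow, mul_one]
  · intro u _ hu
    rw [notMem_support_iff.1 hu, mul_zero]

/-- the reflection of `(1 + X) ^ A * R` -/
private theorem coeff_reflect_mul {A M e : ℕ} {R : ℝ[X]} (hR : R.natDegree ≤ M) (he : e ≤ A + M) :
    ((1 + X) ^ A * R).coeff e = ((1 + X) ^ A * reflect M R).coeff (A + M - e) := by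
  have h1 : reflect A ((1 + X) ^ A : ℝ[X]) = (1 + X) ^ A := by
    ext i
    rw [coeff_reflect]
    by_cases hi : i ≤ A
    · rw [revAt_le hi, coeff_one_add_X_pow, coeff_one_add_X_pow, Nat.choose_symm hi]
    · rw [revAt_eq_self_of_lt (by omega)]
  have h2 : ((1 + X) ^ A : ℝ[X]).natDegree ≤ A := by
    refine (natDegree_pow_le).trans ?_
    have : (1 + X : ℝ[X]).natDegree ≤ 1 := by
      rw [add_comm, ← C_1]
      exact (natDegree_X_add_C _).le
    nlinarith
  have h3 := reflect_mul ((1 + X) ^ A : ℝ[X]) R h2 hR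
  rw [h1] at h3
  rw [← h3, coeff_reflect, revAt_le (Nat.sub_le _ _)]
  congr 1
  omega

/-- the expansion in powers of `1 + X` -/
private theorem coeff_taylor_mul {A M e : ℕ} {R : ℝ[X]} (hR : R.natDegree ≤ M) :
    ((1 + X) ^ A * R).coeff e =
      ∑ y ∈ Finset.range (M + 1), (taylor (-1) R).coeff y * ((A + y).choose e : ℝ) := by
  have h1 : R = ∑ y ∈ Finset.range (M + 1), C ((taylor (-1) R).coeff y) * (1 + X) ^ y := by
    have h2 : taylor 1 (taylor (-1) R) = R := by
      rw [taylor_taylor, add_neg_cancel, taylor_zero]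
    conv_lhs => rw [← h2]
    rw [taylor_apply, comp, eval₂_eq_sum_range' C (n := M + 1)]
    · refine Finset.sum_congr rfl fun y _ => ?_
      rw [C_1, add_comm X]
    · rw [natDegree_taylor]
      omega
  conv_lhs => rw [h1]
  rw [Finset.mul_sum, finsetSum_coeff]
  refine Finset.sum_congr rfl fun y _ => ?_
  rw [show (1 + X : ℝ[X]) ^ A * (C ((taylor (-1) R).coeff y) * (1 + X) ^ y) =
    C ((taylor (-1) R).coeff y) * (1 + X) ^ (A + y) by ring, coeff_C_mul, coeff_one_add_X_pow]

private theorem prod_desc (N v : ℕ) :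
    ∏ t ∈ Finset.range v, ((N : ℝ) - t) = (N.descFactorial v : ℝ) := by
  induction v with
  | zero => simp
  | succ v ih =>
    rw [Finset.prod_range_succ, ih, Nat.descFactorial_succ, Nat.cast_mul, mul_comm]
    rcases le_or_gt v N with h | h
    · rw [Nat.cast_sub h]
    · rw [Nat.descFactorial_of_lt h, Nat.cast_zero, mul_zero, mul_zero]

private theorem fact_id (N j m i : ℕ) :
    (m + i).factorial * (m + j).choose (m + i) * (N + j).choose (m + j) *
      (N.factorial * j.factorial) =
      (N + j).factorial * (j.descFactorial i * N.descFactorial m) := by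
  rcases le_or_gt i j with hij | hij
  · rcases le_or_gt m N with hmN | hmN
    · have h1 := Nat.choose_mul_factorial_mul_factorial (show m + i ≤ m + j by omega)
      have h2 := Nat.choose_mul_factorial_mul_factorial (show m + j ≤ N + j by omega)
      rw [show m + j - (m + i) = j - i by omega] at h1
      rw [show N + j - (m + j) = N - m by omega] at h2
      have h3 := Nat.factorial_mul_descFactorial hmN
      have h4 := Nat.factorial_mul_descFactorial hij
      have h5 : 0 < (j - i).factorial * (N - m).factorial * (m + j).factorial := by positivity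
      refine Nat.eq_of_mul_eq_mul_left h5 ?_
      calc _ = ((m + j).choose (m + i) * (m + i).factorial * (j - i).factorial) *
            ((N + j).choose (m + j) * (m + j).factorial * (N - m).factorial) *
            (N.factorial * j.factorial) := by ring
        _ = (m + j).factorial * (N + j).factorial * (N.factorial * j.factorial) := by rw [h1, h2]
        _ = _ := by rw [← h3, ← h4]; ring
    · rw [Nat.choose_eq_zero_of_lt (show N + j < m + j by omega), Nat.descFactorial_of_lt hmN]
      simp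
  · rw [Nat.choose_eq_zero_of_lt (show m + j < m + i by omega), Nat.descFactorial_of_lt hij]
    simp

/-! ### the rows -/

/-- the number of unknowns in the row `j` -/
private def Lr (g' j : ℕ) : ℕ := if j = 0 then g' else g' - 1 - j

/-- the exponent of `1 + X` in the row `j` -/
private def Ar (W j : ℕ) : ℕ := if j = 0 then W else W + 1 - j

private theorem th_big {g W ρ : ℕ} (h1 : W + g = ρ) (h2 : ρ ≤ 3 * g) (f : ℕ → ℝ[X])
    (hb : ∀ c < 2 * (W + 1), ∀ i, 2 * ρ - 1 < c + i + be W ρ c → (f c).coeff i = 0)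
    (hg : 1 ≤ g) (hgW : g ≤ W) {d : ℕ} (hd : ρ + W ≤ d) : th (2 * (W + 1)) f d = 0 := by
  ext c
  rw [coeff_th, coeff_zero]
  split_ifs with h
  · refine hb c h.1 _ ?_
    have h5 : g ≤ be W ρ c := by
      unfold be
      rw [le_min_iff]
      constructor <;> omega
    omega
  · rfl

private theorem row {a g' g W ρ : ℕ} (ha : a ≤ 2) (e1 : g = g' + a) (e2 : W = 2 * g' + a)
    (e3 : ρ = 3 * g' + 2 * a) (h4 : 2 ≤ ρ) (f : ℕ → ℝ[X])
    (hb : ∀ c < 2 * (W + 1), ∀ i, 2 * ρ - 1 < c + i + be W ρ c → (f c).coeff i = 0)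
    (hA : InA g W ρ f) (j : ℕ) : ∃ τ : ℕ → ℝ,
      (∀ m ≤ ρ + g - 1, ρ + g - 1 - m < 2 * (W + 1) →
        (th (2 * (W + 1)) f (ρ + g - 1 + j)).coeff (ρ + g - 1 - m) =
          ∑ y ∈ Finset.range (Lr g' j), τ y * ((Ar W j + y).choose (m + j) : ℝ)) ∧
      ((∀ y < Lr g' j, τ y = 0) → th (2 * (W + 1)) f (ρ + g - 1 + j) = 0) := by
  by_cases hj : W ≤ g - 1 + j
  · have h5 := th_big (g := g) (by omega) (by omega) f hb (by omega) (by omega)
      (show ρ + W ≤ ρ + g - 1 + j by omega)
    refine ⟨fun _ => 0, fun m _ _ => ?_, fun _ => h5⟩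
    rw [h5]
    simp
  push Not at hj
  have hjg : j ≤ g' := by omega
  obtain ⟨α, hα, hdvd⟩ := hA (ρ + g - 1 + j)
  have hn0 : n0 g W ρ (ρ + g - 1 + j) = Ar W j := by
    unfold n0 Ar
    split_ifs with h0
    · subst h0
      omega
    · omega
  rw [hn0] at hα hdvd
  have hX : X ^ (g' + 2 * a + 3 * j) ∣ α := by
    refine X_pow_dvd_of (A := Ar W j) ?_
    have h5 : X ^ (g' + 2 * a + 3 * j) ∣ th (2 * (W + 1)) f (ρ + g - 1 + j) := by
      rw [X_pow_dvd_iff]
      intro c hc
      rw [coeff_th]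
      split_ifs with h
      · refine hb c h.1 _ ?_
        have h6 : W + 1 - j ≤ be W ρ c := by
          unfold be
          rw [le_min_iff]
          constructor <;> omega
        omega
      · rfl
    have h6 : X ^ (g' + 2 * a + 3 * j) ∣ th (2 * (W + 1)) f (ρ + g - 1 + j) -
        (1 + X) ^ Ar W j * α := (pow_dvd_pow X (by omega)).trans hdvd
    have h7 := dvd_sub h5 h6
    rwa [sub_sub_cancel] at h7
  obtain ⟨R, rfl⟩ := hX
  have hR : ∀ x, Lr g' j ≤ x → R.coeff x = 0 := by
    intro x hx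
    have h5 := hα (x + (g' + 2 * a + 3 * j)) (by
      unfold Lr at hx
      unfold Ar
      split_ifs at hx ⊢ <;> omega)
    rwa [mul_comm, coeff_mul_X_pow] at h5
  have hco : ∀ c < 2 * (W + 1), (th (2 * (W + 1)) f (ρ + g - 1 + j)).coeff c =
      (X ^ (g' + 2 * a + 3 * j) * ((1 + X) ^ Ar W j * R)).coeff c := by
    intro c hc
    obtain ⟨Q, hQ⟩ := hdvd
    have h5 := congrArg (fun P => coeff P c) hQ
    simp only [coeff_sub] at h5
    rw [coeff_X_pow_mul', if_neg (by omega)] at h5
    rw [← sub_eq_zero, ← h5]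
    congr 2
    ring
  rcases Nat.eq_zero_or_pos (Lr g' j) with hL | hL
  · have hR0 : R = 0 := by
      ext x
      rw [hR x (by omega), coeff_zero]
    have h5 : th (2 * (W + 1)) f (ρ + g - 1 + j) = 0 := by
      ext c
      by_cases hc : c < 2 * (W + 1)
      · rw [hco c hc, hR0]
        simp
      · rw [coeff_th, if_neg (fun h => hc h.1), coeff_zero]
    refine ⟨fun _ => 0, fun m _ _ => ?_, fun _ => h5⟩
    rw [h5]
    simp
  obtain ⟨M, hM⟩ : ∃ M, Lr g' j = M + 1 := ⟨Lr g' j - 1, by omega⟩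
  have hRM : R.natDegree ≤ M := by
    rw [natDegree_le_iff_coeff_eq_zero]
    intro x hx
    exact hR x (by omega)
  have hrM : (reflect M R).natDegree ≤ M := by
    rw [natDegree_le_iff_coeff_eq_zero]
    intro x hx
    rw [coeff_reflect, revAt_eq_self_of_lt hx]
    exact hR x (by omega)
  refine ⟨fun y => (taylor (-1) (reflect M R)).coeff y, fun m hm hm' => ?_, fun h => ?_⟩
  · rw [hco _ hm', hM, ← coeff_taylor_mul hrM, coeff_X_pow_mul']
    have hAM : Ar W j + M + (g' + 2 * a + 3 * j) = ρ + g - 1 + j := by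
      unfold Lr at hM
      unfold Ar
      split_ifs at hM ⊢ <;> omega
    split_ifs with h5
    · rw [coeff_reflect_mul hRM (by omega)]
      congr 1
      omega
    · symm
      refine coeff_eq_zero_of_natDegree_lt ?_
      refine lt_of_le_of_lt natDegree_mul_le ?_
      have h6 : ((1 + X : ℝ[X]) ^ Ar W j).natDegree ≤ Ar W j := by
        refine (natDegree_pow_le).trans ?_
        have : (1 + X : ℝ[X]).natDegree ≤ 1 := by
          rw [add_comm, ← C_1]
          exact (natDegree_X_add_C _).le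
        nlinarith
      omega
  · have h5 : taylor (-1) (reflect M R) = 0 := by
      ext y
      rw [coeff_zero]
      by_cases hy : y ≤ M
      · exact h y (by omega)
      · refine coeff_eq_zero_of_natDegree_lt ?_
        rw [natDegree_taylor]
        omega
    have h6 : reflect M R = 0 := by
      have h7 : taylor 1 (taylor (-1) (reflect M R)) = reflect M R := by
        rw [taylor_taylor, add_neg_cancel, taylor_zero]
      rw [← h7, h5, map_zero]
    have h7 : R = 0 := by
      rwa [reflect_eq_zero_iff] at h6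
    ext c
    by_cases hc : c < 2 * (W + 1)
    · rw [hco c hc, h7]
      simp
    · rw [coeff_th, if_neg (fun h => hc h.1), coeff_zero]

/-! ### the linear system -/

private theorem filter_sum (g' : ℕ) (F : ℕ → ℕ → ℝ) :
    ∑ jm ∈ (Finset.range g' ×ˢ Finset.range g').filter (fun jm => jm.1 + jm.2 + 2 ≤ g'),
      F jm.1 jm.2 = ∑ j ∈ Finset.range g', ∑ y ∈ Finset.range (g' - 1 - j), F j y := by
  rw [Finset.sum_filter, Finset.sum_product]
  refine Finset.sum_congr rfl fun j hj => ?_
  rw [← Finset.sum_filter]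
  refine Finset.sum_congr ?_ fun _ _ => rfl
  ext y
  rw [Finset.mem_filter, Finset.mem_range, Finset.mem_range]
  omega

private theorem key_eq {a g' g W ρ : ℕ} (ha : a ≤ 2) (e1 : g = g' + a) (e2 : W = 2 * g' + a)
    (e3 : ρ = 3 * g' + 2 * a) (h4 : 2 ≤ ρ) (f : ℕ → ℝ[X])
    (hb : ∀ c < 2 * (W + 1), ∀ i, 2 * ρ - 1 < c + i + be W ρ c → (f c).coeff i = 0)
    (he : ∀ c < 2 * (W + 1), W ≤ c → (X - 1) ^ (ρ - c / 2 - (c - ρ)) ∣ f c)
    {i m : ℕ} (hi : 2 * i ≤ m) (him : m + 2 * i + 2 ≤ 2 * g') :
    ∑ j ∈ Finset.range (g' + 1), ((m + j).choose (m + i) : ℝ) *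
      (th (2 * (W + 1)) f (ρ + g - 1 + j)).coeff (ρ + g - 1 - m) = 0 := by
  have hc : ρ + g - 1 - m < 2 * (W + 1) := by omega
  have h5 := sum_choose_coeff (l := m + i) (he (ρ + g - 1 - m) hc (by omega)) (by omega)
    (m + (g' + 1)) (fun u hu => by
      rw [coeff_of_th f hc, th_big (g := g) (by omega) (by omega) f hb (by omega) (by omega)
        (by omega), coeff_zero])
  rw [Finset.sum_range_add] at h5
  rw [Finset.sum_eq_zero (s := Finset.range m), zero_add] at h5
  · rw [← h5]
    refine Finset.sum_congr rfl fun j _ => ?_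
    rw [coeff_of_th f hc]
    congr 3
    omega
  · intro u hu
    rw [Finset.mem_range] at hu
    rw [Nat.choose_eq_zero_of_lt (by omega), Nat.cast_zero, zero_mul]

private theorem high {a g' g W ρ : ℕ} (ha : a ≤ 2) (e1 : g = g' + a) (e2 : W = 2 * g' + a)
    (e3 : ρ = 3 * g' + 2 * a) (h4 : 2 ≤ ρ) (f : ℕ → ℝ[X])
    (hb : ∀ c < 2 * (W + 1), ∀ i, 2 * ρ - 1 < c + i + be W ρ c → (f c).coeff i = 0)
    (he : ∀ c < 2 * (W + 1), W ≤ c → (X - 1) ^ (ρ - c / 2 - (c - ρ)) ∣ f c)
    (hA : InA g W ρ f) (j : ℕ) : th (2 * (W + 1)) f (ρ + g - 1 + j) = 0 := by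
  choose τ hτ hτ' using row ha e1 e2 e3 h4 f hb hA
  rcases Nat.eq_zero_or_pos g' with hg0 | hg0
  · refine hτ' j fun y hy => ?_
    unfold Lr at hy
    split_ifs at hy <;> omega
  -- the weights
  let x : ℕ → ℕ → ℝ := fun j y => if j = 0 then τ 0 (y + 1) else
    τ j y * (((2 * g' + a + 1 + y - 2 * j + j).factorial : ℝ) /
      ((2 * g' + a + 1 + y - 2 * j).factorial * j.factorial))
  have hsys := thmPiA a g' ha hg0 x (τ 0 0) (fun i m hi him => by
    have h5 := key_eq ha e1 e2 e3 h4 f hb he hi him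
    have h6 : ∀ j ∈ Finset.range (g' + 1), ((m + j).choose (m + i) : ℝ) *
        (th (2 * (W + 1)) f (ρ + g - 1 + j)).coeff (ρ + g - 1 - m) =
        ((m + j).choose (m + i) : ℝ) *
          ∑ y ∈ Finset.range (Lr g' j), τ j y * ((Ar W j + y).choose (m + j) : ℝ) := by
      intro j _
      rw [hτ j m (by omega) (by omega)]
    rw [Finset.sum_congr rfl h6, Finset.sum_range_succ] at h5
    have h7 : Lr g' g' = 0 := by
      unfold Lr
      rw [if_neg (by omega)]
      omega
    rw [h7, Finset.range_zero, Finset.sum_empty, mul_zero, add_zero] at h5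
    obtain ⟨G, rfl⟩ : ∃ G, g' = G + 1 := ⟨g' - 1, by omega⟩
    rw [filter_sum (G + 1) (fun j y => x j y * ((∏ t ∈ Finset.range i, ((j : ℝ) - t)) *
      ∏ t ∈ Finset.range m, ((2 * ((G + 1 : ℕ) : ℝ) + a + 1 + y - 2 * j) - t)))]
    rw [Finset.sum_range_succ'] at h5 ⊢
    have hfac : ((m + i).factorial : ℝ) ≠ 0 := by positivity
    have h8 : ∀ j ∈ Finset.range G, ((m + i).factorial : ℝ) *
        (((m + (j + 1)).choose (m + i) : ℝ) * ∑ y ∈ Finset.range (Lr (G + 1) (j + 1)),
          τ (j + 1) y * ((Ar W (j + 1) + y).choose (m + (j + 1)) : ℝ)) =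
        ∑ y ∈ Finset.range (G + 1 - 1 - (j + 1)), x (j + 1) y *
          ((∏ t ∈ Finset.range i, (((j + 1 : ℕ) : ℝ) - t)) *
            ∏ t ∈ Finset.range m, ((2 * ((G + 1 : ℕ) : ℝ) + a + 1 + y - 2 * ((j + 1 : ℕ) : ℝ)) - t))
        := by
      intro j hj
      rw [Finset.mem_range] at hj
      have e4 : Lr (G + 1) (j + 1) = G + 1 - 1 - (j + 1) := by
        unfold Lr
        rw [if_neg (by omega)]
      rw [e4, Finset.mul_sum, Finset.mul_sum]
      refine Finset.sum_congr rfl fun y hy => ?_
      rw [Finset.mem_range] at hy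
      have e5 : (2 * ((G + 1 : ℕ) : ℝ) + a + 1 + y - 2 * ((j + 1 : ℕ) : ℝ)) =
          ((2 * (G + 1) + a + 1 + y - 2 * (j + 1) : ℕ) : ℝ) := by
        rw [Nat.cast_sub (by omega)]
        push_cast
        ring
      rw [e5, prod_desc, prod_desc]
      have e6 : Ar W (j + 1) + y = (2 * (G + 1) + a + 1 + y - 2 * (j + 1)) + (j + 1) := by
        unfold Ar
        rw [if_neg (by omega)]
        omega
      rw [e6]
      simp only [x, if_neg (show ¬ (j + 1 = 0) by omega)]
      set N := 2 * (G + 1) + a + 1 + y - 2 * (j + 1) with hN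
      have h9 := fact_id N (j + 1) m i
      have h10 : (((m + i).factorial * (m + (j + 1)).choose (m + i) *
        (N + (j + 1)).choose (m + (j + 1)) * (N.factorial * (j + 1).factorial) : ℕ) : ℝ) =
          (((N + (j + 1)).factorial * ((j + 1).descFactorial i * N.descFactorial m) : ℕ) : ℝ) := by
        rw [h9]
      push_cast at h10
      have h11 : (N.factorial : ℝ) ≠ 0 := by positivity
      have h12 : ((j + 1).factorial : ℝ) ≠ 0 := by positivity
      field_simp
      linear_combination (τ (j + 1) y) * h10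
    have h9 : ((m + i).factorial : ℝ) * (((m + 0).choose (m + i) : ℝ) *
        ∑ y ∈ Finset.range (Lr (G + 1) 0), τ 0 y * ((Ar W 0 + y).choose (m + 0) : ℝ)) =
        (if i = 0 then τ 0 0 * ∏ t ∈ Finset.range m, (2 * ((G + 1 : ℕ) : ℝ) + a - t) else 0) +
        ∑ y ∈ Finset.range (G + 1 - 1 - 0), x 0 y *
          ((∏ t ∈ Finset.range i, (((0 : ℕ) : ℝ) - t)) *
            ∏ t ∈ Finset.range m, ((2 * ((G + 1 : ℕ) : ℝ) + a + 1 + y - 2 * ((0 : ℕ) : ℝ)) - t))
        := by
      have e4 : Lr (G + 1) 0 = G + 1 := by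
        unfold Lr
        rw [if_pos rfl]
      have e5 : Ar W 0 = 2 * (G + 1) + a := by
        unfold Ar
        rw [if_pos rfl, e2]
      rcases Nat.eq_zero_or_pos i with hi0 | hi0
      · subst hi0
        rw [if_pos rfl, e4, e5, Finset.sum_range_succ', add_zero, add_zero, Nat.choose_self,
          Nat.cast_one, one_mul, mul_add, add_comm]
        have hch : ∀ N : ℕ, (m.factorial : ℝ) * (N.choose m : ℝ) = (N.descFactorial m : ℝ) := by
          intro N
          rw [Nat.descFactorial_eq_factorial_mul_choose]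
          push_cast
          ring
        congr 1
        · have e6 : (2 * ((G + 1 : ℕ) : ℝ) + a) = ((2 * (G + 1) + a : ℕ) : ℝ) := by
            push_cast
            ring
          rw [e6, prod_desc, ← hch]
          ring
        · rw [Finset.mul_sum, show G + 1 - 1 - 0 = G by omega]
          refine Finset.sum_congr rfl fun y _ => ?_
          have e6 : (2 * ((G + 1 : ℕ) : ℝ) + a + 1 + y - 2 * ((0 : ℕ) : ℝ)) =
              ((2 * (G + 1) + a + (y + 1) : ℕ) : ℝ) := by
            push_cast
            ring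
          rw [Finset.range_zero, Finset.prod_empty, e6, prod_desc, ← hch]
          simp only [x, if_pos]
          ring
      · rw [if_neg (by omega), Nat.choose_eq_zero_of_lt (by omega), Nat.cast_zero, zero_mul,
          mul_zero, zero_add]
        symm
        refine Finset.sum_eq_zero fun y _ => ?_
        rw [Finset.prod_eq_zero (i := 0) (Finset.mem_range.2 hi0) (by simp), zero_mul, mul_zero]
    have h10 := congrArg (fun z => ((m + i).factorial : ℝ) * z) h5
    simp only [mul_zero] at h10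
    rw [mul_add, h9, Finset.mul_sum, Finset.sum_congr rfl h8] at h10
    refine Eq.trans ?_ h10
    ring)
  obtain ⟨hx0, hx⟩ := hsys
  refine hτ' j fun y hy => ?_
  unfold Lr at hy
  split_ifs at hy with hj
  · subst hj
    rcases y with _ | y
    · exact hx0
    · have h5 := hx 0 y (by omega)
      simpa only [x, if_pos] using h5
  · have h5 := hx j y (by omega)
    simp only [x, if_neg hj] at h5
    rcases mul_eq_zero.1 h5 with h6 | h6
    · exact h6
    · exfalso
      have : ((2 * g' + a + 1 + y - 2 * j + j).factorial : ℝ) /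
        ((2 * g' + a + 1 + y - 2 * j).factorial * j.factorial) > 0 := by positivity
      linarith

/-- **the problem `P*`** -/
theorem pstar {g W ρ : ℕ} (h1 : W + g = ρ) (h2 : ρ ≤ 3 * g) (h3 : 3 * g ≤ ρ + 2) (h4 : 2 ≤ ρ)
    (f : ℕ → ℝ[X])
    (hb : ∀ c < 2 * (W + 1), ∀ i, 2 * ρ - 1 < c + i + be W ρ c → (f c).coeff i = 0)
    (he : ∀ c < 2 * (W + 1), W ≤ c → (X - 1) ^ (ρ - c / 2 - (c - ρ)) ∣ f c)
    (hA : InA g W ρ f) : ∀ c < 2 * (W + 1), f c = 0 := by
  have hhigh : ∀ j, th (2 * (W + 1)) f (ρ + g - 1 + j) = 0 :=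
    high (a := 3 * g - ρ) (g' := W - g) (by omega) (by omega) (by omega) (by omega) h4 f hb he hA
  have hhi : ∀ d, ρ + g - 1 ≤ d → th (2 * (W + 1)) f d = 0 := by
    intro d hd
    obtain ⟨j, rfl⟩ := Nat.exists_eq_add_of_le hd
    exact hhigh j
  -- the coefficients of large index
  have hbig : ∀ c < 2 * (W + 1), W ≤ c → f c = 0 := by
    intro c hc hWc
    by_contra hne
    have h5 : ∀ u, ρ + g - 1 - c ≤ u → (f c).coeff u = 0 := by
      intro u hu
      rw [coeff_of_th f hc, hhi _ (by omega), coeff_zero]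
    have h6 := natDegree_le_of_dvd (he c hc hWc) hne
    have h7 : ((X - 1 : ℝ[X]) ^ (ρ - c / 2 - (c - ρ))).natDegree = ρ - c / 2 - (c - ρ) := by
      rw [← C_1, natDegree_pow, natDegree_X_sub_C, mul_one]
    rw [h7] at h6
    have h8 : (f c).leadingCoeff = 0 := h5 _ (by omega)
    exact hne (leadingCoeff_eq_zero.1 h8)
  have hlow : ∀ d, th (2 * (W + 1)) f d = 0 := by
    intro d
    rcases le_or_gt (ρ + g - 1) d with hd | hd
    · exact hhi d hd
    obtain ⟨α, hα, hdvd⟩ := hA d
    have hn0 : n0 g W ρ d = W := by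
      unfold n0
      omega
    rw [hn0] at hα hdvd
    have hdeg : ∀ c, W ≤ c → (th (2 * (W + 1)) f d).coeff c = 0 := by
      intro c hc
      rw [coeff_th]
      split_ifs with h
      · rw [hbig c h.1 hc, coeff_zero]
      · rfl
    by_cases hα0 : α = 0
    · obtain ⟨Q, hQ⟩ := hdvd
      rw [hα0, mul_zero, sub_zero] at hQ
      ext c
      by_cases hc : c < 2 * (W + 1)
      · rw [hQ, coeff_X_pow_mul', if_neg (by omega), coeff_zero]
      · rw [coeff_th, if_neg (fun h => hc h.1), coeff_zero]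
    · exfalso
      have h5 : α.natDegree + W ≤ d := by
        by_contra h6
        have h7 : α.leadingCoeff = 0 := hα _ (by omega)
        exact hα0 (leadingCoeff_eq_zero.1 h7)
      have hm : ((1 + X : ℝ[X]) ^ W).Monic := by
        rw [add_comm, ← C_1]
        exact (monic_X_add_C (1 : ℝ)).pow W
      have hnd : ((1 + X : ℝ[X]) ^ W * α).natDegree = W + α.natDegree := by
        rw [hm.natDegree_mul' hα0]
        congr 1
        rw [add_comm, ← C_1, natDegree_pow, natDegree_X_add_C, mul_one]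
      obtain ⟨Q, hQ⟩ := hdvd
      have h6 := congrArg (fun P => coeff P (W + α.natDegree)) hQ
      simp only [coeff_sub] at h6
      rw [hdeg _ (by omega), zero_sub, coeff_X_pow_mul', if_neg (by omega), neg_eq_zero] at h6
      have h7 : ((1 + X : ℝ[X]) ^ W * α).leadingCoeff = 0 := by
        unfold leadingCoeff
        rw [hnd]
        exact h6
      rw [leadingCoeff_mul, hm.leadingCoeff, one_mul] at h7
      exact hα0 (leadingCoeff_eq_zero.1 h7)
  intro c hc
  ext u
  rw [coeff_of_th f hc, hlow, coeff_zero, coeff_zero]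

end Pool.Agent.SplB
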