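import Pool.Agent.SplB.Node
import Pool.Agent.SplB.Sc

/-!
# SplB/Two: the limits of the conditions at a node (note 1939, Step 2)

`O = K[[ε]]`, `L = K((ε))`; `mO : O[X][X] → L[X][X]`.  The two lines through the node are `y` and `y - ε a - b p`, `a, b ∈ O`, `a(0) ≠ 0`.
PAPER PROOFS.
`lim_one`: `φ ∈ O[X]`, over `L`: `X ^ m * (X - C (ε a)) ^ m ∣ φ - ζ`, `deg ζ < W`.  Then `φ(0)` has no coefficient of index `c` with `W ≤ c < 2 m`.  (If `W ≥ 2 m` nothing is
claimed.)  Proof: divide `φ` by the monic polynomial `X ^ m (X - C (ε a)) ^ m` over `O` with remainder `r`; over `L` the polynomial `r - ζ` is divisible by it and has degree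
`< 2 m`, so `r = ζ` has degree `< W`; modulo `ε`: `φ(0) = r(0) + X ^ (2 m) (..)`.
`pade` (CHARACTERISTIC 0): `X ^ m ∣ φ` and `(X - C (ε a)) ^ m ∣ φ - ζ` over `L`, `(X + 1) ^ m ∣ ζ`, `deg ζ < W`, `m ≤ W ≤ 2 m`: then `φ(0)` has no coefficient of index
`c < 3 m - W`.  Proof: modulo `X ^ m (X - C (ε a)) ^ m` (monic, over `O`; it reduces to `X ^ (2 m)` and `3 m - W ≤ 2 m`) we may assume `deg φ < 2 m`; then over `L`
`φ = X ^ m Q`, `deg Q < m`, `Q ∈ O[X]` (`X ^ m` is monic).  Suppose some coefficient `q_i`, `i < m - w`, `w = W - m`, is a unit.  Let `μ = min_i (v(q_i) + i) < m - w`.  Put `δ = ε a`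
and substitute `X = δ V`: `Q(δ V) = δ ^ μ (Qh(V) + O(ε))` with `Qh ≠ 0` over `K`, and its coefficients of index `> μ` vanish (there `v(q_i) + i > μ`).
`ζ = (1 + X) ^ m P`, `deg P < w` (if `w = 0` then `ζ = 0`).  Over `L`: `(V - 1) ^ m ∣ V ^ m δ ^ m Q(δ V) - (1 + δ V) ^ m P(δ V)`.  Divide by the power of `ε` such that both
terms become integral and not both `0` modulo `ε` (`(1 + δ V) ^ m → 1`): `(V - 1) ^ m ∣ α V ^ m Qh(V) - β Ph(V)` over `K`, where `Ph ≠ 0` has degree `< w`, `(α, β) ≠ (0, 0)` are
`0` or non zero constants.  The right side has at most `w + (m - w) = m` monomials (exponents `< w` or in `[m, 2 m - w)`), so it is `0` (a polynomial with at most `m` terms which is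
divisible by `(V - 1) ^ m` is `0` in characteristic `0`; derivative and induction, or Vandermonde); as `w ≤ m` the two groups of exponents are disjoint, so `α Qh = 0`, `β Ph = 0`.
Contradiction.
`two`: `node` over `L` with `P v = Z`, then `lim_one` for every level.  `two_pade`: `node` over `L` with `P 0 = 0`, `P 1 = Z`; for `T ≤ ρ - l` (`T = W + 1`) `lv l Z = 0`, because `(X + 1) ^ W`
divides it and its degree is `< W`; so `lv l f` is divisible by `X ^ T (X - C (ε a)) ^ T` and has degree `< 2 T`: it is `0`.  For `ρ - l ≤ W` use `pade` with `m = ρ - l`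
(`ρ ≤ W + l + ..`: `W ≤ 2 m` holds as `l ≤ W` and `W ≤ 2 (ρ - W)`).
-/

set_option autoImplicit false

namespace Pool.Agent.SplB

open Polynomial

variable {K : Type*} [Field K]

/-- the inclusion `K[[ε]] → K((ε))` -/
noncomputable abbrev io (K : Type*) [Field K] : PowerSeries K →+* LaurentSeries K :=
  algebraMap (PowerSeries K) (LaurentSeries K)

/-- on bivariate polynomials -/
noncomputable abbrev mO (K : Type*) [Field K] : (PowerSeries K)[X][X] →+* (LaurentSeries K)[X][X] :=
  mapRingHom (mapRingHom (io K))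

/-- sparse polynomials -/
private theorem sparse [CharZero K] (m : ℕ) : ∀ p : K[X], p ≠ 0 → (X - C 1) ^ m ∣ p →
    m < p.support.card := by
  induction m with
  | zero =>
    intro p hp _
    exact Finset.card_pos.2 (nonempty_support_iff.2 hp)
  | succ m ih =>
    -- first the case of a non zero constant coefficient
    have key : ∀ p : K[X], p.coeff 0 ≠ 0 → (X - C 1) ^ (m + 1) ∣ p →
        m + 1 < p.support.card := by
      intro p hp h
      obtain ⟨q, hq⟩ := h
      have hd : derivative p ≠ 0 := by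
        intro h0
        have h1 : p = C (p.coeff 0) := by
          apply eq_C_of_derivative_eq_zero h0
        have h2 : p.eval 1 = 0 := by
          rw [hq]
          simp
        rw [h1, eval_C] at h2
        exact hp h2
      have hdd : (X - C 1) ^ m ∣ derivative p := by
        rw [hq, derivative_mul, derivative_pow]
        refine dvd_add ?_ ?_
        · simp only [Nat.cast_add, Nat.cast_one, add_tsub_cancel_right]
          refine Dvd.dvd.mul_right (Dvd.dvd.mul_right (Dvd.dvd.mul_left (dvd_refl _) _) _) _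
        · exact Dvd.dvd.mul_right (pow_dvd_pow _ (Nat.le_succ m)) _
      have h3 := ih _ hd hdd
      have h4 : (derivative p).support.card ≤ (p.support.erase 0).card := by
        apply Finset.card_le_card_of_injOn (fun n => n + 1)
        · intro n hn
          rw [Finset.mem_coe, mem_support_derivative] at hn
          simp only [Finset.coe_erase, Set.mem_sdiff, Finset.mem_coe, Set.mem_singleton_iff]
          exact ⟨hn, by omega⟩
        · intro a _ b _ hab
          simpa using hab
      rw [Finset.card_erase_of_mem (mem_support_iff.2 hp)] at h4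
      have h5 : 0 < p.support.card := Finset.card_pos.2 ⟨0, mem_support_iff.2 hp⟩
      omega
    intro p hp h
    obtain ⟨k, q, hq, hk⟩ : ∃ (k : ℕ) (q : K[X]), q.coeff 0 ≠ 0 ∧ p = X ^ k * q := by
      have h1 : (X : K[X]) ^ p.natTrailingDegree ∣ p := by
        rw [X_pow_dvd_iff]
        intro d hd
        exact coeff_eq_zero_of_lt_natTrailingDegree hd
      obtain ⟨q, hq⟩ := h1
      refine ⟨p.natTrailingDegree, q, ?_, hq⟩
      have h2 := congrArg (fun f => f.coeff (p.natTrailingDegree)) hq
      rw [coeff_X_pow_mul', if_pos le_rfl, Nat.sub_self] at h2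
      rw [← h2]
      exact mt coeff_natTrailingDegree_eq_zero.1 hp
    have hcop : IsCoprime ((X - C 1) ^ (m + 1)) (X ^ k : K[X]) := by
      apply IsCoprime.pow
      have := isCoprime_X_sub_C_of_isUnit_sub (a := (1 : K)) (b := 0) (by simp)
      simpa using this
    have h2 : (X - C 1) ^ (m + 1) ∣ q := by
      rw [hk] at h
      exact hcop.dvd_of_dvd_mul_left h
    have h3 := key q hq h2
    have h4 : q.support.card ≤ p.support.card := by
      apply Finset.card_le_card_of_injOn (fun n => n + k)
      · intro n hn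
        rw [Finset.mem_coe, mem_support_iff] at hn ⊢
        rw [hk]
        simp only
        rw [mul_comm, coeff_mul_X_pow]
        exact hn
      · intro a _ b _ hab
        simpa using hab
    omega

private theorem cc_eps (a : PowerSeries K) : PowerSeries.constantCoeff (PowerSeries.X * a) = 0 := by
  simp

private theorem io_inj : Function.Injective (io K) := IsFractionRing.injective (PowerSeries K) (LaurentSeries K)

/-- reduction modulo `X ^ m (X - ε a) ^ m` -/
private theorem red (m : ℕ) (a : PowerSeries K) (φ : (PowerSeries K)[X]) :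
    ∃ q r : (PowerSeries K)[X], φ = X ^ m * (X - C (PowerSeries.X * a)) ^ m * q + r ∧
      r.degree < (2 * m : ℕ) ∧
      ∀ c < 2 * m, PowerSeries.constantCoeff (φ.coeff c) = PowerSeries.constantCoeff (r.coeff c) := by
  have hmon : (X ^ m * (X - C (PowerSeries.X * a)) ^ m : (PowerSeries K)[X]).Monic :=
    (monic_X_pow m).mul ((monic_X_sub_C _).pow m)
  have hdeg : (X ^ m * (X - C (PowerSeries.X * a)) ^ m : (PowerSeries K)[X]).degree = (2 * m : ℕ) := by
    rw [degree_mul, degree_X_pow, degree_pow, degree_X_sub_C]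
    simp only [nsmul_eq_mul, mul_one]
    push_cast
    ring
  refine ⟨φ /ₘ _, φ %ₘ _, (modByMonic_add_div φ (X ^ m * (X - C (PowerSeries.X * a)) ^ m)).symm.trans
    (add_comm _ _), ?_, ?_⟩
  · rw [← hdeg]
    exact degree_modByMonic_lt _ hmon
  · intro c hc
    have h1 := modByMonic_add_div φ (X ^ m * (X - C (PowerSeries.X * a)) ^ m)
    have h2 := congrArg (fun f => (f.map (PowerSeries.constantCoeff (R := K))).coeff c) h1
    simp only [Polynomial.map_add, Polynomial.map_mul, Polynomial.map_pow, map_X,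
      Polynomial.map_sub, map_C, cc_eps, C_0, sub_zero, coeff_add, coeff_map] at h2
    rw [← h2, ← pow_add, coeff_X_pow_mul', if_neg (by omega), add_zero]

theorem lim_one {m W : ℕ} {a : PowerSeries K} {φ : (PowerSeries K)[X]} {ζ : (LaurentSeries K)[X]}
    (hζ : ζ.degree < (W : ℕ))
    (h : X ^ m * (X - C (io K (PowerSeries.X * a))) ^ m ∣ φ.map (io K) - ζ) {c : ℕ} (hc : W ≤ c)
    (hc' : c < 2 * m) : PowerSeries.constantCoeff (φ.coeff c) = 0 := by
  obtain ⟨q, r, h1, h2, h3⟩ := red m a φ
  rw [h3 c hc']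
  have h4 : X ^ m * (X - C (io K (PowerSeries.X * a))) ^ m ∣ r.map (io K) - ζ := by
    have h5 : r.map (io K) - ζ = (φ.map (io K) - ζ) -
        X ^ m * (X - C (io K (PowerSeries.X * a))) ^ m * q.map (io K) := by
      rw [h1]
      simp only [Polynomial.map_add, Polynomial.map_mul, Polynomial.map_pow, map_X,
        Polynomial.map_sub, map_C]
      ring
    rw [h5]
    exact dvd_sub h (dvd_mul_right _ _)
  have hmon : (X ^ m * (X - C (io K (PowerSeries.X * a))) ^ m : (LaurentSeries K)[X]).Monic :=
    (monic_X_pow m).mul ((monic_X_sub_C _).pow m)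
  have hdeg : (X ^ m * (X - C (io K (PowerSeries.X * a))) ^ m : (LaurentSeries K)[X]).degree =
      (2 * m : ℕ) := by
    rw [degree_mul, degree_X_pow, degree_pow, degree_X_sub_C]
    simp only [nsmul_eq_mul, mul_one]
    push_cast
    ring
  have h6 : r.map (io K) - ζ = 0 := by
    refine eq_zero_of_dvd_of_degree_lt h4 ?_
    rw [hdeg]
    refine lt_of_le_of_lt (degree_sub_le _ _) (max_lt ?_ ?_)
    · exact lt_of_le_of_lt degree_map_le h2
    · refine lt_trans hζ ?_
      exact_mod_cast lt_of_le_of_lt hc hc'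
  have h7 : (r.map (io K)).coeff c = 0 := by
    rw [sub_eq_zero.1 h6]
    exact coeff_eq_zero_of_degree_lt (lt_of_lt_of_le hζ (by exact_mod_cast hc))
  rw [coeff_map] at h7
  have h8 : r.coeff c = 0 := io_inj (by rw [h7, map_zero])
  rw [h8, map_zero]


theorem pade [CharZero K] {m W : ℕ} (hm : m ≤ W) (hW : W ≤ 2 * m) {a : PowerSeries K}
    (ha : PowerSeries.constantCoeff a ≠ 0) {φ : (PowerSeries K)[X]} {ζ : (LaurentSeries K)[X]}
    (hζ : ζ.degree < (W : ℕ)) (hζ' : (X + 1) ^ m ∣ ζ) (h : X ^ m ∣ φ.map (io K))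
    (h' : (X - C (io K (PowerSeries.X * a))) ^ m ∣ φ.map (io K) - ζ) {c : ℕ}
    (hc : c < 3 * m - W) : PowerSeries.constantCoeff (φ.coeff c) = 0 := by
  obtain ⟨w, rfl⟩ : ∃ w, W = m + w := ⟨W - m, by omega⟩
  obtain ⟨δ, hδ⟩ : ∃ δ : PowerSeries K, δ = PowerSeries.X * a := ⟨_, rfl⟩
  rw [← hδ] at h'
  have hδ0 : δ ≠ 0 := by
    rw [hδ]
    refine mul_ne_zero PowerSeries.X_ne_zero ?_
    rintro rfl
    exact ha (map_zero _)
  have hδc : PowerSeries.constantCoeff δ = 0 := by rw [hδ]; exact cc_eps a
  obtain ⟨d, hd⟩ : ∃ d : LaurentSeries K, d = io K δ := ⟨_, rfl⟩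
  have hd0 : d ≠ 0 := by
    rw [hd]
    exact fun h0 => hδ0 (io_inj (by rw [h0, map_zero]))
  -- reduction to degree `< 2 m`
  obtain ⟨q1, r, e1, e2, e3⟩ := red m a φ
  rw [e3 c (by omega)]
  rw [← hδ] at e1
  have er : r.map (io K) = φ.map (io K) -
      X ^ m * (X - C d) ^ m * q1.map (io K) := by
    rw [e1, hd]
    simp only [Polynomial.map_add, Polynomial.map_mul, Polynomial.map_pow, map_X,
      Polynomial.map_sub, map_C]
    ring
  rw [← hd] at h'
  have k1 : X ^ m ∣ r.map (io K) := by
    rw [er]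
    exact dvd_sub h ((dvd_mul_right _ _).mul_right _)
  have k2 : (X - C d) ^ m ∣ r.map (io K) - ζ := by
    have : r.map (io K) - ζ = (φ.map (io K) - ζ) - (X - C d) ^ m * (X ^ m * q1.map (io K)) := by
      rw [er]; ring
    rw [this]
    exact dvd_sub h' (dvd_mul_right _ _)
  -- `r = X ^ m Q`
  obtain ⟨Q, hQ⟩ : X ^ m ∣ r := by
    rw [X_pow_dvd_iff] at k1 ⊢
    intro j hj
    have := k1 j hj
    rw [coeff_map] at this
    exact io_inj (by rw [this, map_zero])
  have hQdeg : ∀ i, m ≤ i → Q.coeff i = 0 := by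
    intro i hi
    have h1 : r.coeff (i + m) = 0 := by
      apply coeff_eq_zero_of_degree_lt
      refine lt_of_lt_of_le e2 ?_
      exact_mod_cast (by omega : 2 * m ≤ i + m)
    rw [hQ, mul_comm, coeff_mul_X_pow] at h1
    exact h1
  obtain ⟨P, hP⟩ := hζ'
  have hPdeg : ∀ j, w ≤ j → P.coeff j = 0 := by
    intro j hj
    by_contra hne
    have hP0 : P ≠ 0 := by
      rintro rfl
      exact hne (coeff_zero _)
    have h1 : ζ.degree = (m : WithBot ℕ) + P.degree := by
      rw [hP, degree_mul, degree_pow]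
      have : (X + 1 : (LaurentSeries K)[X]).degree = 1 := by
        rw [← C_1]; exact degree_X_add_C 1
      rw [this]
      simp
    have h2 : (j : WithBot ℕ) ≤ P.degree := le_degree_of_ne_zero hne
    rw [h1, degree_eq_natDegree hP0] at hζ
    rw [degree_eq_natDegree hP0] at h2
    have h3 : m + P.natDegree < m + w := by exact_mod_cast hζ
    have h4 : j ≤ P.natDegree := by exact_mod_cast h2
    omega
  by_contra hne
  -- the unit coefficient
  obtain ⟨i₀, hi₀, hu⟩ : ∃ i₀, i₀ + w < m ∧ PowerSeries.constantCoeff (Q.coeff i₀) ≠ 0 := by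
    rw [hQ, coeff_X_pow_mul'] at hne
    split_ifs at hne with hmc
    · exact ⟨c - m, by omega, hne⟩
    · rw [map_zero] at hne
      exact absurd rfl hne
  -- the scaled family
  obtain ⟨v, hv⟩ : ∃ v : ℕ ⊕ ℕ → LaurentSeries K, v = Sum.elim
      (fun i => d ^ (m + i) * io K (Q.coeff i)) (fun j => d ^ j * P.coeff j) := ⟨_, rfl⟩
  have hv1 : ∀ i, v (Sum.inl i) = d ^ (m + i) * io K (Q.coeff i) := by
    intro i; rw [hv]; rfl
  have hv2 : ∀ j, v (Sum.inr j) = d ^ j * P.coeff j := by
    intro j; rw [hv]; rfl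
  obtain ⟨l, u, hl, hu1, i₁, hi₁, hi₂⟩ := sc ((Finset.range m).disjSum (Finset.range w)) v
    ⟨Sum.inl i₀, by simp; omega, by
      rw [hv1]
      refine mul_ne_zero (pow_ne_zero _ hd0) fun h0 => hu ?_
      rw [show Q.coeff i₀ = 0 from io_inj (by rw [h0, map_zero]), map_zero]⟩
  obtain ⟨Qh, hQh⟩ : ∃ Qh : (PowerSeries K)[X], Qh = ∑ i ∈ Finset.range m, monomial i (u (Sum.inl i)) :=
    ⟨_, rfl⟩
  obtain ⟨Ph, hPh⟩ : ∃ Ph : (PowerSeries K)[X], Ph = ∑ j ∈ Finset.range w, monomial j (u (Sum.inr j)) :=
    ⟨_, rfl⟩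
  have cQh : ∀ i, Qh.coeff i = if i < m then u (Sum.inl i) else 0 := by
    intro i
    rw [hQh, finsetSum_coeff]
    simp only [coeff_monomial]
    rw [Finset.sum_ite_eq']
    simp
  have cPh : ∀ i, Ph.coeff i = if i < w then u (Sum.inr i) else 0 := by
    intro i
    rw [hPh, finsetSum_coeff]
    simp only [coeff_monomial]
    rw [Finset.sum_ite_eq']
    simp
  have mQh : Qh.map (io K) = C (l * d ^ m) * (Q.map (io K)).comp (C d * X) := by
    ext1 i
    rw [coeff_map, cQh, coeff_C_mul, comp_C_mul_X_coeff, coeff_map]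
    split_ifs with hi
    · rw [hu1 _ (by simpa using hi), hv1]
      ring
    · rw [hQdeg i (by omega)]
      simp
  have mPh : Ph.map (io K) = C l * P.comp (C d * X) := by
    ext1 i
    rw [coeff_map, cPh, coeff_C_mul, comp_C_mul_X_coeff]
    split_ifs with hi
    · rw [hu1 _ (by simpa using hi), hv2]
      ring
    · rw [hPdeg i (by omega)]
      simp
  -- divisibility
  have hdiv : (X - C 1) ^ m ∣ X ^ m * Qh - (1 + C δ * X) ^ m * Ph := by
    have h1 : (X - C 1 : (LaurentSeries K)[X]) ^ m ∣
        (X ^ m * Qh - (1 + C δ * X) ^ m * Ph).map (io K) := by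
      obtain ⟨s, hs⟩ := k2
      have h2 := congrArg (fun f => f.comp (C d * X)) hs
      simp only [sub_comp, mul_comp, pow_comp, X_comp, C_comp] at h2
      rw [hQ, hP] at h2
      simp only [Polynomial.map_mul, Polynomial.map_pow, map_X, mul_comp, pow_comp, X_comp,
        add_comp, one_comp] at h2
      simp only [Polynomial.map_sub, Polynomial.map_mul, Polynomial.map_pow, map_X,
        Polynomial.map_add, Polynomial.map_one, map_C, mQh, mPh, ← hd]
      have h3 : (C d * X - C d : (LaurentSeries K)[X]) = C d * (X - C 1) := by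
        rw [C_1]; ring
      rw [h3] at h2
      refine ⟨C l * C d ^ m * s.comp (C d * X), ?_⟩
      have h4 : X ^ m * (C (l * d ^ m) * (Q.map (io K)).comp (C d * X)) -
          (1 + C d * X) ^ m * (C l * P.comp (C d * X)) =
          C l * ((C d * X) ^ m * (Q.map (io K)).comp (C d * X) -
            (C d * X + 1) ^ m * P.comp (C d * X)) := by
        rw [C_mul, C_pow]
        ring
      rw [h4, h2, mul_pow]
      ring
    have h5 : (X - C 1 : (LaurentSeries K)[X]) ^ m =
        ((X - C 1 : (PowerSeries K)[X]) ^ m).map (io K) := by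
      simp
    rw [h5] at h1
    exact (map_dvd_map (io K) io_inj ((monic_X_sub_C _).pow m)).1 h1
  -- modulo `ε`
  obtain ⟨p, hp⟩ : ∃ p : K[X], p = X ^ m * Qh.map (PowerSeries.constantCoeff (R := K)) -
      Ph.map (PowerSeries.constantCoeff (R := K)) := ⟨_, rfl⟩
  have hpd : (X - C 1) ^ m ∣ p := by
    have h1 := Polynomial.map_dvd (PowerSeries.constantCoeff (R := K)) hdiv
    simp only [Polynomial.map_sub, Polynomial.map_mul, Polynomial.map_pow, map_X,
      Polynomial.map_add, Polynomial.map_one, map_C, hδc, C_0, zero_mul, add_zero, one_pow,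
      one_mul, map_one] at h1
    rw [hp]
    exact h1
  have hQv : ∀ i, i₀ < i → PowerSeries.constantCoeff (Qh.coeff i) = 0 := by
    intro i hi
    rw [cQh]
    split_ifs with him
    · obtain ⟨y, hy⟩ : IsUnit (Q.coeff i₀) := by
        rw [PowerSeries.isUnit_iff_constantCoeff]
        exact isUnit_iff_ne_zero.2 hu
      have h1 : u (Sum.inl i) = u (Sum.inl i₀) * (δ ^ (i - i₀) * Q.coeff i * (y⁻¹ : (PowerSeries K)ˣ)) := by
        apply io_inj
        rw [hu1 _ (by simpa using him), hv1, map_mul, hu1 _ (by simp; omega), hv1]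
        have h2 : d ^ (m + i) = d ^ (m + i₀) * d ^ (i - i₀) := by
          rw [← pow_add]
          congr 1
          omega
        have h3 : io K (Q.coeff i₀) * io K ((y⁻¹ : (PowerSeries K)ˣ) : PowerSeries K) = 1 := by
          rw [← map_mul, ← hy, Units.mul_inv, map_one]
        rw [map_mul, map_mul, map_pow, ← hd, h2]
        have h4 : l * (d ^ (m + i₀) * io K (Q.coeff i₀)) * (d ^ (i - i₀) * io K (Q.coeff i) *
            io K ((y⁻¹ : (PowerSeries K)ˣ) : PowerSeries K)) =
            l * (d ^ (m + i₀) * d ^ (i - i₀) * io K (Q.coeff i)) *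
              (io K (Q.coeff i₀) * io K ((y⁻¹ : (PowerSeries K)ˣ) : PowerSeries K)) := by ring
        rw [h4, h3, mul_one]
      rw [h1, map_mul, map_mul, map_mul, map_pow, hδc, zero_pow (by omega)]
      ring
    · exact map_zero _
  have hcp : ∀ i, p.coeff i = (if m ≤ i then PowerSeries.constantCoeff (Qh.coeff (i - m)) else 0) -
      PowerSeries.constantCoeff (Ph.coeff i) := by
    intro i
    rw [hp, coeff_sub, coeff_X_pow_mul', coeff_map, coeff_map]
  have hp0 : p = 0 := by
    by_contra hp0
    have h1 := sparse m p hp0 hpd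
    have h2 : p.support ⊆ Finset.range w ∪ (Finset.range (i₀ + 1)).image (fun i => m + i) := by
      intro i hi
      rw [mem_support_iff, hcp] at hi
      rw [Finset.mem_union, Finset.mem_range, Finset.mem_image]
      by_contra hcon
      push Not at hcon
      obtain ⟨h3, h4⟩ := hcon
      apply hi
      have hPi : PowerSeries.constantCoeff (Ph.coeff i) = 0 := by
        rw [cPh, if_neg (by omega), map_zero]
      rw [hPi, sub_zero]
      split_ifs with hmi
      · apply hQv
        by_contra h5
        exact h4 (i - m) (Finset.mem_range.2 (by omega)) (by omega)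
      · rfl
    have h3 := (Finset.card_le_card h2).trans (Finset.card_union_le _ _)
    rw [Finset.card_range] at h3
    have h4 := Finset.card_image_le (s := Finset.range (i₀ + 1)) (f := fun i => m + i)
    rw [Finset.card_range] at h4
    omega
  have hall : ∀ i, PowerSeries.constantCoeff (Qh.coeff i) = 0 ∧
      PowerSeries.constantCoeff (Ph.coeff i) = 0 := by
    intro i
    constructor
    · have h1 := hcp (m + i)
      rw [hp0, coeff_zero, if_pos (by omega), cPh, if_neg (by omega), map_zero, sub_zero,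
        Nat.add_sub_cancel_left] at h1
      exact h1.symm
    · by_cases hi : i < w
      · have h1 := hcp i
        rw [hp0, coeff_zero, if_neg (by omega), zero_sub] at h1
        exact neg_eq_zero.1 h1.symm
      · rw [cPh, if_neg hi, map_zero]
  rcases i₁ with i | j
  · have hi : i < m := by simpa using hi₁
    have h1 := (hall i).1
    rw [cQh, if_pos hi] at h1
    exact hi₂ h1
  · have hj : j < w := by simpa using hi₁
    have h1 := (hall j).2
    rw [cPh, if_pos hj] at h1
    exact hi₂ h1


private theorem lnA_zero {A : Type*} [CommRing A] : (X : A[X][X]) = lnA 0 0 := by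
  unfold lnA
  simp

private theorem lv_mO (f : (PowerSeries K)[X][X]) (l : ℕ) : lv l (mO K f) = (lv l f).map (io K) := by
  ext1 c
  rw [coeff_lv, coeff_map, coeff_lv]
  unfold mO
  rw [coe_mapRingHom, coeff_map, coe_mapRingHom, coeff_map]

private theorem io_Xa_ne {a : PowerSeries K} (ha : PowerSeries.constantCoeff a ≠ 0) :
    io K (PowerSeries.X * a) ≠ 0 := by
  intro h0
  have h1 : PowerSeries.X * a = 0 := io_inj (by rw [h0, map_zero])
  rcases mul_eq_zero.1 h1 with h2 | h2
  · exact PowerSeries.X_ne_zero h2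
  · rw [h2, map_zero] at ha
    exact ha rfl

private theorem mO_degree {f : (PowerSeries K)[X][X]} {n : ℕ} (hf : f.degree < (n : ℕ)) :
    (mO K f).degree < (n : ℕ) := lt_of_le_of_lt degree_map_le hf

private theorem cop {m : ℕ} {δ : LaurentSeries K} (hδ : δ ≠ 0) :
    IsCoprime ((X : (LaurentSeries K)[X]) ^ m) ((X - C δ) ^ m) := by
  apply IsCoprime.pow
  have := isCoprime_X_sub_C_of_isUnit_sub (a := (0 : LaurentSeries K)) (b := δ)
    (by rw [zero_sub]; exact (isUnit_iff_ne_zero.2 hδ).neg)
  simpa using this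

/-- the limit at a node with a common value `Z` of degree `< W` in `y` (`Z = 0` for `W = 0`) -/
theorem two {ρ T' T W : ℕ} (hWT : W ≤ 2 * T) {a b : PowerSeries K}
    (ha : PowerSeries.constantCoeff a ≠ 0) {f : (PowerSeries K)[X][X]} {Z : (LaurentSeries K)[X][X]}
    (hf : f.degree < (2 * T : ℕ)) (hZ : Z.degree < (W : ℕ))
    (h1 : mO K f - Z ∈ nI ρ T' T X)
    (h2 : mO K f - Z ∈ nI ρ T' T (lnA (io K (PowerSeries.X * a)) (io K b))) {l c : ℕ}
    (hl : l < T') (hc : W ≤ c) (hc' : c < 2 * min (ρ - l) T) :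
    PowerSeries.constantCoeff ((f.coeff c).coeff l) = 0 := by
  have hδ := io_Xa_ne ha
  have hZl : ∀ l, (lv l Z).degree < (W : ℕ) := by
    intro l
    rw [degree_lt_iff_coeff_zero] at hZ ⊢
    intro c hc
    rw [coeff_lv, hZ c hc, coeff_zero]
  have key := node (a := ![0, io K (PowerSeries.X * a)]) (b := ![0, io K b]) (by simpa using hδ.symm)
    (mO_degree hf) (P := fun _ => Z) (by
      intro v
      fin_cases v
      · simp only [Fin.zero_eta, Matrix.cons_val_zero]
        rw [← lnA_zero]
        exact h1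
      · exact h2) (by
      intro l _ _
      exact ⟨rfl, lt_of_lt_of_le (hZl l) (by exact_mod_cast hWT)⟩)
  have k0 := key 0 l hl
  have k1 := key 1 l hl
  simp only [Matrix.cons_val_zero, Matrix.cons_val_one, C_0, sub_zero, lv_mO] at k0 k1
  have k2 := (cop hδ).mul_dvd k0 k1
  have k3 := lim_one (hZl l) k2 hc hc'
  rw [coeff_lv] at k3
  exact k3

/-- the limit at the node of `B` and `w₃` -/
theorem two_pade [CharZero K] {ρ W : ℕ} (hρ : W < ρ) (hW : W ≤ 2 * (ρ - W))
    {a b : PowerSeries K} (ha : PowerSeries.constantCoeff a ≠ 0) {f : (PowerSeries K)[X][X]}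
    {Z : (LaurentSeries K)[X][X]} (hf : f.degree < (2 * (W + 1) : ℕ)) (hZ : Z.degree < (W : ℕ))
    (hZ' : ∀ l ≤ W, (X + 1) ^ min (ρ - l) W ∣ lv l Z)
    (h1 : mO K f ∈ nI ρ (W + 1) (W + 1) X)
    (h2 : mO K f - Z ∈ nI ρ (W + 1) (W + 1) (lnA (io K (PowerSeries.X * a)) (io K b))) {l c : ℕ}
    (hl : l ≤ W) (hc : c < 2 * (W + 1)) (hc' : W < ρ - l ∨ c < 3 * (ρ - l) - W) :
    PowerSeries.constantCoeff ((f.coeff c).coeff l) = 0 := by
  have hδ := io_Xa_ne ha
  have hZl : ∀ l, (lv l Z).degree < (W : ℕ) := by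
    intro l
    rw [degree_lt_iff_coeff_zero] at hZ ⊢
    intro c hc
    rw [coeff_lv, hZ c hc, coeff_zero]
  -- levels where `Z` vanishes
  have hZ0 : ∀ l ≤ W, W ≤ ρ - l → lv l Z = 0 := by
    intro l hl hW'
    have h3 := hZ' l hl
    rw [min_eq_right hW'] at h3
    refine eq_zero_of_dvd_of_degree_lt h3 ?_
    have : ((X + 1 : (LaurentSeries K)[X]) ^ W).degree = (W : ℕ) := by
      rw [degree_pow, ← C_1, degree_X_add_C]
      simp
    rw [this]
    exact hZl l
  have key := node (a := ![0, io K (PowerSeries.X * a)]) (b := ![0, io K b]) (by simpa using hδ.symm)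
    (mO_degree hf) (P := ![0, Z]) (by
      intro v
      fin_cases v
      · simp only [Fin.zero_eta, Matrix.cons_val_zero]
        rw [← lnA_zero, sub_zero]
        exact h1
      · exact h2) (by
      intro l hl hT
      have e1 : lv l (0 : (LaurentSeries K)[X][X]) = 0 := by
        ext1 c
        rw [coeff_lv, coeff_zero, coeff_zero, coeff_zero]
      refine ⟨?_, ?_⟩
      · simp only [Matrix.cons_val_zero, Matrix.cons_val_one]
        rw [e1, hZ0 l (by omega) (by omega)]
      · simp only [Matrix.cons_val_zero]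
        rw [e1, degree_zero]
        exact WithBot.bot_lt_coe _)
  have k0 := key 0 l (by omega)
  have k1 := key 1 l (by omega)
  have e1 : lv l (0 : (LaurentSeries K)[X][X]) = 0 := by
    ext1 c
    rw [coeff_lv, coeff_zero, coeff_zero, coeff_zero]
  simp only [Matrix.cons_val_zero, Matrix.cons_val_one, C_0, sub_zero, lv_mO, e1] at k0 k1
  by_cases hT : W < ρ - l
  · rw [hZ0 l hl hT.le, sub_zero] at k1
    rw [min_eq_right (by omega : W + 1 ≤ ρ - l)] at k0 k1
    have k2 := (cop hδ).mul_dvd k0 k1
    have k4 : (lv l f).map (io K) = 0 := by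
      refine eq_zero_of_dvd_of_degree_lt k2 ?_
      rw [degree_mul, degree_X_pow, degree_pow, degree_X_sub_C]
      have : (((W + 1 : ℕ) : WithBot ℕ) + (W + 1) • (1 : WithBot ℕ)) = ((2 * (W + 1) : ℕ) : WithBot ℕ) := by
        simp only [nsmul_eq_mul, mul_one]
        push_cast
        ring
      rw [this]
      refine lt_of_le_of_lt degree_map_le ?_
      rw [degree_lt_iff_coeff_zero] at hf ⊢
      intro c hc
      rw [coeff_lv, hf c hc, coeff_zero]
    have k5 : lv l f = 0 := by
      ext1 c
      apply io_inj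
      rw [← coeff_map, k4, coeff_zero, coeff_zero, map_zero]
    rw [← coeff_lv, k5, coeff_zero, map_zero]
  · have hm : min (ρ - l) (W + 1) = ρ - l := min_eq_left (by omega)
    rw [hm] at k0 k1
    have k3 := hZ' l hl
    rw [min_eq_left (by omega : ρ - l ≤ W)] at k3
    have k4 := pade (m := ρ - l) (W := W) (by omega) (by omega) ha (hZl l) k3 k0 k1 (c := c)
      (by omega)
    rw [coeff_lv] at k4
    exact k4

end Pool.Agent.SplB
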